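import Pool.Agent.R836.RD.Defs

/-!
# RD-AUT: conjugate elements are conjugate under an automorphism of the algebraically closed field
-/

set_option autoImplicit false

namespace Pool.Agent.R836.RD.AutAux

open Set

universe u1 u2 u3 u4

theorem tb {F : Type u1} {K1 : Type u2} {Om : Type u3} [Field F] [Field K1] [Field Om]
    [Algebra F K1] [Algebra K1 Om] [Algebra F Om] [IsScalarTower F K1 Om]
    [Algebra.IsAlgebraic F K1] {ι : Type u4} (v : ι → Om) (hs : IsTranscendenceBasis F v) :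
    IsTranscendenceBasis K1 v :=
  (Algebra.IsAlgebraic.isTranscendenceBasis_iff F K1).1 hs

theorem eqv {K1 : Type u1} {K : Type u2} {L : Type u3} [Field K1] [Field K] [Field L]
    [Algebra K1 K] [Algebra K1 L] [IsAlgClosed K] [IsAlgClosed L] {ι : Type u4} (v : ι → K)
    (w : ι → L) (hv : IsTranscendenceBasis K1 v) (hw : IsTranscendenceBasis K1 w) :
    ∃ e : K ≃+* L, ∀ r : K1, e (algebraMap K1 K r) = algebraMap K1 L r := by
  let _ := IsAlgClosed.isAlgClosure_of_transcendence_basis v hv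
  let _ := IsAlgClosed.isAlgClosure_of_transcendence_basis w hw
  let e0 : Algebra.adjoin K1 (range v) ≃ₐ[K1] Algebra.adjoin K1 (range w) :=
    hv.1.aevalEquiv.symm.trans hw.1.aevalEquiv
  refine ⟨IsAlgClosure.equivOfEquiv K L e0.toRingEquiv, fun r => ?_⟩
  have h1 : algebraMap K1 K r = algebraMap (Algebra.adjoin K1 (range v)) K
      (algebraMap K1 (Algebra.adjoin K1 (range v)) r) := rfl
  have h2 : e0.toRingEquiv (algebraMap K1 (Algebra.adjoin K1 (range v)) r) =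
      algebraMap K1 (Algebra.adjoin K1 (range w)) r := e0.commutes r
  rw [h1, IsAlgClosure.equivOfEquiv_algebraMap, h2]
  rfl

open IntermediateField in
theorem gen {F : Type u1} {Om : Type u2} [Field F] [Field Om] [Algebra F Om] [IsAlgClosed Om]
    (α β : Om) (hα : IsIntegral F α) (hβ : Polynomial.aeval β (minpoly F α) = 0) :
    ∃ e : Om ≃+* Om, (∀ x : F, e (algebraMap F Om x) = algebraMap F Om x) ∧ e α = β := by
  classical
  have hmem : β ∈ (minpoly F α).aroots Om := by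
    rw [Polynomial.mem_aroots]
    exact ⟨minpoly.ne_zero hα, hβ⟩
  set φ : F⟮α⟯ →ₐ[F] Om := (algHomAdjoinIntegralEquiv F hα).symm ⟨β, hmem⟩ with hφ
  have hg : φ (AdjoinSimple.gen F α) = β := algHomAdjoinIntegralEquiv_symm_apply_gen F hα ⟨β, hmem⟩
  obtain ⟨s, hs⟩ := exists_isTranscendenceBasis F Om
  have hal : Algebra.IsAlgebraic F F⟮α⟯ := isAlgebraic_adjoin_simple hα
  let i1 : Algebra F⟮α⟯ Om := inferInstance
  have h1 : @IsTranscendenceBasis s F⟮α⟯ Om _ _ i1 ((↑) : s → Om) := tb _ hs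
  have h5 : ∀ x : F, @algebraMap F⟮α⟯ Om _ _ i1 (algebraMap F F⟮α⟯ x) = algebraMap F Om x :=
    fun x => rfl
  have h6 : @algebraMap F⟮α⟯ Om _ _ i1 (AdjoinSimple.gen F α) = α := rfl
  let i2 : Algebra F⟮α⟯ Om := φ.toRingHom.toAlgebra
  have t2 : @IsScalarTower F F⟮α⟯ Om _ i2.toSMul _ :=
    @IsScalarTower.of_algebraMap_eq F F⟮α⟯ Om _ _ _ _ i2 _ (fun x => (φ.commutes x).symm)
  have h2 : @IsTranscendenceBasis s F⟮α⟯ Om _ _ i2 ((↑) : s → Om) :=
    @tb F F⟮α⟯ Om _ _ _ _ i2 _ t2 hal s _ hs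
  obtain ⟨e, he⟩ := @eqv F⟮α⟯ Om Om _ _ _ i1 i2 _ _ s ((↑) : s → Om) ((↑) : s → Om) h1 h2
  refine ⟨e, fun x => ?_, ?_⟩
  · have h3 := he (algebraMap F F⟮α⟯ x)
    have h4 : @algebraMap F⟮α⟯ Om _ _ i2 (algebraMap F F⟮α⟯ x) = algebraMap F Om x :=
      φ.commutes x
    rw [h4, h5] at h3
    exact h3
  · have h3 := he (AdjoinSimple.gen F α)
    have h4 : @algebraMap F⟮α⟯ Om _ _ i2 (AdjoinSimple.gen F α) = β := hg
    rw [h4, h6] at h3
    exact h3

end Pool.Agent.R836.RD.AutAux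

namespace Pool.Agent.R836.RD

open Pool.Agent.TH693.QQ Pool.Agent.H397R2.PP Pool.Agent.H307R2.OP Pool.Agent.Y627.PT

theorem aut : S_AUT := by
  intro F α β hα hβ
  obtain ⟨e, he1, he2⟩ := AutAux.gen (F := F) (Om := OB) α β hα hβ
  refine ⟨AlgEquiv.ofRingEquiv (f := e) (fun r => ?_), fun x hx => he1 ⟨x, hx⟩, he2⟩
  exact he1 ⟨algebraMap kk OB r, F.algebraMap_mem r⟩

end Pool.Agent.R836.RD
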