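import Pool.Agent.R836.RD.Defs

set_option autoImplicit false

/-! From the sections of `Pa`, `Pb` to the restricted partition functions. -/

namespace Pool.Agent.R836.RD

open PowerSeries Pool.Agent.TH693.QQ

/-- the coefficients of `f` are not all 0 in any progression -/
def Full (f : (ZMod 2)⟦X⟧) : Prop :=
  ∀ A B : ℕ, 0 < A → ∀ N : ℕ, ∃ n, N ≤ n ∧ coeff (A * n + B) f = 1

theorem full_of {f : (ZMod 2)⟦X⟧}
    (h : ∀ (κ M r : ℕ), Odd M → ∃ n : ℕ, n ≡ r [MOD 2 ^ κ * M] ∧ coeff n f ≠ 0) : Full f := by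
  intro A B hA N
  obtain ⟨κ, M, hM, hAM⟩ := Nat.exists_eq_two_pow_mul_odd (n := A * (N + B + 1)) (by positivity)
  obtain ⟨n, hn, hn0⟩ := h κ M (A * N + B) hM
  rw [← hAM] at hn
  have h1 : A * N + B < A * (N + B + 1) := by nlinarith
  have h2 : A * N + B ≤ n := by
    have h3 : n % (A * (N + B + 1)) = A * N + B := by
      rw [hn]
      exact Nat.mod_eq_of_lt h1
    rw [← h3]
    exact Nat.mod_le _ _
  obtain ⟨k, hk⟩ := (Nat.modEq_iff_dvd' h2).1 hn.symm
  refine ⟨N + (N + B + 1) * k, Nat.le_add_right _ _, ?_⟩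
  have h4 : A * (N + (N + B + 1) * k) + B = n := by
    have : n = A * N + B + A * (N + B + 1) * k := by omega
    rw [this]
    ring
  rw [h4]
  generalize coeff n f = z at hn0 ⊢
  revert hn0
  revert z
  decide

/-- progressions that avoid the classes 2 and 3 modulo 4 -/
theorem four_dvd {A B : ℕ} (h : ∀ n : ℕ, (A * n + B) % 4 ≠ 2 ∧ (A * n + B) % 4 ≠ 3) :
    4 ∣ A ∧ (B % 4 = 0 ∨ B % 4 = 1) := by
  have h0 := h 0
  have h1 := h 1
  have h2 := h 2
  have h3 := h 3
  rw [mul_zero, zero_add] at h0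
  rw [mul_one] at h1
  refine ⟨?_, by omega⟩
  omega

end Pool.Agent.R836.RD
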