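import Pool.Agent.R836.RD.Defs

set_option autoImplicit false

/-!
# COMB: combination over the primes (helper586)
-/

namespace Pool.Agent.R836.RD

open PowerSeries Pool.Agent.TH693.QQ Pool.Agent.H397R2.PP Pool.Agent.H307R2.OP Pool.Agent.Y627.PT

theorem comb_aux (hT : C_TAU) (κ M : ℕ) (hM : Odd M) (S : Finset ℕ) :
    (∀ l ∈ S, l.Prime ∧ l ∣ M) → ∃ σ : OB ≃ₐ[kk] OB, Comp κ σ 1 (3 * M) 1 (3 * M) ∧
    ∀ l ∈ S, σ (dB 1 (3 * M * l)) ≠ dB 1 (3 * M * l) := by
  classical
  induction S using Finset.induction_on with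
  | empty =>
    intro _
    exact ⟨AlgEquiv.refl, fun γ => rfl, fun l hl => absurd hl (Finset.notMem_empty l)⟩
  | insert l S hl ih =>
    intro hS
    obtain ⟨σ, h1, h2⟩ := ih (fun l' hl' => hS l' (Finset.mem_insert_of_mem hl'))
    by_cases hfix : σ (dB 1 (3 * M * l)) = dB 1 (3 * M * l)
    · obtain ⟨hlp, hlM⟩ := hS l (Finset.mem_insert_self l S)
      obtain ⟨τ, t1, t2, t3⟩ := hT κ M l hM hlp hlM
      refine ⟨τ.trans σ, ?_, ?_⟩
      · intro γ
        rw [AlgEquiv.trans_apply, t1 γ, h1 γ]
      · intro l' hl'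
        rw [AlgEquiv.trans_apply]
        rcases Finset.mem_insert.1 hl' with h | h
        · subst h
          intro he
          rw [← hfix] at he
          have he' := σ.injective he
          rw [hfix] at he'
          exact t2 he'
        · obtain ⟨hp', hM'⟩ := hS l' hl'
          have hne : l' ≠ l := by
            rintro rfl
            exact hl h
          rw [t3 l' hp' hM' hne]
          exact h2 l' h
    · refine ⟨σ, h1, ?_⟩
      intro l' hl'
      rcases Finset.mem_insert.1 hl' with h | h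
      · subst h
        exact hfix
      · exact h2 l' h

theorem comb : S_COMB := by
  intro hT _ _ _ κ M hM
  obtain ⟨σ, h1, h2⟩ := comb_aux hT κ M hM M.primeFactors
    (fun l hl => ⟨Nat.prime_of_mem_primeFactors hl, Nat.dvd_of_mem_primeFactors hl⟩)
  refine ⟨σ, h1, fun l hl hlM => h2 l ?_⟩
  exact Nat.mem_primeFactors.2 ⟨hl, hlM, by rintro rfl; simp at hM⟩

end Pool.Agent.R836.RD
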