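import Pool.Agent.R836.RD.Defs

set_option autoImplicit false

/-!
# RD, piece DEL: the ring homomorphism w -> z w
-/

namespace Pool.Agent.R836.RD

namespace DEL813

theorem prO_coeff (κ : ℕ) (γ : ZMod (2 ^ κ)) (f : Om) (n : ℤ) :
    (prO κ γ f).coeff n = if (n : ZMod (2 ^ κ)) = γ then f.coeff n else 0 := rfl

theorem prO_add (κ : ℕ) (γ : ZMod (2 ^ κ)) (f g : Om) :
    prO κ γ (f + g) = prO κ γ f + prO κ γ g := by
  ext n
  rw [prO_coeff, HahnSeries.coeff_add, HahnSeries.coeff_add, prO_coeff, prO_coeff]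
  split_ifs <;> simp

theorem prO_zero (κ : ℕ) (γ : ZMod (2 ^ κ)) : prO κ γ 0 = 0 := by
  ext n
  rw [prO_coeff, HahnSeries.coeff_zero, ite_self]

/-- `prO` as an additive homomorphism -/
noncomputable def prH (κ : ℕ) (γ : ZMod (2 ^ κ)) : Om →+ Om where
  toFun := prO κ γ
  map_zero' := prO_zero κ γ
  map_add' := prO_add κ γ

theorem prO_sum (κ : ℕ) (γ : ZMod (2 ^ κ)) {ι : Type} (s : Finset ι) (f : ι → Om) :
    prO κ γ (∑ i ∈ s, f i) = ∑ i ∈ s, prO κ γ (f i) := map_sum (prH κ γ) f s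

theorem sum_prO (κ : ℕ) (f : Om) : ∑ γ : ZMod (2 ^ κ), prO κ γ f = f := by
  ext n
  rw [HahnSeries.coeff_sum]
  simp only [prO_coeff]
  rw [Finset.sum_ite_eq Finset.univ, if_pos (Finset.mem_univ _)]

theorem prO_one (κ : ℕ) (γ : ZMod (2 ^ κ)) : prO κ γ 1 = if γ = 0 then 1 else 0 := by
  ext n
  rw [prO_coeff]
  by_cases hn : n = 0
  · subst hn
    rw [Int.cast_zero]
    by_cases hγ : γ = 0
    · rw [if_pos hγ.symm, if_pos hγ]
    · rw [if_neg (Ne.symm hγ), if_neg hγ, HahnSeries.coeff_zero]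
  · have h1 : (1 : Om).coeff n = 0 := by
      rw [HahnSeries.coeff_one, if_neg hn]
    rw [h1, ite_self]
    split_ifs
    · exact h1.symm
    · rw [HahnSeries.coeff_zero]

theorem mul_hom (κ : ℕ) (α β γ : ZMod (2 ^ κ)) (f g : Om) :
    prO κ γ (prO κ α f * prO κ β g) = if α + β = γ then prO κ α f * prO κ β g else 0 := by
  have key : ∀ n : ℤ, (prO κ α f * prO κ β g).coeff n ≠ 0 → (n : ZMod (2 ^ κ)) = α + β := by
    intro n hn
    rw [HahnSeries.coeff_mul] at hn
    obtain ⟨ij, hij, hne⟩ := Finset.exists_ne_zero_of_sum_ne_zero hn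
    rw [Finset.mem_antidiagonal] at hij
    have h1 : (prO κ α f).coeff ij.1 ≠ 0 := left_ne_zero_of_mul hne
    have h2 : (prO κ β g).coeff ij.2 ≠ 0 := right_ne_zero_of_mul hne
    rw [prO_coeff] at h1 h2
    have h3 : (ij.1 : ZMod (2 ^ κ)) = α := by
      by_contra h
      rw [if_neg h] at h1
      exact h1 rfl
    have h4 : (ij.2 : ZMod (2 ^ κ)) = β := by
      by_contra h
      rw [if_neg h] at h2
      exact h2 rfl
    rw [← hij.2.2, Int.cast_add, h3, h4]
  ext n
  rw [prO_coeff]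
  by_cases hαβ : α + β = γ
  · rw [if_pos hαβ]
    split_ifs with h
    · rfl
    · by_contra h0
      exact h ((key n (Ne.symm h0)).trans hαβ)
  · rw [if_neg hαβ, HahnSeries.coeff_zero]
    split_ifs with h
    · by_contra h0
      exact hαβ ((key n h0).symm.trans h)
    · rfl

theorem prO_mul (κ : ℕ) (γ : ZMod (2 ^ κ)) (f g : Om) :
    prO κ γ (f * g) = ∑ α : ZMod (2 ^ κ), ∑ β : ZMod (2 ^ κ),
      if α + β = γ then prO κ α f * prO κ β g else 0 := by
  conv_lhs => rw [← sum_prO κ f, ← sum_prO κ g, Finset.sum_mul_sum, prO_sum]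
  apply Finset.sum_congr rfl
  intro α _
  rw [prO_sum]
  apply Finset.sum_congr rfl
  intro β _
  exact mul_hom κ α β γ f g

/-- the map `w → z w` -/
noncomputable def Dl (κ : ℕ) (f : Om) : Az κ :=
  ∑ γ : ZMod (2 ^ κ), AddMonoidAlgebra.single γ (io' (prO κ γ f))

theorem Dl_coeff (κ : ℕ) (f : Om) (γ : ZMod (2 ^ κ)) : (Dl κ f).coeff γ = io' (prO κ γ f) := by
  classical
  unfold Dl
  rw [AddMonoidAlgebra.coeff_sum, Finsupp.finsetSum_apply]
  simp only [AddMonoidAlgebra.coeff_single, Finsupp.single_apply]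
  rw [Finset.sum_ite_eq' Finset.univ γ, if_pos (Finset.mem_univ _)]

theorem res_single (κ : ℕ) (γ : ZMod (2 ^ κ)) (a : OB) :
    res κ (AddMonoidAlgebra.single γ a) = a := by
  show (AddMonoidAlgebra.lift OB OB (ZMod (2 ^ κ))) 1 (AddMonoidAlgebra.single γ a) = a
  rw [AddMonoidAlgebra.lift_single]
  simp

theorem single_sum (κ : ℕ) (γ : ZMod (2 ^ κ)) {ι : Type} (s : Finset ι) (f : ι → OB) :
    (AddMonoidAlgebra.single γ (∑ i ∈ s, f i) : Az κ) =
      ∑ i ∈ s, AddMonoidAlgebra.single γ (f i) :=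
  map_sum (AddMonoidAlgebra.singleAddHom γ : OB →+ Az κ) f s

end DEL813

open DEL813

theorem del : S_DEL := by
  intro κ
  refine ⟨{ toFun := Dl κ, map_one' := ?_, map_mul' := ?_, map_zero' := ?_, map_add' := ?_ },
    fun f γ => Dl_coeff κ f γ, fun f => ?_⟩
  · unfold Dl
    simp only [prO_one]
    rw [Finset.sum_eq_single 0]
    · rw [if_pos rfl, map_one]
      rfl
    · intro γ _ hγ
      rw [if_neg hγ, map_zero, AddMonoidAlgebra.single_zero]
    · intro h
      exact absurd (Finset.mem_univ _) h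
  · intro f g
    show Dl κ (f * g) = Dl κ f * Dl κ g
    unfold Dl
    rw [Finset.sum_mul_sum]
    simp only [AddMonoidAlgebra.single_mul_single]
    have h1 : ∀ γ : ZMod (2 ^ κ), (AddMonoidAlgebra.single γ (io' (prO κ γ (f * g))) : Az κ) =
        ∑ α : ZMod (2 ^ κ), ∑ β : ZMod (2 ^ κ), if α + β = γ then
          (AddMonoidAlgebra.single (α + β) (io' (prO κ α f) * io' (prO κ β g)) : Az κ) else 0 := by
      intro γ
      rw [prO_mul, map_sum, single_sum]
      apply Finset.sum_congr rfl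
      intro α _
      rw [map_sum, single_sum]
      apply Finset.sum_congr rfl
      intro β _
      by_cases h : α + β = γ
      · rw [if_pos h, if_pos h, map_mul, h]
      · rw [if_neg h, if_neg h, map_zero, AddMonoidAlgebra.single_zero]
    simp only [h1]
    rw [Finset.sum_comm]
    apply Finset.sum_congr rfl
    intro α _
    rw [Finset.sum_comm]
    apply Finset.sum_congr rfl
    intro β _
    rw [Finset.sum_ite_eq Finset.univ, if_pos (Finset.mem_univ _)]
  · unfold Dl
    apply Finset.sum_eq_zero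
    intro γ _
    rw [prO_zero, map_zero, AddMonoidAlgebra.single_zero]
  · intro f g
    show Dl κ (f + g) = Dl κ f + Dl κ g
    unfold Dl
    rw [← Finset.sum_add_distrib]
    apply Finset.sum_congr rfl
    intro γ _
    rw [prO_add, map_add, AddMonoidAlgebra.single_add]
  · show res κ (Dl κ f) = io' f
    unfold Dl
    rw [map_sum]
    simp only [res_single]
    rw [← map_sum, sum_prO]

end Pool.Agent.R836.RD
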