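import Pool.Agent.R836.RD.Defs

set_option autoImplicit false

/-!
# DOWN: the image of the vertex `(1, 3 M d)` is below the base (helper586)
-/

namespace Pool.Agent.R836.RD

open PowerSeries Pool.Agent.TH693.QQ Pool.Agent.H397R2.PP Pool.Agent.H307R2.OP Pool.Agent.Y627.PT

namespace DownAux

theorem sum_prO (κ : ℕ) (f : Om) : ∑ γ : ZMod (2 ^ κ), prO κ γ f = f := by
  ext n
  rw [HahnSeries.coeff_sum]
  simp [prO]

theorem comp_dB {κ : ℕ} {ρ : OB ≃ₐ[kk] OB} {c c' : kk} {j j' : ℕ} (h : Comp κ ρ c j c' j') :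
    ρ (dB c j) = dB c' j' := by
  have e1 : dB c j = ∑ γ : ZMod (2 ^ κ), io' (prO κ γ (dO c j)) := by
    rw [← map_sum, sum_prO]
    rfl
  have e2 : dB c' j' = ∑ γ : ZMod (2 ^ κ), io' (prO κ γ (dO c' j')) := by
    rw [← map_sum, sum_prO]
    rfl
  rw [e1, e2, map_sum]
  exact Finset.sum_congr rfl fun γ _ => h γ

theorem dB_inj (hI : S_INJ) {c c' : kk} {j j' : ℕ} (hc : c ≠ 0) (hc' : c' ≠ 0) (hj : 0 < j)
    (hj' : 0 < j') (h : dB c j = dB c' j') : c = c' ∧ j = j' :=
  hI c c' j j' hc hc' hj hj' ((algebraMap Om OB).injective h)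

theorem comp_uniq (hI : S_INJ) {κ : ℕ} {ρ : OB ≃ₐ[kk] OB} {c c1 c2 : kk} {j j1 j2 : ℕ}
    (hc1 : c1 ≠ 0) (hc2 : c2 ≠ 0) (hj1 : 0 < j1) (hj2 : 0 < j2) (h1 : Comp κ ρ c j c1 j1)
    (h2 : Comp κ ρ c j c2 j2) : c1 = c2 ∧ j1 = j2 :=
  dB_inj hI hc1 hc2 hj1 hj2 ((comp_dB h1).symm.trans (comp_dB h2))

theorem nb_ne {l : ℕ} {c d : kk} {j m : ℕ} (hl : l ≠ 0) (hc : c ≠ 0) (h : Nb l c j d m) :
    d ≠ 0 := by
  rcases h with ⟨rfl, -⟩ | ⟨h, -⟩
  · exact pow_ne_zero _ hc
  · rintro rfl
    rw [zero_pow hl] at h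
    exact hc h.symm

theorem nb_pos {l : ℕ} {c d : kk} {j m : ℕ} (hl : 0 < l) (hj : 0 < j) (h : Nb l c j d m) :
    0 < m := by
  rcases h with ⟨-, rfl⟩ | ⟨-, h⟩
  · exact Nat.mul_pos hj hl
  · rcases Nat.eq_zero_or_pos m with h0 | h0
    · subst h0
      omega
    · exact h0

end DownAux

open DownAux

theorem down_aux (hS : C_STEP) (hI : S_INJ) (κ M : ℕ) (hM : Odd M) (σ : OB ≃ₐ[kk] OB)
    (h0 : Comp κ σ 1 (3 * M) 1 (3 * M))
    (hmove : ∀ l : ℕ, l.Prime → l ∣ M → σ (dB 1 (3 * M * l)) ≠ dB 1 (3 * M * l)) :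
    ∀ d : ℕ, d ∣ M → ∃ c : kk, c ^ d = 1 ∧ Comp κ σ 1 (3 * M * d) c (3 * M / d) := by
  have hMpos : 0 < M := hM.pos
  intro d
  induction d using Nat.strong_induction_on with
  | _ d ih =>
  intro hd
  have hdpos : 0 < d := Nat.pos_of_dvd_of_pos hd hMpos
  by_cases hd1 : d = 1
  · subst hd1
    refine ⟨1, by simp, ?_⟩
    rw [mul_one, Nat.div_one]
    exact h0
  -- the prime `l`
  obtain ⟨l, hl, hld⟩ := Nat.exists_prime_and_dvd hd1
  obtain ⟨d', rfl⟩ := hld
  have hlM : l ∣ M := (Dvd.intro _ rfl).trans hd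
  have hl2 : l ≠ 2 := by
    rintro rfl
    obtain ⟨k, hk⟩ := hM
    omega
  have hd'pos : 0 < d' := Nat.pos_of_mul_pos_left hdpos
  have hd'M : d' ∣ M := (Dvd.intro_left _ rfl).trans hd
  have hl1 : 1 < l := hl.one_lt
  have hd'lt : d' < l * d' := by nlinarith
  obtain ⟨q, hq⟩ := hd
  have hqpos : 0 < q := by
    rcases Nat.eq_zero_or_pos q with h | h
    · subst h; omega
    · exact h
  have hLd' : 3 * M / d' = 3 * q * l := by
    rw [hq]
    refine Nat.div_eq_of_eq_mul_left hd'pos (by ring)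
  have hLd : 3 * M / (l * d') = 3 * q := by
    rw [hq]
    refine Nat.div_eq_of_eq_mul_left hdpos (by ring)
  obtain ⟨c', hc'1, hc'2⟩ := ih d' hd'lt hd'M
  rw [hLd'] at hc'2
  have hc'0 : c' ≠ 0 := by
    rintro rfl
    rw [zero_pow hd'pos.ne'] at hc'1
    exact zero_ne_one hc'1
  have hstep := hS κ σ l hl hl2 1 c' (3 * M * d') (3 * q * l) one_ne_zero hc'0 (by positivity)
    (by positivity) ((hlM.mul_left 3).mul_right d') (Dvd.intro_left _ rfl) hc'2
  obtain ⟨c'', m'', hnb, hcomp⟩ := hstep 1 (3 * M * (l * d')) (Or.inl ⟨by simp, by ring⟩)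
  have hc''0 : c'' ≠ 0 := nb_ne hl.ne_zero hc'0 hnb
  have hm''0 : 0 < m'' := nb_pos hl.pos (by positivity) hnb
  rcases hnb with ⟨e1, e2⟩ | ⟨e1, e2⟩
  · -- upper neighbour: contradiction
    exfalso
    by_cases hd'1 : d' = 1
    · subst hd'1
      rw [pow_one] at hc'1
      subst hc'1
      rw [one_pow] at e1
      subst e1
      have hM' : 3 * M = 3 * q * l := by rw [hq]; ring
      have hfix := comp_dB hcomp
      rw [e2, mul_one, ← hM'] at hfix
      exact hmove l hl hlM hfix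
    · by_cases hld' : l ∣ d'
      · obtain ⟨e, rfl⟩ := hld'
        have hepos : 0 < e := Nat.pos_of_mul_pos_left hd'pos
        have heM : e ∣ M := (Dvd.intro_left _ rfl).trans hd'M
        have helt : e < l * (l * e) := by nlinarith
        obtain ⟨ce, hce1, hce2⟩ := ih e helt heM
        have hce0 : ce ≠ 0 := by
          rintro rfl
          rw [zero_pow hepos.ne'] at hce1
          exact zero_ne_one hce1
        have hLe : 3 * M / e = 3 * q * l * l := by
          rw [hq]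
          refine Nat.div_eq_of_eq_mul_left hepos (by ring)
        rw [hLe] at hce2
        obtain ⟨c3, m3, hnb3, hcomp3⟩ := hstep 1 (3 * M * e) (Or.inr ⟨by simp, by ring⟩)
        have hc30 : c3 ≠ 0 := nb_ne hl.ne_zero hc'0 hnb3
        have hm30 : 0 < m3 := nb_pos hl.pos (by positivity) hnb3
        obtain ⟨u1, u2⟩ := comp_uniq hI hce0 hc30 (by positivity) hm30 hce2 hcomp3
        rcases hnb3 with ⟨f1, f2⟩ | ⟨f1, f2⟩
        · -- the images coincide
          have h5 : σ (dB 1 (3 * M * e)) = σ (dB 1 (3 * M * (l * (l * e)))) := by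
            rw [comp_dB hcomp3, comp_dB hcomp, e1, e2, f1, f2]
          have h6 := σ.injective h5
          have h7 := (dB_inj hI one_ne_zero one_ne_zero (by positivity) (by positivity) h6).2
          have h8 : 3 * M * e < 3 * M * (l * (l * e)) := Nat.mul_lt_mul_of_pos_left helt (by positivity)
          omega
        · rw [← u2] at f2
          have h9 : 0 < 3 * q * l := by positivity
          nlinarith [mul_pos h9 hl.pos, mul_lt_mul_of_pos_left hl1 h9]
      · obtain ⟨l', hl', hl'd⟩ := Nat.exists_prime_and_dvd hd'1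
        obtain ⟨e, rfl⟩ := hl'd
        have hll' : l ≠ l' := by
          rintro rfl
          exact hld' (Dvd.intro _ rfl)
        have hl'1 : 1 < l' := hl'.one_lt
        have hepos : 0 < e := Nat.pos_of_mul_pos_left hd'pos
        have hl'M : l' ∣ M := (Dvd.intro _ rfl).trans hd'M
        have hl'2 : l' ≠ 2 := by
          rintro rfl
          obtain ⟨k, hk⟩ := hM
          omega
        have hleM : l * e ∣ M := ⟨l' * q, by rw [hq]; ring⟩
        have hle0 : 0 < l * e := Nat.mul_pos hl.pos hepos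
        have hlelt : l * e < l * (l' * e) := by
          refine Nat.mul_lt_mul_of_pos_left ?_ hl.pos
          nlinarith
        obtain ⟨c1, h1a, h1b⟩ := ih (l * e) hlelt hleM
        have hc10 : c1 ≠ 0 := by
          rintro rfl
          rw [zero_pow hle0.ne'] at h1a
          exact zero_ne_one h1a
        have hLle : 3 * M / (l * e) = 3 * q * l' := by
          rw [hq]
          refine Nat.div_eq_of_eq_mul_left hle0 (by ring)
        rw [hLle] at h1b
        obtain ⟨c3, m3, hnb3, hcomp3⟩ := hS κ σ l' hl' hl'2 1 c1 (3 * M * (l * e)) (3 * q * l')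
          one_ne_zero hc10 (by positivity) (by positivity) ((hl'M.mul_left 3).mul_right _)
          (Dvd.intro_left _ rfl) h1b 1 (3 * M * (l * (l' * e))) (Or.inl ⟨by simp, by ring⟩)
        have hc30 : c3 ≠ 0 := nb_ne hl'.ne_zero hc10 hnb3
        have hm30 : 0 < m3 := nb_pos hl'.pos (by positivity) hnb3
        obtain ⟨-, u2⟩ := comp_uniq hI hc''0 hc30 hm''0 hm30 hcomp hcomp3
        rw [e2] at u2
        have h9 : 0 < 3 * q := by positivity
        rcases hnb3 with ⟨-, f2⟩ | ⟨-, f2⟩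
        · rw [f2] at u2
          have h10 : 3 * q * (l * l) = 3 * q * (l' * l') := by
            rw [← mul_assoc, ← mul_assoc]; exact u2
          have h11 := Nat.eq_of_mul_eq_mul_left h9 h10
          exact hll' (Nat.mul_self_inj.1 h11)
        · have h10 : m3 = 3 * q := Nat.eq_of_mul_eq_mul_right hl'.pos f2
          rw [h10] at u2
          nlinarith [mul_lt_mul_of_pos_left hl1 h9, mul_pos h9 hl.pos]
  · refine ⟨c'', ?_, ?_⟩
    · rw [pow_mul, e1, hc'1]
    · rw [hLd]
      have : m'' = 3 * q := Nat.eq_of_mul_eq_mul_right hl.pos e2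
      rw [← this]
      exact hcomp

theorem down : S_DOWN := by
  intro hS _ hI κ M hM σ h0 hmove
  exact down_aux hS hI κ M hM σ h0 hmove

end Pool.Agent.R836.RD
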