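import Mathlib
import Pool.Agent.Y627.PT.Hk
import Pool.Agent.TH693.QQ.QD1
import Pool.Agent.TH693.QQ.QD
import Pool.Agent.H307R2.OP.MS

set_option autoImplicit false

/-!
# Odd values of eta-quotients modulo 2 in all progressions: definitions and statements of the pieces

`kk` is the algebraic closure of `F_2`, `Sk = kk[[w]]`, `Om = kk((w))`, `OB` its algebraic closure,
`Db = X ∏ (1 - X ^ n) ^ 24 = ∑ X ^ (odd square)` modulo 2, `E = ∏ (1 - X ^ n)` modulo 2.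
A vertex is a pair `(c, j)`, `c ≠ 0` in `kk`, `j > 0`; it stands for the point `c w ^ j`.
-/

namespace Pool.Agent.R836.RD

open PowerSeries Pool.Agent.TH693.QQ Pool.Agent.H397R2.PP Pool.Agent.H307R2.OP Pool.Agent.Y627.PT
open Pool.Agent.TH693.PP (E P)

/-- Laurent series in `w` -/
abbrev Om : Type := LaurentSeries kk

/-- algebraic closure of `Om` -/
abbrev OB : Type := AlgebraicClosure Om

/-- evaluation of a power series at the point `c w ^ j` -/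
noncomputable def pt (c : kk) (j : ℕ) : Sk →+* Sk :=
  if h : j ≠ 0 then ((PowerSeries.expand j h : Sk →ₐ[kk] Sk) : Sk →+* Sk).comp
    (PowerSeries.rescale c) else RingHom.id Sk

/-- power series over `F_2` at the point `c w ^ j`, as a Laurent series -/
noncomputable def ev (c : kk) (j : ℕ) : (ZMod 2)⟦X⟧ →+* Om :=
  (HahnSeries.ofPowerSeries ℤ kk).comp ((pt c j).comp ik)

/-- the value of `D` at a vertex -/
noncomputable def dO (c : kk) (j : ℕ) : Om := ev c j Db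

/-- the embedding of `Om` in its algebraic closure -/
noncomputable def io' : Om →+* OB := algebraMap Om OB

/-- the value of `D` at a vertex, in `OB` -/
noncomputable def dB (c : kk) (j : ℕ) : OB := io' (dO c j)

/-- the part of a Laurent series with exponents in the class `γ` modulo `2 ^ κ` -/
noncomputable def prO (κ : ℕ) (γ : ZMod (2 ^ κ)) (f : Om) : Om where
  coeff n := if (n : ZMod (2 ^ κ)) = γ then f.coeff n else 0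
  isPWO_support' := f.isPWO_support.mono fun n hn => by
    rw [Function.mem_support] at hn
    rw [HahnSeries.mem_support]
    intro h
    apply hn
    rw [h, ite_self]

/-- the automorphism `w → ζ w` of the Laurent series, as a function -/
noncomputable def tw (ζ : kk) (f : Om) : Om where
  coeff n := ζ ^ n * f.coeff n
  isPWO_support' := f.isPWO_support.mono fun n hn => by
    rw [Function.mem_support] at hn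
    rw [HahnSeries.mem_support]
    intro h
    apply hn
    rw [h, mul_zero]

/-- `ρ` maps the vertex `(c, j)` to `(c', j')`, together with all parts modulo `2 ^ κ` -/
def Comp (κ : ℕ) (ρ : OB ≃ₐ[kk] OB) (c : kk) (j : ℕ) (c' : kk) (j' : ℕ) : Prop :=
  ∀ γ : ZMod (2 ^ κ), ρ (io' (prO κ γ (dO c j))) = io' (prO κ γ (dO c' j'))

/-- `(d, m)` is an `ℓ`-neighbour of `(c, j)`: `c ^ ℓ w ^ (j ℓ)`, or an `ℓ`-th root of `c w ^ j` -/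
def Nb (l : ℕ) (c : kk) (j : ℕ) (d : kk) (m : ℕ) : Prop :=
  (d = c ^ l ∧ m = j * l) ∨ (d ^ l = c ∧ m * l = j)

/-- the group algebra of `Z / 2 ^ κ` over `OB` -/
abbrev Az (κ : ℕ) : Type := AddMonoidAlgebra OB (ZMod (2 ^ κ))

/-- the augmentation -/
noncomputable def res (κ : ℕ) : Az κ →+* OB :=
  ((AddMonoidAlgebra.lift OB OB (ZMod (2 ^ κ))) 1 : Az κ →ₐ[OB] OB)

/-! ### Statements of the pieces -/

/-- AUT: conjugate elements are conjugate under an automorphism of `OB` -/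
def S_AUT : Prop := ∀ (F : IntermediateField kk OB) (α β : OB), IsIntegral F α →
  Polynomial.aeval β (minpoly F α) = 0 → ∃ ρ : OB ≃ₐ[kk] OB, (∀ x ∈ F, ρ x = x) ∧ ρ α = β

/-- SYM: symmetric functions from power sums -/
def S_SYM : Prop := ∀ (F : IntermediateField kk OB) (m : ℕ) (y : Fin m → OB),
  Function.Injective y → (∀ n : ℕ, ∑ i, y i ^ n ∈ F) →
  ∃ Q : Polynomial F, Q.map (algebraMap F OB) = ∏ i, (Polynomial.X - Polynomial.C (y i))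

/-- UN: the unit criterion in `Az κ` -/
def S_UN : Prop := ∀ (κ : ℕ) (x : Az κ), res κ x ≠ 0 → IsUnit x

/-- DEL: the ring homomorphism `w → z w` -/
def S_DEL : Prop := ∀ κ : ℕ, ∃ Δ : Om →+* Az κ,
  (∀ (f : Om) (γ : ZMod (2 ^ κ)), (Δ f).coeff γ = io' (prO κ γ f)) ∧ ∀ f : Om, res κ (Δ f) = io' f

/-- VV: power sums determine the set -/
def S_VV : Prop := S_UN → ∀ (κ m : ℕ) (y y' : Fin m → Az κ),
  (∀ i j, i ≠ j → res κ (y i) ≠ res κ (y j)) → (∀ i j, i ≠ j → res κ (y' i) ≠ res κ (y' j)) →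
  (∀ n : ℕ, ∑ i, y i ^ n = ∑ i, y' i ^ n) → ∀ i, ∃ j, y i = y' j

/-- CUB: cube roots -/
def S_CUB : Prop := S_UN → ∀ (κ : ℕ) (x y : Az κ), res κ y ≠ 0 → x ^ 3 = y ^ 3 →
  ∃ ω : kk, ω ^ 3 = 1 ∧ x = AddMonoidAlgebra.single 0 (io' (HahnSeries.C ω)) * y

/-- INJ: the value of `D` determines the vertex -/
def S_INJ : Prop := ∀ (c c' : kk) (j j' : ℕ), c ≠ 0 → c' ≠ 0 → 0 < j → 0 < j' →
  dO c j = dO c' j' → c = c' ∧ j = j'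

/-- HK: the sum over the neighbours -/
def S_HK : Prop := ∀ (l : ℕ), l.Prime → l ≠ 2 → ∀ n : ℕ, ∃ G : Polynomial (ZMod 2),
  G.natDegree ≤ n ∧ ∀ (ζ c : kk) (i : ℕ), IsPrimitiveRoot ζ l → c ≠ 0 → 0 < i →
    dO (c ^ (l * l)) (i * l * l) ^ n + ∑ s ∈ Finset.range l, dO (c * ζ ^ s) i ^ n =
      ev (c ^ l) (i * l) (Polynomial.aeval Db G)

/-- STEP: neighbours are mapped to neighbours -/
def S_STEP : Prop := S_DEL → S_VV → S_INJ → S_HK → S_UN →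
  ∀ (κ : ℕ) (ρ : OB ≃ₐ[kk] OB) (l : ℕ), l.Prime → l ≠ 2 → ∀ (c c' : kk) (j j' : ℕ), c ≠ 0 → c' ≠ 0 →
  0 < j → 0 < j' → l ∣ j → l ∣ j' → Comp κ ρ c j c' j' → ∀ (d : kk) (m : ℕ), Nb l c j d m →
  ∃ (d' : kk) (m' : ℕ), Nb l c' j' d' m' ∧ Comp κ ρ d m d' m'

/-- EX0: an automorphism that moves `D(w ^ (L l))` -/
def S_EX0 : Prop := S_AUT → S_SYM → S_INJ → S_HK → ∀ (L l : ℕ), 0 < L → l.Prime → l ≠ 2 → l ∣ L →
  ∃ ρ : OB ≃ₐ[kk] OB, ρ (dB 1 L) = dB 1 L ∧ ρ (dB 1 (L * l)) ≠ dB 1 (L * l)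

/-- GOOD: the parts of `D` lie in a tower of quadratic extensions -/
def S_GOOD : Prop := ∀ (L κ : ℕ), 0 < L → ∀ (γ : ZMod (2 ^ κ)) (U : OB ≃ₐ[kk] OB),
  U (dB 1 L) = dB 1 L → ∃ J : ℕ, ∀ n, J ≤ n →
    (U ^ (2 ^ n)) (io' (prO κ γ (dO 1 L))) = io' (prO κ γ (dO 1 L))

/-- TW: the automorphism `w → ζ w` extends -/
def S_TW : Prop := ∀ ζ : kk, ζ ≠ 0 → ∃ T : OB ≃ₐ[kk] OB, ∀ f : Om, T (io' f) = io' (tw ζ f)

/-- TAU: an automorphism for one prime -/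
def S_TAU : Prop := S_EX0 → S_AUT → S_SYM → S_HK → S_GOOD → S_TW → S_STEP → S_DEL → S_VV → S_UN →
  S_INJ → ∀ (κ M l : ℕ), Odd M → l.Prime → l ∣ M →
  ∃ τ : OB ≃ₐ[kk] OB, Comp κ τ 1 (3 * M) 1 (3 * M) ∧ τ (dB 1 (3 * M * l)) ≠ dB 1 (3 * M * l) ∧
    ∀ l' : ℕ, l'.Prime → l' ∣ M → l' ≠ l → τ (dB 1 (3 * M * l')) = dB 1 (3 * M * l')

/-- the conclusion of TAU -/
def C_TAU : Prop := ∀ (κ M l : ℕ), Odd M → l.Prime → l ∣ M →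
  ∃ τ : OB ≃ₐ[kk] OB, Comp κ τ 1 (3 * M) 1 (3 * M) ∧ τ (dB 1 (3 * M * l)) ≠ dB 1 (3 * M * l) ∧
    ∀ l' : ℕ, l'.Prime → l' ∣ M → l' ≠ l → τ (dB 1 (3 * M * l')) = dB 1 (3 * M * l')

/-- the conclusion of STEP -/
def C_STEP : Prop :=
  ∀ (κ : ℕ) (ρ : OB ≃ₐ[kk] OB) (l : ℕ), l.Prime → l ≠ 2 → ∀ (c c' : kk) (j j' : ℕ), c ≠ 0 → c' ≠ 0 →
  0 < j → 0 < j' → l ∣ j → l ∣ j' → Comp κ ρ c j c' j' → ∀ (d : kk) (m : ℕ), Nb l c j d m →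
  ∃ (d' : kk) (m' : ℕ), Nb l c' j' d' m' ∧ Comp κ ρ d m d' m'

/-- COMB: combination over the primes -/
def S_COMB : Prop := C_TAU → C_STEP → S_DEL → S_INJ → ∀ (κ M : ℕ), Odd M →
  ∃ σ : OB ≃ₐ[kk] OB, Comp κ σ 1 (3 * M) 1 (3 * M) ∧
    ∀ l : ℕ, l.Prime → l ∣ M → σ (dB 1 (3 * M * l)) ≠ dB 1 (3 * M * l)

/-- the conclusion of COMB -/
def C_COMB : Prop := ∀ (κ M : ℕ), Odd M →
  ∃ σ : OB ≃ₐ[kk] OB, Comp κ σ 1 (3 * M) 1 (3 * M) ∧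
    ∀ l : ℕ, l.Prime → l ∣ M → σ (dB 1 (3 * M * l)) ≠ dB 1 (3 * M * l)

/-- DOWN: the image of the vertex `(1, 3 M d)` is below the base -/
def S_DOWN : Prop := C_STEP → S_DEL → S_INJ → ∀ (κ M : ℕ), Odd M → ∀ σ : OB ≃ₐ[kk] OB,
  Comp κ σ 1 (3 * M) 1 (3 * M) →
  (∀ l : ℕ, l.Prime → l ∣ M → σ (dB 1 (3 * M * l)) ≠ dB 1 (3 * M * l)) →
  ∀ d : ℕ, d ∣ M → ∃ c : kk, c ^ d = 1 ∧ Comp κ σ 1 (3 * M * d) c (3 * M / d)

/-- the conclusion of DOWN -/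
def C_DOWN : Prop := ∀ (κ M : ℕ), Odd M → ∀ σ : OB ≃ₐ[kk] OB,
  Comp κ σ 1 (3 * M) 1 (3 * M) →
  (∀ l : ℕ, l.Prime → l ∣ M → σ (dB 1 (3 * M * l)) ≠ dB 1 (3 * M * l)) →
  ∀ d : ℕ, d ∣ M → ∃ c : kk, c ^ d = 1 ∧ Comp κ σ 1 (3 * M * d) c (3 * M / d)

/-- SWAP: the automorphism that is used -/
def S_SWAP : Prop := C_COMB → C_DOWN → S_TW → S_DEL → ∀ (κ M : ℕ), Odd M →
  ∃ ρ : OB ≃ₐ[kk] OB, Comp κ ρ 1 (3 * M) 1 (3 * M) ∧ Comp κ ρ 1 3 1 (3 * M * M)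

/-- the conclusion of SWAP -/
def C_SWAP : Prop := ∀ (κ M : ℕ), Odd M →
  ∃ ρ : OB ≃ₐ[kk] OB, Comp κ ρ 1 (3 * M) 1 (3 * M) ∧ Comp κ ρ 1 3 1 (3 * M * M)

/-- PATH: images of the vertices below the base -/
def S_PATH : Prop := C_STEP → ∀ (κ M : ℕ), Odd M → ∀ ρ : OB ≃ₐ[kk] OB,
  Comp κ ρ 1 (3 * M) 1 (3 * M) → ∀ d : ℕ, d ∣ M → ∀ c : kk, c ^ d = 1 →
  ∃ (c' : kk) (s m : ℕ), s ∣ d ∧ (s = 1 → c' = 1) ∧ c' ≠ 0 ∧ m * s ^ 2 = 3 * M * d ∧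
    Comp κ ρ c (3 * M / d) c' m

/-- the conclusion of PATH -/
def C_PATH : Prop := ∀ (κ M : ℕ), Odd M → ∀ ρ : OB ≃ₐ[kk] OB,
  Comp κ ρ 1 (3 * M) 1 (3 * M) → ∀ d : ℕ, d ∣ M → ∀ c : kk, c ^ d = 1 →
  ∃ (c' : kk) (s m : ℕ), s ∣ d ∧ (s = 1 → c' = 1) ∧ c' ≠ 0 ∧ m * s ^ 2 = 3 * M * d ∧
    Comp κ ρ c (3 * M / d) c' m

/-! ### The final part -/

/-- `f` is mapped to `g` together with all parts modulo `2 ^ κ` -/
def CompO (κ : ℕ) (ρ : OB ≃ₐ[kk] OB) (f g : Om) : Prop :=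
  ∀ γ : ZMod (2 ^ κ), ρ (io' (prO κ γ f)) = io' (prO κ γ g)

/-- RING: `CompO` is compatible with the ring operations -/
def S_RING : Prop := S_DEL → ∀ (κ : ℕ) (ρ : OB ≃ₐ[kk] OB) (f g f' g' : Om), CompO κ ρ f g →
  CompO κ ρ f' g' → CompO κ ρ (f + f') (g + g') ∧ CompO κ ρ (f * f') (g * g') ∧
    (f ≠ 0 → CompO κ ρ f⁻¹ g⁻¹) ∧ ρ (io' f) = io' g

/-- `e = X ∏ (1 - X ^ (24 n)) = ∑ X ^ (m ^ 2)`, `m > 0` prime to 6 -/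
noncomputable def Ee : (ZMod 2)⟦X⟧ := X * ex 24 (by norm_num) E

/-- the value of `e` at a vertex -/
noncomputable def eO (c : kk) (j : ℕ) : Om := ev c j Ee

/-- `f_1 ^ 2 / f_3` modulo 2 -/
noncomputable def Pa : (ZMod 2)⟦X⟧ := E ^ 2 * ex 3 (by norm_num) P

/-- `f_3 ^ 2 / f_1` modulo 2 -/
noncomputable def Pb : (ZMod 2)⟦X⟧ := (ex 3 (by norm_num) E) ^ 2 * P

/-- EE: identities for `e` -/
def S_EE : Prop := Ee ^ 3 = ex 3 (by norm_num) Db ∧ Ee = Db + ex 9 (by norm_num) Db ∧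
  ex 24 (by norm_num) Pa * ex 3 (by norm_num) Ee = X * Ee ^ 2 ∧
  X ^ 5 * ex 24 (by norm_num) Pb * Ee = (ex 3 (by norm_num) Ee) ^ 2 ∧
  ∀ n : ℕ, coeff n Ee ≠ 0 → n % 24 = 1

/-- EIM: the images of the values of `e` -/
def S_EIM : Prop := S_EE → C_PATH → C_STEP → S_CUB → S_UN → S_DEL → S_INJ → ∀ (κ M : ℕ), Odd M →
  3 ∣ M → ∀ ρ : OB ≃ₐ[kk] OB, Comp κ ρ 1 (3 * M) 1 (3 * M) → ∀ c : kk, c ^ (3 * M) = 1 →
  ∃ (c1 c2 : kk) (i1 i2 s s' : ℕ), c1 ≠ 0 ∧ c2 ≠ 0 ∧ s ∣ M ∧ s' ∣ M / 3 ∧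
    i1 * s ^ 2 = M * M ∧ 3 * i2 * s' ^ 2 = M * M ∧ (i2 = 3 * i1 ∨ 3 * i2 = i1) ∧
    (s = 1 → c1 ^ 3 = 1) ∧ (s' = 1 → c2 ^ 3 = 1) ∧
    CompO κ ρ (eO c 1) (eO c1 i1) ∧ CompO κ ρ (eO (c ^ 3) 3) (eO c2 i2) ∧
    Comp κ ρ (c ^ 3) 3 (c1 ^ 3) (3 * i1) ∧ Comp κ ρ (c ^ 9) 9 (c2 ^ 3) (3 * i2)

/-- the conclusion of EIM -/
def C_EIM : Prop := ∀ (κ M : ℕ), Odd M →
  3 ∣ M → ∀ ρ : OB ≃ₐ[kk] OB, Comp κ ρ 1 (3 * M) 1 (3 * M) → ∀ c : kk, c ^ (3 * M) = 1 →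
  ∃ (c1 c2 : kk) (i1 i2 s s' : ℕ), c1 ≠ 0 ∧ c2 ≠ 0 ∧ s ∣ M ∧ s' ∣ M / 3 ∧
    i1 * s ^ 2 = M * M ∧ 3 * i2 * s' ^ 2 = M * M ∧ (i2 = 3 * i1 ∨ 3 * i2 = i1) ∧
    (s = 1 → c1 ^ 3 = 1) ∧ (s' = 1 → c2 ^ 3 = 1) ∧
    CompO κ ρ (eO c 1) (eO c1 i1) ∧ CompO κ ρ (eO (c ^ 3) 3) (eO c2 i2) ∧
    Comp κ ρ (c ^ 3) 3 (c1 ^ 3) (3 * i1) ∧ Comp κ ρ (c ^ 9) 9 (c2 ^ 3) (3 * i2)

/-- REL: a vanishing section gives a linear relation; the exponents are `24 m + a` -/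
def S_REL : Prop := ∀ (κ M r : ℕ) (a : ℤ) (f : (ZMod 2)⟦X⟧) (g : kk → Om) (ζ : kk), Odd M →
  IsPrimitiveRoot ζ (3 * M) →
  (∀ n : ℕ, n ≡ r [MOD 2 ^ κ * M] → coeff n f = 0) →
  (∀ c : kk, c ≠ 0 → ∀ n : ℤ, (g c).coeff n = if 24 ∣ n - a ∧ a ≤ n then
    c ^ n * algebraMap (ZMod 2) kk (coeff ((n - a) / 24).toNat f) else 0) →
  ∑ t ∈ Finset.range M, io' (HahnSeries.C (ζ ^ (-(t : ℤ) * (24 * (r : ℤ) + a)))) *
    io' (prO (κ + 3) ((24 * (r : ℤ) + a : ℤ) : ZMod (2 ^ (κ + 3))) (g (ζ ^ t))) = 0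

/-- GAB: the two functions as Laurent series -/
def S_GAB : Prop := S_EE → ∀ c : kk, c ≠ 0 → ∀ n : ℤ,
  (eO c 1 ^ 2 / eO (c ^ 3) 3).coeff n = (if 24 ∣ n - (-1) ∧ -1 ≤ n then
    c ^ n * algebraMap (ZMod 2) kk (coeff ((n - (-1)) / 24).toNat Pa) else 0) ∧
  (eO (c ^ 3) 3 ^ 2 / eO c 1).coeff n = (if 24 ∣ n - 5 ∧ 5 ≤ n then
    c ^ n * algebraMap (ZMod 2) kk (coeff ((n - 5) / 24).toNat Pb) else 0)

/-- FINB: the result for `f_3 ^ 2 / f_1` -/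
def S_FINB : Prop := C_SWAP → C_EIM → S_RING → S_DEL → S_INJ → S_EE → S_REL → S_GAB →
  ∀ (κ M r : ℕ), Odd M → ∃ n : ℕ, n ≡ r [MOD 2 ^ κ * M] ∧ coeff n Pb ≠ 0

/-- FINA: the result for `f_1 ^ 2 / f_3` -/
def S_FINA : Prop := C_SWAP → C_EIM → S_RING → S_DEL → S_INJ → S_EE → S_REL → S_GAB →
  ∀ (κ M r : ℕ), Odd M → ∃ n : ℕ, n ≡ r [MOD 2 ^ κ * M] ∧ coeff n Pa ≠ 0

/-- PA: partitions without parts `≡ 3 (mod 6)`, and without parts divisible by 6, modulo 2 -/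
def S_PART : Prop := (∀ m : ℕ,
    (((Finset.univ : Finset (Nat.Partition (4 * m))).filter
      fun p => ∀ i ∈ p.parts, i % 6 ≠ 3).card : ZMod 2) = coeff m Pa ∧
    (((Finset.univ : Finset (Nat.Partition (4 * m + 1))).filter
      fun p => ∀ i ∈ p.parts, i % 6 ≠ 3).card : ZMod 2) = coeff m Pb) ∧
  ∀ n : ℕ, (((Finset.univ : Finset (Nat.Partition n)).filter
      fun p => ∀ i ∈ p.parts, ¬ 6 ∣ i).card : ZMod 2) = coeff n Pb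

end Pool.Agent.R836.RD
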