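import Pool.Agent.R836.RD.Defs

set_option autoImplicit false

/-!
# The general case: `m`-regular partitions, `m = 2 ^ a * m₀`, `m₀` odd, `1 ≤ a`, `2 ^ a < m₀`

`f_m / f_1 = f_(m₀) ^ (2 ^ a) / f_1` modulo 2. At `p`: `e(p ^ m₀) ^ (2 ^ a) / e(p)`.
-/

namespace Pool.Agent.R836.RD

open PowerSeries Pool.Agent.TH693.QQ Pool.Agent.H397R2.PP Pool.Agent.H307R2.OP Pool.Agent.Y627.PT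
open Pool.Agent.TH693.PP (E P)

/-- `f_m / f_1` modulo 2, `m = 2 ^ a * m₀` -/
noncomputable def Pg (a m₀ : ℕ) (h : m₀ ≠ 0) : (ZMod 2)⟦X⟧ := (ex m₀ h E) ^ 2 ^ a * P

/-- EIMG -/
def S_EIMG : Prop := S_EE → C_PATH → C_STEP → S_CUB → S_UN → S_DEL → S_INJ →
  ∀ (κ M m₀ : ℕ), Odd M → m₀ ∣ M → ∀ ρ : OB ≃ₐ[kk] OB, Comp κ ρ 1 (3 * M) 1 (3 * M) →
  ∀ c : kk, c ^ (3 * M) = 1 → ∃ (c1 c2 : kk) (i1 i2 s : ℕ), c1 ≠ 0 ∧ c2 ≠ 0 ∧ s ∣ M ∧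
    i1 * s ^ 2 = M * M ∧ i1 ≤ m₀ * i2 ∧ (s = 1 → c1 ^ 3 = 1 ∧ m₀ * i2 = i1) ∧
    CompO κ ρ (eO c 1) (eO c1 i1) ∧ CompO κ ρ (eO (c ^ m₀) m₀) (eO c2 i2) ∧
    Comp κ ρ (c ^ 3) 3 (c1 ^ 3) (3 * i1)

/-- the conclusion of EIMG -/
def C_EIMG : Prop :=
  ∀ (κ M m₀ : ℕ), Odd M → m₀ ∣ M → ∀ ρ : OB ≃ₐ[kk] OB, Comp κ ρ 1 (3 * M) 1 (3 * M) →
  ∀ c : kk, c ^ (3 * M) = 1 → ∃ (c1 c2 : kk) (i1 i2 s : ℕ), c1 ≠ 0 ∧ c2 ≠ 0 ∧ s ∣ M ∧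
    i1 * s ^ 2 = M * M ∧ i1 ≤ m₀ * i2 ∧ (s = 1 → c1 ^ 3 = 1 ∧ m₀ * i2 = i1) ∧
    CompO κ ρ (eO c 1) (eO c1 i1) ∧ CompO κ ρ (eO (c ^ m₀) m₀) (eO c2 i2) ∧
    Comp κ ρ (c ^ 3) 3 (c1 ^ 3) (3 * i1)

/-- GABG -/
def S_GABG : Prop := ∀ (a m₀ : ℕ) (h : m₀ ≠ 0) (c : kk), c ≠ 0 → ∀ n : ℤ,
  (eO (c ^ m₀) m₀ ^ 2 ^ a / eO c 1).coeff n =
    (if 24 ∣ n - (2 ^ a * m₀ - 1 : ℤ) ∧ (2 ^ a * m₀ - 1 : ℤ) ≤ n then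
    c ^ n * algebraMap (ZMod 2) kk (coeff ((n - (2 ^ a * m₀ - 1 : ℤ)) / 24).toNat (Pg a m₀ h)) else 0)

/-- FING -/
def S_FING : Prop := C_SWAP → C_EIMG → S_RING → S_DEL → S_INJ → S_REL → S_GABG →
  ∀ (a m₀ : ℕ) (h : m₀ ≠ 0), 1 ≤ a → Odd m₀ → 2 ^ a < m₀ →
  ∀ (κ M r : ℕ), Odd M → ∃ n : ℕ, n ≡ r [MOD 2 ^ κ * M] ∧ coeff n (Pg a m₀ h) ≠ 0

/-- PARTG: regular partitions modulo 2 -/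
def S_PARTG : Prop := ∀ (a m₀ : ℕ) (h : m₀ ≠ 0) (n : ℕ),
  (((Finset.univ : Finset (Nat.Partition n)).filter
      fun p => ∀ i ∈ p.parts, ¬ (2 ^ a * m₀) ∣ i).card : ZMod 2) = coeff n (Pg a m₀ h)

end Pool.Agent.R836.RD
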