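import Pool.Agent.R836.RD.Defs

set_option autoImplicit false

/-!
# EE: identities for `e = X ∏ (1 - X ^ (24 n))` modulo 2
-/

namespace Pool.Agent.R836.RD

open PowerSeries Pool.Agent.H397R2.PP Pool.Agent.Y627.PT
open Pool.Agent.TH693.PP (E P S P_mul_E)


/-- squares of numbers coprime to 6 -/
def isCop (n : ℕ) : Prop := ∃ m : ℕ, n = m ^ 2 ∧ m % 2 = 1 ∧ m % 3 ≠ 0

theorem ee_ex_X (e : ℕ) (he : e ≠ 0) : ex e he (X : S) = X ^ e := by
  unfold ex
  exact PowerSeries.expand_X e he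

theorem ee_pow8 (f : S) : f ^ 8 = ex 8 (by norm_num) f :=
  pow_eq_expand' 8 3 (by norm_num) (by norm_num) f

theorem ee1 : Ee ^ 3 = ex 3 (by norm_num) Db := by
  have h0 : Db = X * E ^ 24 := rfl
  have h1 : (ex 3 (by norm_num) E) ^ 8 = ex 24 (by norm_num) E := by
    rw [ee_pow8, ex_ex 8 3 24 (by norm_num) (by norm_num) (by norm_num) (by norm_num)]
  rw [h0, Ee, map_mul, map_pow, ee_ex_X, ← h1]
  ring

theorem ee_E_ind : E = TH.ind TH.isPent := TH.pent_eq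

theorem ee_Ee_ind : Ee = TH.ind isCop := by
  classical
  rw [Ee, ee_E_ind]
  unfold ex
  rw [TH.expand_ind]
  ext n
  rcases n with _ | n
  · rw [coeff_zero_X_mul, TH.coeff_ind, if_neg]
    rintro ⟨m, hm, h2, h3⟩
    have : 0 < m := by omega
    have : 0 < m ^ 2 := by positivity
    omega
  · rw [coeff_succ_X_mul, TH.coeff_ind, TH.coeff_ind]
    congr 1
    apply propext
    constructor
    · rintro ⟨k, hk, j, hj⟩
      have h4 := TH.pent_sq j
      have h5 : ((6 * j - 1).natAbs ^ 2 : ℕ) = 24 * pentagonal j + 1 := by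
        have : (((6 * j - 1).natAbs ^ 2 : ℕ) : ℤ) = ((24 * pentagonal j + 1 : ℕ) : ℤ) := by
          push_cast
          rw [sq_abs, ← h4]
        exact_mod_cast this
      exact ⟨(6 * j - 1).natAbs, by rw [h5, hk, hj], by omega, by omega⟩
    · rintro ⟨m, hm, h2, h3⟩
      obtain ⟨j, hj⟩ := TH.cop_sq h2 h3
      exact ⟨pentagonal j, by omega, j, rfl⟩

theorem ee2 : Ee = Db + ex 9 (by norm_num) Db := by
  classical
  rw [ee_Ee_ind, TH.Db_ind]
  unfold ex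
  rw [TH.expand_ind]
  ext n
  rw [map_add, TH.coeff_ind, TH.coeff_ind, TH.coeff_ind]
  have h9 : (∃ k, n = 9 * k ∧ TH.isOdd k) ↔ ∃ m : ℕ, n = m ^ 2 ∧ m % 2 = 1 ∧ m % 3 = 0 := by
    constructor
    · rintro ⟨k, hk, i, hi⟩
      exact ⟨3 * (2 * i + 1), by rw [hk, hi]; ring, by omega, by omega⟩
    · rintro ⟨m, hm, h2, h3⟩
      obtain ⟨i, rfl⟩ : ∃ i, m = 3 * (2 * i + 1) := ⟨m / 6, by omega⟩
      exact ⟨(2 * i + 1) ^ 2, by rw [hm]; ring, i, rfl⟩
  have h1 : TH.isOdd n ↔ ∃ m : ℕ, n = m ^ 2 ∧ m % 2 = 1 := by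
    constructor
    · rintro ⟨i, hi⟩
      exact ⟨2 * i + 1, hi, by omega⟩
    · rintro ⟨m, hm, h2⟩
      obtain ⟨i, rfl⟩ : ∃ i, m = 2 * i + 1 := ⟨m / 2, by omega⟩
      exact ⟨i, hm⟩
  simp only [h9, h1]
  have inj : ∀ a b : ℕ, a ^ 2 = b ^ 2 → a = b := fun a b h =>
    Nat.pow_left_injective (n := 2) (by norm_num) h
  by_cases hn : ∃ m : ℕ, n = m ^ 2 ∧ m % 2 = 1
  · obtain ⟨m, hm, h2⟩ := hn
    rw [if_pos (show ∃ m : ℕ, n = m ^ 2 ∧ m % 2 = 1 from ⟨m, hm, h2⟩)]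
    by_cases h3 : m % 3 = 0
    · rw [if_pos (show ∃ m : ℕ, n = m ^ 2 ∧ m % 2 = 1 ∧ m % 3 = 0 from ⟨m, hm, h2, h3⟩), if_neg]
      · decide
      · rintro ⟨m', hm', h2', h3'⟩
        have : m = m' := inj _ _ (hm.symm.trans hm')
        subst this
        exact h3' h3
    · rw [if_pos (show isCop n from ⟨m, hm, h2, h3⟩), if_neg, add_zero]
      rintro ⟨m', hm', h2', h3'⟩
      have : m = m' := inj _ _ (hm.symm.trans hm')
      subst this
      exact h3 h3'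
  · rw [if_neg hn, if_neg, if_neg, add_zero]
    · rintro ⟨m, hm, h2, h3⟩
      exact hn ⟨m, hm, h2⟩
    · rintro ⟨m, hm, h2, h3⟩
      exact hn ⟨m, hm, h2⟩

theorem ee_PE (e : ℕ) (he : e ≠ 0) : ex e he P * ex e he E = 1 := by
  rw [← map_mul, P_mul_E, map_one]

theorem ee3 : ex 24 (by norm_num) Pa * ex 3 (by norm_num) Ee = X * Ee ^ 2 := by
  rw [Pa, Ee]
  simp only [map_mul, map_pow]
  rw [ex_ex 24 3 72 (by norm_num) (by norm_num) (by norm_num) (by norm_num),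
    ex_ex 3 24 72 (by norm_num) (by norm_num) (by norm_num) (by norm_num), ee_ex_X]
  linear_combination (X ^ 3 * ex 24 (by norm_num) E ^ 2) * ee_PE 72 (by norm_num)

theorem ee4 : X ^ 5 * ex 24 (by norm_num) Pb * Ee = (ex 3 (by norm_num) Ee) ^ 2 := by
  rw [Pb, Ee]
  simp only [map_mul, map_pow]
  rw [ex_ex 24 3 72 (by norm_num) (by norm_num) (by norm_num) (by norm_num),
    ex_ex 3 24 72 (by norm_num) (by norm_num) (by norm_num) (by norm_num), ee_ex_X]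
  linear_combination (X ^ 6 * ex 72 (by norm_num) E ^ 2) * ee_PE 24 (by norm_num)

theorem ee5 (n : ℕ) (h : coeff n Ee ≠ 0) : n % 24 = 1 := by
  rcases n with _ | n
  · exfalso
    apply h
    rw [Ee, coeff_zero_X_mul]
  · rw [Ee, coeff_succ_X_mul] at h
    unfold ex at h
    rw [coeff_expand] at h
    by_cases hd : 24 ∣ n
    · omega
    · rw [if_neg hd] at h
      exact absurd rfl h

theorem ee : S_EE := ⟨ee1, ee2, ee3, ee4, ee5⟩

end Pool.Agent.R836.RD
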