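import Pool.Agent.R836.RD.Defs

set_option autoImplicit false

/-!
# Images of the values of `e` (piece EIM)
-/

namespace Pool.Agent.R836.RD

open PowerSeries Pool.Agent.TH693.QQ Pool.Agent.H397R2.PP Pool.Agent.H307R2.OP Pool.Agent.Y627.PT
open Pool.Agent.TH693.PP (E P)

theorem eim_coeff_pt (c : kk) (j : ℕ) (hj : j ≠ 0) (f : (ZMod 2)⟦X⟧) (n : ℕ) :
    coeff n (pt c j (ik f)) =
      if j ∣ n then c ^ (n / j) * algebraMap (ZMod 2) kk (coeff (n / j) f) else 0 := by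
  unfold pt
  rw [dif_pos hj]
  change coeff n (PowerSeries.expand j hj (PowerSeries.rescale c (ik f))) = _
  rw [PowerSeries.coeff_expand]
  by_cases h : j ∣ n
  · rw [if_pos h, if_pos h, coeff_rescale]
    unfold ik
    rw [coeff_map]
  · rw [if_neg h, if_neg h]

theorem eim_pt_ex (c : kk) (j l : ℕ) (hj : j ≠ 0) (hl : l ≠ 0) (f : (ZMod 2)⟦X⟧) :
    pt c j (ik (ex l hl f)) = pt (c ^ l) (l * j) (ik f) := by
  ext n
  rw [eim_coeff_pt c j hj, eim_coeff_pt (c ^ l) (l * j) (Nat.mul_ne_zero hl hj)]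
  unfold ex
  by_cases h : j ∣ n
  · obtain ⟨k, rfl⟩ := h
    rw [if_pos (Dvd.intro k rfl), Nat.mul_div_cancel_left k (Nat.pos_of_ne_zero hj),
      PowerSeries.coeff_expand]
    by_cases h2 : l ∣ k
    · obtain ⟨q, rfl⟩ := h2
      have h5 : j * (l * q) = l * j * q := by ring
      rw [h5, if_pos (Dvd.intro q rfl), if_pos (Dvd.intro q rfl),
        Nat.mul_div_cancel_left q (Nat.pos_of_ne_zero hl),
        Nat.mul_div_cancel_left q (Nat.pos_of_ne_zero (Nat.mul_ne_zero hl hj)), ← pow_mul]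
    · rw [if_neg h2, if_neg, map_zero, mul_zero]
      rintro ⟨q, hq⟩
      apply h2
      refine ⟨q, ?_⟩
      have : j * k = j * (l * q) := by rw [hq]; ring
      exact Nat.eq_of_mul_eq_mul_left (Nat.pos_of_ne_zero hj) this
  · rw [if_neg h, if_neg]
    rintro ⟨q, hq⟩
    exact h ⟨l * q, by rw [hq]; ring⟩

theorem eim_cube (h : Ee ^ 3 = ex 3 (by norm_num) Db) (c : kk) (j : ℕ) (hj : j ≠ 0) :
    eO c j ^ 3 = dO (c ^ 3) (3 * j) := by
  unfold eO dO ev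
  rw [← map_pow, h]
  change HahnSeries.ofPowerSeries ℤ kk (pt c j (ik (ex 3 (by norm_num) Db))) =
    HahnSeries.ofPowerSeries ℤ kk (pt (c ^ 3) (3 * j) (ik Db))
  rw [eim_pt_ex c j 3 hj (by norm_num)]

theorem eim_dO_ne (c : kk) (j : ℕ) (hc : c ≠ 0) (hj : j ≠ 0) : dO c j ≠ 0 := by
  unfold dO ev
  change HahnSeries.ofPowerSeries ℤ kk (pt c j (ik Db)) ≠ 0
  intro h
  have h1 : pt c j (ik Db) = 0 := by
    apply HahnSeries.ofPowerSeries_injective (Γ := ℤ) (R := kk)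
    rw [h, map_zero]
  have h2 := congrArg (coeff j) h1
  rw [eim_coeff_pt c j hj, if_pos (dvd_refl j), Nat.div_self (Nat.pos_of_ne_zero hj),
    T3.coeff_one_Db, map_one, map_zero, pow_one, mul_one] at h2
  exact hc h2

theorem eim_omega (h : ∀ n : ℕ, coeff n Ee ≠ 0 → n % 24 = 1) (ω c : kk) (j : ℕ) (hj : j ≠ 0)
    (hω : ω ^ 3 = 1) : eO (ω * c) j = HahnSeries.C ω * eO c j := by
  unfold eO ev
  change HahnSeries.ofPowerSeries ℤ kk (pt (ω * c) j (ik Ee)) =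
    HahnSeries.C ω * HahnSeries.ofPowerSeries ℤ kk (pt c j (ik Ee))
  rw [← HahnSeries.ofPowerSeries_C, ← map_mul]
  congr 1
  ext n
  rw [coeff_C_mul, eim_coeff_pt _ j hj, eim_coeff_pt _ j hj]
  by_cases hd : j ∣ n
  · rw [if_pos hd, if_pos hd]
    by_cases h0 : coeff (n / j) Ee = 0
    · rw [h0, map_zero, mul_zero, mul_zero, mul_zero]
    · have h1 := h _ h0
      have h2 : ω ^ (n / j) = ω := by
        have h3 : n / j = 3 * (8 * (n / j / 24)) + 1 := by omega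
        rw [h3, pow_add, pow_mul, hω, one_pow, one_mul, pow_one]
      rw [mul_pow, h2]
      ring
  · rw [if_neg hd, if_neg hd, mul_zero]

theorem eim_prO_C (κ : ℕ) (γ : ZMod (2 ^ κ)) (ω : kk) (f : Om) :
    prO κ γ (HahnSeries.C ω * f) = HahnSeries.C ω * prO κ γ f := by
  ext n
  rw [HahnSeries.C_mul_eq_smul, HahnSeries.C_mul_eq_smul]
  change (if (n : ZMod (2 ^ κ)) = γ then (ω • f).coeff n else 0) =
    ω • (if (n : ZMod (2 ^ κ)) = γ then f.coeff n else 0)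
  by_cases h : (n : ZMod (2 ^ κ)) = γ
  · rw [if_pos h, if_pos h]
    rfl
  · rw [if_neg h, if_neg h, smul_zero]

theorem eim_io'_inj : Function.Injective io' := (algebraMap Om OB).injective

theorem eim_prO_ext (κ : ℕ) (f g : Om) (h : ∀ γ : ZMod (2 ^ κ), prO κ γ f = prO κ γ g) :
    f = g := by
  ext n
  have h1 := congrArg (fun x : Om => x.coeff n) (h (n : ZMod (2 ^ κ)))
  change (if (n : ZMod (2 ^ κ)) = (n : ZMod (2 ^ κ)) then f.coeff n else 0) =
    (if (n : ZMod (2 ^ κ)) = (n : ZMod (2 ^ κ)) then g.coeff n else 0) at h1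
  rwa [if_pos rfl, if_pos rfl] at h1

theorem eim_uniq (hinj : S_INJ) (κ : ℕ) (ρ : OB ≃ₐ[kk] OB) (a b b' : kk) (j m m' : ℕ)
    (hb : b ≠ 0) (hb' : b' ≠ 0) (hm : 0 < m) (hm' : 0 < m')
    (h1 : Comp κ ρ a j b m) (h2 : Comp κ ρ a j b' m') : b = b' ∧ m = m' := by
  apply hinj b b' m m' hb hb' hm hm'
  apply eim_prO_ext κ
  intro γ
  apply eim_io'_inj
  rw [← h1 γ, ← h2 γ]

theorem eim_main (hee : S_EE) (hcub : S_CUB) (hun : S_UN) (hdel : S_DEL) (κ : ℕ)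
    (ρ : OB ≃ₐ[kk] OB) (a c' : kk) (j i : ℕ) (hj : j ≠ 0) (hi : i ≠ 0) (hc' : c' ≠ 0)
    (hC : Comp κ ρ (a ^ 3) (3 * j) c' (3 * i)) :
    ∃ c1 : kk, c1 ≠ 0 ∧ c1 ^ 3 = c' ∧ CompO κ ρ (eO a j) (eO c1 i) := by
  obtain ⟨he3, -, -, -, hmod⟩ := hee
  obtain ⟨p, hp⟩ := IsAlgClosed.exists_pow_nat_eq c' (n := 3) (by norm_num)
  obtain ⟨Δ, hΔ, hres⟩ := hdel κ
  set R : Az κ →+* Az κ := AddMonoidAlgebra.mapRingHom (ZMod (2 ^ κ)) (ρ : OB →+* OB) with hR
  have hRc : ∀ (x : Az κ) (γ : ZMod (2 ^ κ)), (R x).coeff γ = ρ (x.coeff γ) := by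
    intro x γ
    rw [hR, AddMonoidAlgebra.coeff_mapRingHom]
    rfl
  have hcube : (R (Δ (eO a j))) ^ 3 = (Δ (eO p i)) ^ 3 := by
    rw [← map_pow, ← map_pow, ← map_pow, eim_cube he3 a j hj, eim_cube he3 p i hi, hp]
    ext γ
    rw [hRc, hΔ, hΔ]
    exact hC γ
  have hne : eO p i ≠ 0 := by
    intro h0
    have h1 := eim_cube he3 p i hi
    rw [h0, hp] at h1
    apply eim_dO_ne c' (3 * i) hc' (by omega)
    rw [← h1]
    simp
  have hres' : res κ (Δ (eO p i)) ≠ 0 := by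
    rw [hres]
    intro h0
    apply hne
    apply eim_io'_inj
    rw [h0, map_zero]
  obtain ⟨ω, hω, hX⟩ := hcub hun κ (R (Δ (eO a j))) (Δ (eO p i)) hres' hcube
  have hω0 : ω ≠ 0 := by
    intro h
    rw [h] at hω
    norm_num at hω
  have hp0 : p ≠ 0 := by
    intro h
    rw [h] at hp
    apply hc'
    rw [← hp]
    norm_num
  refine ⟨ω * p, mul_ne_zero hω0 hp0, by rw [mul_pow, hω, one_mul, hp], ?_⟩
  intro γ
  have h1 := congrArg (fun x : Az κ => x.coeff γ) hX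
  have h2 : (AddMonoidAlgebra.single 0 (io' (HahnSeries.C ω)) * Δ (eO p i) : Az κ).coeff γ =
      io' (HahnSeries.C ω) * (Δ (eO p i)).coeff γ := AddMonoidAlgebra.coeff_single_zero_mul _ _ _
  change (R (Δ (eO a j))).coeff γ =
    (AddMonoidAlgebra.single 0 (io' (HahnSeries.C ω)) * Δ (eO p i) : Az κ).coeff γ at h1
  rw [h2, hRc, hΔ, hΔ, ← map_mul, ← eim_prO_C, ← eim_omega hmod ω p i hi hω] at h1
  exact h1

theorem eim : S_EIM := by
  intro hee hpath hstep hcub hun hdel hinj κ M hM h3 ρ hbase c hc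
  have hM0 : M ≠ 0 := by
    rintro rfl
    exact absurd hM (by decide)
  obtain ⟨N, rfl⟩ := h3
  have hN0 : N ≠ 0 := by
    rintro rfl
    exact hM0 (by norm_num)
  have hc0 : c ≠ 0 := by
    rintro rfl
    rw [zero_pow (by omega)] at hc
    exact zero_ne_one hc
  have hdiv3 : 3 * N / 3 = N := by omega
  have hb1 : 3 * (3 * N) / (3 * N) = 3 := Nat.mul_div_cancel 3 (by omega)
  have hb2 : 3 * (3 * N) / N = 9 := by
    have : 3 * (3 * N) = 9 * N := by ring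
    rw [this]
    exact Nat.mul_div_cancel 9 (by omega)
  obtain ⟨c', s, m, hs, hs1, hc'0, hm, hC1⟩ := hpath κ (3 * N) hM ρ hbase (3 * N) (dvd_refl _)
    (c ^ 3) (by rw [← pow_mul]; exact hc)
  obtain ⟨c'', s', m', hs', hs1', hc''0, hm', hC2⟩ := hpath κ (3 * N) hM ρ hbase N
    (Dvd.intro_left 3 rfl) (c ^ 9) (by
      rw [← pow_mul]
      have : 9 * N = 3 * (3 * N) := by ring
      rw [this]; exact hc)
  rw [hb1] at hC1
  rw [hb2] at hC2
  obtain ⟨t, ht⟩ := hs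
  obtain ⟨t', ht'⟩ := hs'
  have hs0 : 0 < s := by
    rcases Nat.eq_zero_or_pos s with h | h
    · rw [h] at ht; omega
    · exact h
  have hs0' : 0 < s' := by
    rcases Nat.eq_zero_or_pos s' with h | h
    · rw [h] at ht'; omega
    · exact h
  have ht0 : 0 < t := by
    rcases Nat.eq_zero_or_pos t with h | h
    · rw [h] at ht; omega
    · exact h
  have ht0' : 0 < t' := by
    rcases Nat.eq_zero_or_pos t' with h | h
    · rw [h] at ht'; omega
    · exact h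
  have hm1 : m = 3 * (t ^ 2) := by
    have h1 : m * s ^ 2 = 3 * (t ^ 2) * s ^ 2 := by
      rw [hm, ht]; ring
    exact Nat.eq_of_mul_eq_mul_right (by positivity) h1
  have hm1' : m' = 3 * (3 * t' ^ 2) := by
    have h1 : m' * s' ^ 2 = 3 * (3 * t' ^ 2) * s' ^ 2 := by
      rw [hm', ht']; ring
    exact Nat.eq_of_mul_eq_mul_right (by positivity) h1
  -- the neighbour
  obtain ⟨d', m2, hNb, hC3⟩ := hstep κ ρ 3 (by norm_num) (by norm_num) (c ^ 3) c' 3 m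
    (pow_ne_zero 3 hc0) hc'0 (by norm_num) (by rw [hm1]; positivity) (dvd_refl 3)
    (by rw [hm1]; exact Dvd.intro _ rfl) hC1 (c ^ 9) 9 (Or.inl ⟨by rw [← pow_mul], by norm_num⟩)
  have hd'0 : d' ≠ 0 := by
    rcases hNb with ⟨h, -⟩ | ⟨h, -⟩
    · rw [h]; exact pow_ne_zero 3 hc'0
    · intro h0
      rw [h0] at h
      apply hc'0
      rw [← h]
      norm_num
  have hm2 : 0 < m2 := by
    rcases hNb with ⟨-, h⟩ | ⟨-, h⟩
    · rw [h, hm1]; positivity
    · rcases Nat.eq_zero_or_pos m2 with h0 | h0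
      · rw [h0, zero_mul, hm1] at h
        have : 0 < 3 * t ^ 2 := by positivity
        omega
      · exact h0
  obtain ⟨hd, hmm⟩ := eim_uniq hinj κ ρ (c ^ 9) c'' d' 9 m' m2 hc''0 hd'0
    (by rw [hm1']; positivity) hm2 hC2 hC3
  subst hd hmm
  obtain ⟨c1, hc1, hc1', hE1⟩ := eim_main hee hcub hun hdel κ ρ c c' 1 (t ^ 2) (by norm_num)
    (by positivity) hc'0 (by rw [← hm1]; exact hC1)
  obtain ⟨c2, hc2, hc2', hE2⟩ := eim_main hee hcub hun hdel κ ρ (c ^ 3) c'' 3 (3 * t' ^ 2)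
    (by norm_num) (by positivity) hc''0 (by rw [← hm1', ← pow_mul]; exact hC2)
  refine ⟨c1, c2, t ^ 2, 3 * t' ^ 2, s, s', hc1, hc2, ⟨t, ht⟩, ⟨t', by rw [hdiv3]; exact ht'⟩,
    ?_, ?_, ?_, ?_, ?_, hE1, hE2, ?_, ?_⟩
  · rw [ht]; ring
  · rw [ht']; ring
  · rcases hNb with ⟨-, h⟩ | ⟨-, h⟩
    · left
      rw [hm1, hm1'] at h
      omega
    · right
      rw [hm1, hm1'] at h
      omega
  · intro h; rw [hc1', hs1 h]
  · intro h; rw [hc2', hs1' h]
  · rw [hc1', ← hm1]; exact hC1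
  · rw [hc2', ← hm1']; exact hC2

end Pool.Agent.R836.RD
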