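import Pool.Agent.R836.RD.Defs2
import Pool.Agent.R836.RD.EIM

set_option autoImplicit false

/-!
# Images of the values of `e`, general case (piece EIMG)
-/

namespace Pool.Agent.R836.RD

open PowerSeries Pool.Agent.TH693.QQ Pool.Agent.H397R2.PP Pool.Agent.H307R2.OP Pool.Agent.Y627.PT
open Pool.Agent.TH693.PP (E P)

/-- the image of the vertex `(c ^ (3 e), 3 e)` -/
theorem eimg_path (hpath : C_PATH) (κ M : ℕ) (hM : Odd M) (ρ : OB ≃ₐ[kk] OB)
    (hbase : Comp κ ρ 1 (3 * M) 1 (3 * M)) (c : kk) (hc : c ^ (3 * M) = 1) (e : ℕ)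
    (he : e ∣ M) : ∃ (c' : kk) (s t m : ℕ), M = e * (s * t) ∧ 0 < s ∧ 0 < t ∧ 0 < e ∧
      (s = 1 → c' = 1) ∧ c' ≠ 0 ∧ m = 3 * (e * t ^ 2) ∧
      Comp κ ρ (c ^ (3 * e)) (3 * e) c' m := by
  have hM0 : M ≠ 0 := by
    rintro rfl
    exact absurd hM (by decide)
  obtain ⟨d, rfl⟩ := he
  have he0 : 0 < e := by
    rcases Nat.eq_zero_or_pos e with h | h
    · rw [h, zero_mul] at hM0
      exact absurd rfl hM0
    · exact h
  have hd0 : 0 < d := by
    rcases Nat.eq_zero_or_pos d with h | h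
    · rw [h, mul_zero] at hM0
      exact absurd rfl hM0
    · exact h
  obtain ⟨c', s, m, hs, hs1, hc'0, hm, hC1⟩ := hpath κ (e * d) hM ρ hbase d (Dvd.intro_left e rfl)
    (c ^ (3 * e)) (by
      rw [← pow_mul]
      have : 3 * e * d = 3 * (e * d) := by ring
      rw [this]
      exact hc)
  have h1 : 3 * (e * d) / d = 3 * e := by
    rw [← mul_assoc]
    exact Nat.mul_div_cancel _ hd0
  rw [h1] at hC1
  obtain ⟨t, rfl⟩ := hs
  have hs0 : 0 < s := by
    rcases Nat.eq_zero_or_pos s with h | h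
    · rw [h, zero_mul] at hd0
      exact absurd hd0 (lt_irrefl 0)
    · exact h
  have ht0 : 0 < t := by
    rcases Nat.eq_zero_or_pos t with h | h
    · rw [h, mul_zero] at hd0
      exact absurd hd0 (lt_irrefl 0)
    · exact h
  refine ⟨c', s, t, m, rfl, hs0, ht0, he0, hs1, hc'0, ?_, hC1⟩
  have h2 : m * s ^ 2 = 3 * (e * t ^ 2) * s ^ 2 := by
    rw [hm]
    ring
  exact Nat.eq_of_mul_eq_mul_right (by positivity) h2

theorem eimg_down (hpath : C_PATH) (hstep : C_STEP) (hinj : S_INJ) (κ M : ℕ) (hM : Odd M)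
    (ρ : OB ≃ₐ[kk] OB) (hbase : Comp κ ρ 1 (3 * M) 1 (3 * M)) (c : kk) (hc : c ^ (3 * M) = 1)
    (c' : kk) (m : ℕ) (hc' : c' ≠ 0) (hm : 0 < m) (hC : Comp κ ρ (c ^ 3) 3 c' m) :
    ∀ e : ℕ, e ∣ M → ∀ (ce : kk) (me : ℕ), ce ≠ 0 → 0 < me →
      Comp κ ρ (c ^ (3 * e)) (3 * e) ce me → m ≤ e * me := by
  have hM0 : M ≠ 0 := by
    rintro rfl
    exact absurd hM (by decide)
  have hc0 : c ≠ 0 := by
    rintro rfl
    rw [zero_pow (by omega)] at hc
    exact zero_ne_one hc
  intro e
  induction e using Nat.strong_induction_on with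
  | _ e ih =>
    intro he ce me hce hme hCe
    have he0 : 0 < e := by
      rcases Nat.eq_zero_or_pos e with h | h
      · rw [h] at he
        exact absurd (Nat.eq_zero_of_zero_dvd he) hM0
      · exact h
    rcases Nat.lt_or_ge 1 e with he1 | he1
    · -- a prime factor
      have hlp : (Nat.minFac e).Prime := Nat.minFac_prime (by omega)
      obtain ⟨e', he'⟩ := Nat.minFac_dvd e
      set l := Nat.minFac e with hl
      have he'0 : 0 < e' := by
        rcases Nat.eq_zero_or_pos e' with h | h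
        · rw [h, mul_zero] at he'
          omega
        · exact h
      have hlM : l ∣ M := (Dvd.intro e' he'.symm).trans he
      have hl2 : l ≠ 2 := by
        intro h
        rw [h] at hlM
        exact (Nat.not_even_iff_odd.2 hM) ((even_iff_two_dvd).2 hlM)
      obtain ⟨c'', s, t, m', hMe, hs0, ht0, -, -, hc''0, hm', hC2⟩ :=
        eimg_path hpath κ M hM ρ hbase c hc e he
      obtain ⟨hd, hmm⟩ := eim_uniq hinj κ ρ (c ^ (3 * e)) c'' ce (3 * e) m' me hc''0 hce
        (by rw [hm']; positivity) hme hC2 hCe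
      have hlme : l ∣ me := by
        rw [← hmm, hm']
        exact ((Dvd.intro e' he'.symm).mul_right _).mul_left _
      obtain ⟨d', m2, hNb, hC3⟩ := hstep κ ρ l hlp hl2 (c ^ (3 * e)) ce (3 * e) me
        (pow_ne_zero _ hc0) hce (by omega) hme ((Dvd.intro e' he'.symm).mul_left _) hlme hCe
        (c ^ (3 * e')) (3 * e') (Or.inr ⟨by
          rw [← pow_mul]
          congr 1
          rw [he']
          ring, by
          rw [he']
          ring⟩)
      have hlpos : 0 < l := hlp.pos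
      have hd'0 : d' ≠ 0 := by
        rcases hNb with ⟨h, -⟩ | ⟨h, -⟩
        · rw [h]
          exact pow_ne_zero _ hce
        · intro h0
          rw [h0, zero_pow hlp.ne_zero] at h
          exact hce h.symm
      have hm2 : 0 < m2 := by
        rcases hNb with ⟨-, h⟩ | ⟨-, h⟩
        · rw [h]
          positivity
        · rcases Nat.eq_zero_or_pos m2 with h0 | h0
          · rw [h0, zero_mul] at h
            omega
          · exact h0
      have hle : m2 ≤ l * me := by
        rcases hNb with ⟨-, h⟩ | ⟨-, h⟩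
        · rw [h, mul_comm]
        · calc m2 ≤ m2 * l := Nat.le_mul_of_pos_right _ hlpos
            _ = me := h
            _ ≤ l * me := Nat.le_mul_of_pos_left _ hlpos
      have hlt : e' < e := by
        rw [he']
        have := hlp.one_lt
        nlinarith
      have he'M : e' ∣ M := (Dvd.intro_left l he'.symm).trans he
      have h5 := ih e' hlt he'M d' m2 hd'0 hm2 hC3
      calc m ≤ e' * m2 := h5
        _ ≤ e' * (l * me) := Nat.mul_le_mul_left _ hle
        _ = e * me := by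
          conv_rhs => rw [he']
          ring
    · have h1 : e = 1 := by omega
      subst h1
      obtain ⟨-, hmm⟩ := eim_uniq hinj κ ρ (c ^ 3) c' ce 3 m me hc' hce hm hme hC hCe
      rw [one_mul, hmm]

/-- piece EIMG -/
theorem eimg : S_EIMG := by
  intro hee hpath hstep hcub hun hdel hinj κ M m₀ hM hm₀ ρ hbase c hc
  obtain ⟨c', s, t, m, hMs, hs0, ht0, -, hs1, hc'0, hm, hC1⟩ :=
    eimg_path hpath κ M hM ρ hbase c hc 1 (one_dvd M)
  obtain ⟨c'', s', t', m', hMs', hs0', ht0', hm₀0, -, hc''0, hm', hC2⟩ :=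
    eimg_path hpath κ M hM ρ hbase c hc m₀ hm₀
  rw [one_mul] at hMs
  rw [one_mul] at hm
  rw [mul_one] at hC1
  have hmpos : 0 < m := by
    rw [hm]
    positivity
  have hm'pos : 0 < m' := by
    rw [hm']
    positivity
  have hdown := eimg_down hpath hstep hinj κ M hM ρ hbase c hc c' m hc'0 hmpos hC1 m₀ hm₀ c'' m'
    hc''0 hm'pos hC2
  obtain ⟨c1, hc1, hc1', hE1⟩ := eim_main hee hcub hun hdel κ ρ c c' 1 (t ^ 2) (by norm_num)
    (by positivity) hc'0 (by rw [← hm]; exact hC1)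
  obtain ⟨c2, hc2, hc2', hE2⟩ := eim_main hee hcub hun hdel κ ρ (c ^ m₀) c'' m₀ (m₀ * t' ^ 2)
    (by omega) (by positivity) hc''0 (by
      rw [← hm', ← pow_mul, mul_comm m₀ 3]
      exact hC2)
  have hle : t ^ 2 ≤ m₀ * (m₀ * t' ^ 2) := by
    rw [hm, hm'] at hdown
    have h1 : m₀ * (3 * (m₀ * t' ^ 2)) = 3 * (m₀ * (m₀ * t' ^ 2)) := by ring
    rw [h1] at hdown
    omega
  refine ⟨c1, c2, t ^ 2, m₀ * t' ^ 2, s, hc1, hc2, ⟨t, hMs⟩, ?_, hle, ?_, hE1, hE2, ?_⟩
  · conv_rhs => rw [hMs]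
    ring
  · intro h
    refine ⟨by rw [hc1', hs1 h], le_antisymm ?_ hle⟩
    have h1 : t = m₀ * (s' * t') := by
      rw [h, one_mul] at hMs
      rw [← hMs]
      exact hMs'
    have h2 : m₀ * (m₀ * t' ^ 2) = (m₀ * t') ^ 2 := by ring
    rw [h2, h1]
    refine Nat.pow_le_pow_left (Nat.mul_le_mul_left _ ?_) 2
    exact Nat.le_mul_of_pos_left _ hs0'
  · rw [hc1', ← hm]
    exact hC1

end Pool.Agent.R836.RD
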