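import Pool.Agent.R836.RD.Defs

/-!
Project RD, piece EX0, by helper609: an automorphism over `kk(D(w^L))` that moves `D(w^(L l))`.
-/

set_option autoImplicit false

namespace Pool.Agent.R836.RD.EX0Aux

open Polynomial

variable {K Ω : Type*} [Field K] [Field Ω] [Algebra K Ω]

lemma exists_coprime_rep {x y : Ω} (hx : Transcendental K x)
    (hy : y ∈ IntermediateField.adjoin K {x}) :
    ∃ A B : K[X], IsCoprime A B ∧ B ≠ 0 ∧ y * aeval x B = aeval x A := by
  classical
  obtain ⟨r, s, hrs⟩ := (IntermediateField.mem_adjoin_simple_iff K y).1 hy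
  by_cases hs : s = 0
  · refine ⟨0, 1, isCoprime_one_right, one_ne_zero, ?_⟩
    rw [hrs, hs]
    simp
  · have hsx : aeval x s ≠ 0 := fun h => hs (transcendental_iff.1 hx s h)
    obtain ⟨A, hA⟩ := EuclideanDomain.gcd_dvd_left r s
    obtain ⟨B, hB⟩ := EuclideanDomain.gcd_dvd_right r s
    have hg : EuclideanDomain.gcd r s ≠ 0 := by
      intro h
      rw [h, zero_mul] at hB
      exact hs hB
    have hbez := EuclideanDomain.gcd_eq_gcd_ab r s
    generalize EuclideanDomain.gcd r s = g at *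
    generalize EuclideanDomain.gcdA r s = a at *
    generalize EuclideanDomain.gcdB r s = b at *
    have hB0 : B ≠ 0 := by
      intro h
      rw [h, mul_zero] at hB
      exact hs hB
    refine ⟨A, B, ⟨a, b, ?_⟩, hB0, ?_⟩
    · apply mul_left_cancel₀ hg
      rw [mul_one]
      calc g * (a * A + b * B) = (g * A) * a + (g * B) * b := by ring
        _ = g := by rw [← hA, ← hB, ← hbez]
    · rw [hrs, div_mul_eq_mul_div, div_eq_iff hsx, hA, hB, map_mul, map_mul]
      ring

lemma common_den {x : Ω} (hx : Transcendental K x) (c : ℕ → Ω)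
    (hc : ∀ j, c j ∈ IntermediateField.adjoin K {x}) (N : ℕ) :
    ∃ (E : K[X]) (Ej : ℕ → K[X]), E ≠ 0 ∧ ∀ j ∈ Finset.range N,
      c j * aeval x E = aeval x (Ej j) := by
  classical
  choose A B hcop hB hAB using fun j => exists_coprime_rep hx (hc j)
  refine ⟨∏ i ∈ Finset.range N, B i, fun j => A j * ∏ i ∈ (Finset.range N).erase j, B i,
    Finset.prod_ne_zero_iff.2 fun i _ => hB i, fun j hj => ?_⟩
  rw [← Finset.mul_prod_erase _ _ hj, map_mul, map_mul, ← mul_assoc, hAB]

theorem growth {x : Ω} (hx : Transcendental K x) (G : ℕ → K[X])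
    (hG : ∀ n, (G n).natDegree ≤ n) (l : ℕ) (y : Ω) (c : ℕ → Ω)
    (hy : y ∈ IntermediateField.adjoin K {x}) (hc : ∀ j, c j ∈ IntermediateField.adjoin K {x})
    (hne : ∑ j ∈ Finset.range (l + 1), c j * y ^ j ≠ 0)
    (hid : ∀ n, ∑ j ∈ Finset.range (l + 1), c j * aeval x (G (n + j)) =
      y ^ n * ∑ j ∈ Finset.range (l + 1), c j * y ^ j) :
    ∃ a b : K, y = algebraMap K Ω a * x + algebraMap K Ω b := by
  obtain ⟨A, B, hcop, hB, hAB⟩ := exists_coprime_rep hx hy
  obtain ⟨E, Ej, hE, hEj⟩ := common_den hx c hc (l + 1)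
  have inj : Function.Injective (aeval x : K[X] →ₐ[K] Ω) := transcendental_iff_injective.1 hx
  have hBx : aeval x B ≠ 0 := fun h => hB (transcendental_iff.1 hx B h)
  have hEx : aeval x E ≠ 0 := fun h => hE (transcendental_iff.1 hx E h)
  obtain ⟨Z, hZdef⟩ : ∃ Z : K[X], Z = ∑ j ∈ Finset.range (l + 1), Ej j * A ^ j * B ^ (l - j) :=
    ⟨_, rfl⟩
  have first : ∀ n, aeval x (A ^ n * Z) = (aeval x B) ^ (n + l) * aeval x E *
      (y ^ n * ∑ j ∈ Finset.range (l + 1), c j * y ^ j) := by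
    intro n
    rw [hZdef]
    simp only [map_mul, map_pow, map_sum]
    rw [Finset.mul_sum, Finset.mul_sum, Finset.mul_sum]
    refine Finset.sum_congr rfl fun j hj => ?_
    rw [← hEj j hj, ← hAB]
    have hj' : j ≤ l := Nat.lt_succ_iff.1 (Finset.mem_range.1 hj)
    have h : (aeval x B) ^ (n + l) = (aeval x B) ^ n * (aeval x B) ^ j *
        (aeval x B) ^ (l - j) := by
      rw [← pow_add, ← pow_add]
      congr 1
      omega
    rw [h]
    ring
  have key : ∀ n, A ^ n * Z = B ^ (n + l) * ∑ j ∈ Finset.range (l + 1), Ej j * G (n + j) := by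
    intro n
    apply inj
    rw [first, ← hid n]
    simp only [map_mul, map_pow, map_sum]
    rw [Finset.mul_sum, Finset.mul_sum]
    refine Finset.sum_congr rfl fun j hj => ?_
    rw [← hEj j hj]
    ring
  have hZ : Z ≠ 0 := by
    intro h
    have h0 := first 0
    rw [h, mul_zero, map_zero] at h0
    have := mul_ne_zero (mul_ne_zero (pow_ne_zero (0 + l) hBx) hEx)
      (mul_ne_zero (pow_ne_zero 0 (one_ne_zero (α := Ω))) hne)
    rw [pow_zero] at h0 this
    exact this h0.symm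
  have hB0 : B.natDegree = 0 := by
    by_contra hne0
    have hdvd : B ^ (Z.natDegree + 1 + l) ∣ Z := by
      have h1 : B ^ (Z.natDegree + 1 + l) ∣ A ^ (Z.natDegree + 1) * Z := ⟨_, key _⟩
      exact (hcop.symm.pow).dvd_of_dvd_mul_left h1
    have h2 := Polynomial.natDegree_le_of_dvd hdvd hZ
    rw [natDegree_pow] at h2
    have h3 : 1 ≤ B.natDegree := Nat.one_le_iff_ne_zero.2 hne0
    nlinarith
  have hA1 : A.natDegree ≤ 1 := by
    by_contra hA2
    push Not at hA2
    have hA0 : A ≠ 0 := by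
      rintro rfl
      simp at hA2
    obtain ⟨M, hM⟩ : ∃ M, ∀ j ∈ Finset.range (l + 1), (Ej j).natDegree ≤ M :=
      ⟨∑ j ∈ Finset.range (l + 1), (Ej j).natDegree, fun j hj =>
        Finset.single_le_sum (f := fun j => (Ej j).natDegree) (fun _ _ => Nat.zero_le _) hj⟩
    have h1 := congrArg natDegree (key (M + l + 1))
    rw [natDegree_mul (pow_ne_zero _ hA0) hZ, natDegree_pow] at h1
    have h2 : (B ^ (M + l + 1 + l) * ∑ j ∈ Finset.range (l + 1),
        Ej j * G (M + l + 1 + j)).natDegree ≤ 0 + (M + (M + l + 1 + l)) := by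
      refine natDegree_mul_le.trans (add_le_add ?_ ?_)
      · rw [natDegree_pow, hB0, mul_zero]
      · refine natDegree_sum_le_of_forall_le _ _ fun j hj => ?_
        refine natDegree_mul_le.trans (add_le_add (hM j hj) ((hG _).trans ?_))
        have := Finset.mem_range.1 hj
        omega
    nlinarith
  obtain ⟨b, hb⟩ : ∃ b : K, B = C b := ⟨_, eq_C_of_natDegree_eq_zero hB0⟩
  obtain ⟨a1, a0, ha⟩ := exists_eq_X_add_C_of_natDegree_le_one hA1
  have hb0 : b ≠ 0 := by
    rintro rfl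
    rw [map_zero] at hb
    exact hB hb
  refine ⟨a1 / b, a0 / b, ?_⟩
  have hbm : algebraMap K Ω b ≠ 0 := by
    rw [Ne, map_eq_zero]
    exact hb0
  rw [hb, ha] at hAB
  simp only [aeval_C, map_add, map_mul, aeval_X] at hAB
  rw [map_div₀, map_div₀]
  field_simp
  exact hAB

lemma mem_of_fixed {Ω : Type*} [Field Ω] [Algebra K Ω] [IsAlgClosed Ω]
    (F : IntermediateField K Ω) (m : ℕ) (y : Fin m → Ω) (hinj : Function.Injective y)
    (Q : Polynomial F) (hQ : Q.map (algebraMap F Ω) = ∏ i, (X - C (y i))) (i0 : Fin m)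
    (hroot : IsIntegral F (y i0) → ∀ β, aeval β (minpoly F (y i0)) = 0 → β = y i0) :
    y i0 ∈ F := by
  classical
  have hmon : Q.Monic := by
    refine monic_of_injective (algebraMap F Ω).injective ?_
    rw [hQ]
    exact monic_prod_of_monic _ _ fun i _ => monic_X_sub_C _
  have hev : aeval (y i0) Q = 0 := by
    rw [aeval_def, eval₂_eq_eval_map, hQ, eval_prod]
    refine Finset.prod_eq_zero (Finset.mem_univ i0) ?_
    simp
  have hint : IsIntegral F (y i0) := ⟨Q, hmon, by rwa [aeval_def] at hev⟩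
  have hQs : Q.Separable := by
    rw [← separable_map (algebraMap F Ω), hQ]
    exact separable_prod_X_sub_C_iff.2 hinj
  have hms : (minpoly F (y i0)).Separable := hQs.of_dvd (minpoly.dvd F _ hev)
  have hcard := card_rootSet_eq_natDegree (K := Ω) hms (IsAlgClosed.splits _)
  have hsub : Fintype.card ((minpoly F (y i0)).rootSet Ω) ≤ 1 := by
    rw [Fintype.card_le_one_iff_subsingleton]
    refine ⟨fun a b => Subtype.ext ?_⟩
    rw [hroot hint a.1 ((mem_rootSet.1 a.2).2), hroot hint b.1 ((mem_rootSet.1 b.2).2)]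
  have hdeg : (minpoly F (y i0)).natDegree = 1 := by
    have h1 := minpoly.natDegree_pos hint
    omega
  obtain ⟨z, hz⟩ := minpoly.natDegree_eq_one_iff.1 hdeg
  rw [← hz]
  exact z.2

/-- the power sum identity -/
lemma sum_identity {Ω : Type*} [Field Ω] (l : ℕ) (c : ℕ → Ω) (yi : Ω) (yv : Fin l → Ω)
    (hv : ∀ s, ∑ j ∈ Finset.range (l + 1), c j * yv s ^ j = 0) (n : ℕ) :
    ∑ j ∈ Finset.range (l + 1), c j * (yi ^ (n + j) + ∑ s, yv s ^ (n + j)) =
      yi ^ n * ∑ j ∈ Finset.range (l + 1), c j * yi ^ j := by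
  have h1 : ∀ j, c j * (yi ^ (n + j) + ∑ s, yv s ^ (n + j)) =
      yi ^ n * (c j * yi ^ j) + ∑ s, yv s ^ n * (c j * yv s ^ j) := by
    intro j
    rw [mul_add, Finset.mul_sum, pow_add]
    congr 1
    · ring
    · refine Finset.sum_congr rfl fun s _ => ?_
      rw [pow_add]
      ring
  rw [Finset.sum_congr rfl fun j _ => h1 j, Finset.sum_add_distrib, ← Finset.mul_sum,
    Finset.sum_comm]
  have h2 : ∑ s, ∑ j ∈ Finset.range (l + 1), yv s ^ n * (c j * yv s ^ j) = 0 := by
    refine Finset.sum_eq_zero fun s _ => ?_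
    rw [← Finset.mul_sum, hv s, mul_zero]
  rw [h2, add_zero]

/-! ### the Laurent series side -/

open PowerSeries in
lemma coeff_dO (j : ℕ) (hj : j ≠ 0) (n : ℕ) :
    (dO 1 j).coeff (n : ℤ) = if j ∣ n then
      algebraMap (ZMod 2) Pool.Agent.TH693.QQ.kk
        (PowerSeries.coeff (n / j) Pool.Agent.H397R2.PP.Db) else 0 := by
  unfold dO ev pt
  rw [dif_pos hj]
  show (HahnSeries.ofPowerSeries ℤ Pool.Agent.TH693.QQ.kk (PowerSeries.expand j hj
    (PowerSeries.rescale 1
    (Pool.Agent.TH693.QQ.ik Pool.Agent.H397R2.PP.Db)))).coeff (n : ℤ) = _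
  rw [HahnSeries.ofPowerSeries_apply_coeff, PowerSeries.coeff_expand]
  refine if_congr Iff.rfl ?_ rfl
  rw [PowerSeries.coeff_rescale, one_pow, one_mul]
  unfold Pool.Agent.TH693.QQ.ik
  rw [PowerSeries.coeff_map]

lemma coeff_one_Db : PowerSeries.coeff 1 Pool.Agent.H397R2.PP.Db = 1 := by
  rw [Pool.Agent.H397R2.PP.Db_eq_theta, PowerSeries.coeff_mk, if_pos ⟨0, by norm_num⟩]

lemma coeff_self (j : ℕ) (hj : j ≠ 0) : (dO 1 j).coeff (j : ℤ) = 1 := by
  rw [coeff_dO j hj, if_pos dvd_rfl, Nat.div_self (Nat.pos_of_ne_zero hj), coeff_one_Db, map_one]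

lemma algMap_Om (c : Pool.Agent.TH693.QQ.kk) :
    algebraMap Pool.Agent.TH693.QQ.kk Om c = HahnSeries.single 0 c := by
  rw [LaurentSeries.algebraMap_apply, HahnSeries.C_apply]

lemma coeff_const (c : Pool.Agent.TH693.QQ.kk) (n : ℤ) (hn : n ≠ 0) :
    (algebraMap Pool.Agent.TH693.QQ.kk Om c).coeff n = 0 := by
  rw [algMap_Om, HahnSeries.coeff_single_of_ne hn]

lemma algMap (c : Pool.Agent.TH693.QQ.kk) :
    algebraMap Pool.Agent.TH693.QQ.kk OB c = io' (algebraMap Pool.Agent.TH693.QQ.kk Om c) :=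
  IsScalarTower.algebraMap_apply Pool.Agent.TH693.QQ.kk Om OB c

lemma io_inj : Function.Injective io' := (algebraMap Om OB).injective

lemma trans_D (L : ℕ) (hL : L ≠ 0) : Transcendental Pool.Agent.TH693.QQ.kk (dB 1 L) := by
  intro h
  have hint : IsIntegral Pool.Agent.TH693.QQ.kk (dB 1 L) := isAlgebraic_iff_isIntegral.1 h
  have hdeg : (minpoly Pool.Agent.TH693.QQ.kk (dB 1 L)).degree = 1 :=
    IsAlgClosed.degree_eq_one_of_irreducible _ (minpoly.irreducible hint)
  obtain ⟨c, hc⟩ := minpoly.mem_range_of_degree_eq_one _ _ hdeg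
  have h1 : algebraMap Pool.Agent.TH693.QQ.kk Om c = dO 1 L := by
    apply io_inj
    rw [← algMap]
    exact hc
  have h2 := coeff_self L hL
  rw [← h1, coeff_const c _ (by exact_mod_cast hL)] at h2
  exact one_ne_zero h2.symm

end Pool.Agent.R836.RD.EX0Aux

namespace Pool.Agent.R836.RD

open Polynomial Pool.Agent.TH693.QQ Pool.Agent.H397R2.PP EX0Aux

theorem ex0 : S_EX0 := by
  intro hAUT hSYM hINJ hHK L l hL hl hl2 hdvd
  by_contra hcon
  push Not at hcon
  have hl3 : 3 ≤ l := by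
    have := hl.two_le
    omega
  obtain ⟨i, hi⟩ := hdvd
  have hi0 : 0 < i := by
    rcases Nat.eq_zero_or_pos i with h | h
    · rw [h, mul_zero] at hi
      omega
    · exact h
  have hodd : Odd l := hl.odd_of_ne_two hl2
  have : NeZero (l : kk) := ⟨by
    obtain ⟨t, ht⟩ := hodd
    rw [ht]
    have h2 : ((2 : ℕ) : kk) = 0 := CharP.cast_eq_zero kk 2
    push_cast
    push_cast at h2
    rw [h2, zero_mul, zero_add]
    exact one_ne_zero⟩
  have : NeZero l := ⟨hl.ne_zero⟩
  obtain ⟨ζ, hζ⟩ : ∃ ζ : kk, IsPrimitiveRoot ζ l := HasEnoughRootsOfUnity.exists_primitiveRoot kk l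
  have hζ0 : ζ ≠ 0 := hζ.ne_zero hl.ne_zero
  obtain ⟨yv, hyv⟩ : ∃ yv : Fin l → OB, yv = fun s : Fin l => dB (ζ ^ (s : ℕ)) i := ⟨_, rfl⟩
  obtain ⟨yi, hyi⟩ : ∃ yi : OB, yi = dB 1 (L * l) := ⟨_, rfl⟩
  obtain ⟨D0, hD0⟩ : ∃ D0 : OB, D0 = dB 1 L := ⟨_, rfl⟩
  choose G hGdeg hG using hHK l hl hl2
  obtain ⟨G', hG'⟩ : ∃ G' : ℕ → Polynomial kk, G' = fun n => (G n).map (algebraMap (ZMod 2) kk) :=
    ⟨_, rfl⟩
  have hG'deg : ∀ n, (G' n).natDegree ≤ n := by
    intro n
    rw [hG']
    exact natDegree_map_le.trans (hGdeg n)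
  have hsum : ∀ n, yi ^ n + ∑ s : Fin l, yv s ^ n = aeval D0 (G' n) := by
    intro n
    have h := hG n ζ 1 i hζ one_ne_zero hi0
    simp only [one_pow, one_mul] at h
    have e1 : i * l = L := by rw [hi, mul_comm]
    rw [e1] at h
    have h2 := congrArg io' h
    rw [map_add, map_pow, map_sum] at h2
    have e2 : yi = io' (dO 1 (L * l)) := hyi
    have e3 : ∑ s : Fin l, yv s ^ n = ∑ s ∈ Finset.range l, io' (dO (ζ ^ s) i ^ n) := by
      rw [Finset.sum_range]
      refine Finset.sum_congr rfl fun s _ => ?_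
      rw [hyv, map_pow]
      rfl
    rw [e2, e3, h2, hG']
    have e4 : (aeval D0) ((G n).map (algebraMap (ZMod 2) kk)) =
        eval₂ ((algebraMap kk OB).comp (algebraMap (ZMod 2) kk)) D0 (G n) := by
      rw [aeval_def, eval₂_map]
    have e5 : io' (ev 1 L ((aeval Db) (G n))) =
        eval₂ ((io'.comp (ev 1 L)).comp (algebraMap (ZMod 2) (PowerSeries (ZMod 2)))) D0 (G n) := by
      rw [aeval_def, hD0]
      exact hom_eval₂ (G n) (algebraMap (ZMod 2) (PowerSeries (ZMod 2))) (io'.comp (ev 1 L)) Db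
    rw [e5, e4]
    congr 1
    exact Subsingleton.elim _ _
  -- distinctness
  have hyvinj : Function.Injective yv := by
    intro s s' hss
    rw [hyv] at hss
    have h1 := io_inj hss
    have h2 := (hINJ _ _ _ _ (pow_ne_zero _ hζ0) (pow_ne_zero _ hζ0) hi0 hi0 h1).1
    exact Fin.ext (hζ.pow_inj s.2 s'.2 h2)
  have hne : ∀ s, yi ≠ yv s := by
    intro s h
    rw [hyi, hyv] at h
    have h1 := io_inj h
    have h2 := (hINJ _ _ _ _ one_ne_zero (pow_ne_zero _ hζ0) (Nat.mul_pos hL hl.pos) hi0 h1).2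
    rw [hi] at h2
    have h3 : i * (l * l) = i * 1 := by
      rw [mul_one]
      calc i * (l * l) = l * i * l := by ring
        _ = i := h2
    have h4 := Nat.eq_of_mul_eq_mul_left hi0 h3
    nlinarith
  -- the field
  obtain ⟨F, hF⟩ : ∃ F : IntermediateField kk OB, F = IntermediateField.adjoin kk {D0} := ⟨_, rfl⟩
  have hDF : D0 ∈ F := by
    rw [hF]
    exact IntermediateField.mem_adjoin_simple_self kk D0
  have hGF : ∀ p : Polynomial kk, aeval D0 p ∈ F := by
    intro p
    rw [hF]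
    exact IntermediateField.algebra_adjoin_le_adjoin kk _
      (by rw [Algebra.adjoin_singleton_eq_range_aeval]; exact ⟨p, rfl⟩)
  -- `yi ∈ F`
  have hyiF : yi ∈ F := by
    have hinj : Function.Injective (Fin.cons yi yv : Fin (l + 1) → OB) :=
      Fin.cons_injective_iff.2 ⟨fun ⟨s, hs⟩ => hne s hs.symm, hyvinj⟩
    obtain ⟨Q, hQ⟩ := hSYM F (l + 1) (Fin.cons yi yv) hinj (by
      intro n
      rw [Fin.sum_univ_succ]
      simp only [Fin.cons_zero, Fin.cons_succ]
      rw [hsum n]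
      exact hGF _)
    have h := mem_of_fixed F (l + 1) (Fin.cons yi yv) hinj Q hQ 0 (by
      intro hint β hβ
      obtain ⟨ρ, hρ1, hρ2⟩ := hAUT F _ β hint hβ
      rw [← hρ2]
      simp only [Fin.cons_zero]
      rw [hyi]
      refine hcon ρ ?_
      rw [← hD0]
      exact hρ1 _ hDF)
    simpa using h
  -- the polynomial of the `yv s`
  obtain ⟨Q, hQ⟩ := hSYM F l yv hyvinj (by
    intro n
    have h := hsum n
    have h2 : ∑ s : Fin l, yv s ^ n = aeval D0 (G' n) - yi ^ n := by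
      rw [← h]
      ring
    rw [h2]
    exact F.sub_mem (hGF _) (pow_mem hyiF n))
  obtain ⟨c, hc⟩ : ∃ c : ℕ → OB, c = fun j => (algebraMap F OB) (Q.coeff j) := ⟨_, rfl⟩
  have hcF : ∀ j, c j ∈ F := by
    intro j
    rw [hc]
    exact (Q.coeff j).2
  have hQdeg : (Q.map (algebraMap F OB)).natDegree < l + 1 := by
    rw [hQ, natDegree_prod_of_monic _ _ fun i _ => monic_X_sub_C _]
    simp
  have hevc : ∀ z : OB, ∑ j ∈ Finset.range (l + 1), c j * z ^ j = ∏ s, (z - yv s) := by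
    intro z
    have h := eval_eq_sum_range' hQdeg z
    rw [hQ, eval_prod] at h
    simp only [eval_sub, eval_X, eval_C] at h
    rw [h]
    refine Finset.sum_congr rfl fun j _ => ?_
    rw [← hQ, coeff_map, hc]
  have hv : ∀ s, ∑ j ∈ Finset.range (l + 1), c j * yv s ^ j = 0 := by
    intro s
    rw [hevc]
    exact Finset.prod_eq_zero (Finset.mem_univ s) (sub_self _)
  have hnz : ∑ j ∈ Finset.range (l + 1), c j * yi ^ j ≠ 0 := by
    rw [hevc]
    exact Finset.prod_ne_zero_iff.2 fun s _ => sub_ne_zero.2 (hne s)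
  have htr : Transcendental kk D0 := by
    rw [hD0]
    exact trans_D L hL.ne'
  rw [hF] at hyiF hcF
  obtain ⟨a, b, hab⟩ := growth htr G' hG'deg l yi c hyiF hcF hnz (by
    intro n
    rw [← sum_identity l c yi yv hv n]
    refine Finset.sum_congr rfl fun j _ => ?_
    rw [hsum])
  -- comparison of coefficients
  have hO : dO 1 (L * l) = algebraMap kk Om a * dO 1 L + algebraMap kk Om b := by
    apply io_inj
    rw [map_add, map_mul, ← algMap, ← algMap]
    rw [hyi, hD0] at hab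
    exact hab
  have hLl : L * l ≠ 0 := Nat.mul_ne_zero hL.ne' hl.ne_zero
  have hcoef : ∀ n : ℕ, n ≠ 0 → (dO 1 (L * l)).coeff (n : ℤ) = a * (dO 1 L).coeff (n : ℤ) := by
    intro n hn
    rw [hO, HahnSeries.coeff_add, coeff_const b _ (by exact_mod_cast hn), add_zero,
      algMap_Om, HahnSeries.coeff_single_zero_mul]
  have h1 := hcoef L hL.ne'
  rw [coeff_self L hL.ne', mul_one, coeff_dO _ hLl, if_neg (by
    intro h
    have := Nat.le_of_dvd hL h
    nlinarith)] at h1
  have h2 := hcoef (L * l) hLl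
  rw [coeff_self _ hLl, ← h1, zero_mul] at h2
  exact one_ne_zero h2

end Pool.Agent.R836.RD
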