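import Pool.Agent.R836.RD.Defs

set_option autoImplicit false

/-!
# Piece FINA: the final argument for `f_1 ^ 2 / f_3`
-/

namespace Pool.Agent.R836.RD

open PowerSeries Pool.Agent.TH693.QQ Pool.Agent.H397R2.PP Pool.Agent.H307R2.OP Pool.Agent.Y627.PT
open Pool.Agent.TH693.PP (E P)

namespace FINA

theorem pt_coeff (c : kk) {j : ℕ} (hj : j ≠ 0) (f : Sk) (n : ℕ) :
    coeff n (pt c j f) = if j ∣ n then c ^ (n / j) * coeff (n / j) f else 0 := by
  unfold pt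
  rw [dif_pos hj]
  show coeff n (PowerSeries.expand j hj (PowerSeries.rescale c f)) = _
  rw [PowerSeries.coeff_expand, PowerSeries.coeff_rescale]

theorem ik_coeff (f : (ZMod 2)⟦X⟧) (n : ℕ) :
    coeff n (ik f) = algebraMap (ZMod 2) kk (coeff n f) := by
  unfold ik
  rw [PowerSeries.coeff_map]

theorem ev_coeff (c : kk) {j : ℕ} (hj : j ≠ 0) (f : (ZMod 2)⟦X⟧) (n : ℕ) :
    (ev c j f).coeff (n : ℤ) =
      if j ∣ n then c ^ (n / j) * algebraMap (ZMod 2) kk (coeff (n / j) f) else 0 := by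
  show (HahnSeries.ofPowerSeries ℤ kk (pt c j (ik f))).coeff (n : ℤ) = _
  rw [HahnSeries.ofPowerSeries_apply_coeff, pt_coeff c hj, ik_coeff]

theorem ofps_neg (f : Sk) {n : ℤ} (hn : n < 0) :
    (HahnSeries.ofPowerSeries ℤ kk f).coeff n = 0 := by
  rw [HahnSeries.ofPowerSeries_apply]
  refine HahnSeries.embDomain_of_notMem_range ?_
  rintro ⟨m, hm⟩
  have : (m : ℤ) = n := hm
  omega

theorem Ee0 : coeff 0 Ee = 0 := by
  unfold Ee
  simp

theorem Ee1 : coeff 1 Ee = 1 := by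
  unfold Ee
  rw [show (1 : ℕ) = 0 + 1 from rfl, PowerSeries.coeff_succ_X_mul]
  unfold ex
  rw [PowerSeries.coeff_expand, if_pos (dvd_zero _), Nat.zero_div,
    PowerSeries.coeff_zero_eq_constantCoeff_apply]
  exact Pool.Agent.TH693.PP.constE

theorem lead (c : kk) (hc : c ≠ 0) {j : ℕ} (hj : 0 < j) :
    eO c j ≠ 0 ∧ (eO c j).order = j ∧ (eO c j).leadingCoeff = c := by
  have h1 : (eO c j).coeff (j : ℤ) = c := by
    unfold eO
    rw [ev_coeff c hj.ne', if_pos dvd_rfl, Nat.div_self hj, pow_one, Ee1, map_one, mul_one]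
  have h0 : ∀ n : ℤ, n < j → (eO c j).coeff n = 0 := by
    intro n hn
    rcases lt_or_ge n 0 with h | h
    · exact ofps_neg _ h
    · obtain ⟨m, rfl⟩ := Int.eq_ofNat_of_zero_le h
      have hmj : m < j := by exact_mod_cast hn
      unfold eO
      rw [ev_coeff c hj.ne', Nat.div_eq_of_lt hmj, Ee0, map_zero, mul_zero, ite_self]
  have hne : eO c j ≠ 0 := by
    intro h
    rw [h, HahnSeries.coeff_zero] at h1
    exact hc h1.symm
  have ho : (eO c j).order = j := by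
    refine le_antisymm (HahnSeries.order_le_of_coeff_ne_zero (by rw [h1]; exact hc)) ?_
    by_contra hcon
    push Not at hcon
    exact hne (HahnSeries.coeff_order_eq_zero.mp (h0 _ hcon))
  refine ⟨hne, ho, ?_⟩
  rw [HahnSeries.leadingCoeff_eq, ho, h1]

theorem quot (c1 c2 : kk) (h1 : c1 ≠ 0) (h2 : c2 ≠ 0) {i1 i2 : ℕ} (hi1 : 0 < i1) (hi2 : 0 < i2) :
    (∀ n : ℤ, n < 2 * i1 - i2 → (eO c1 i1 ^ 2 / eO c2 i2).coeff n = 0) ∧
    (eO c1 i1 ^ 2 / eO c2 i2).coeff (2 * (i1 : ℤ) - i2) = c1 ^ 2 / c2 := by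
  obtain ⟨x0, xo, xl⟩ := lead c1 h1 hi1
  obtain ⟨y0, yo, yl⟩ := lead c2 h2 hi2
  obtain ⟨G, hG⟩ : ∃ G : Om, G = eO c1 i1 ^ 2 / eO c2 i2 := ⟨_, rfl⟩
  rw [← hG]
  have hm : G * eO c2 i2 = eO c1 i1 * eO c1 i1 := by
    rw [hG, div_mul_cancel₀ _ y0, pow_two]
  have hG0 : G ≠ 0 := by
    intro h
    rw [h, zero_mul] at hm
    exact mul_ne_zero x0 x0 hm.symm
  have ho : G.order + (i2 : ℤ) = i1 + i1 := by
    have := congrArg HahnSeries.order hm
    rwa [HahnSeries.order_mul hG0 y0, HahnSeries.order_mul x0 x0, xo, yo] at this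
  have hl : G.leadingCoeff * c2 = c1 * c1 := by
    have := congrArg HahnSeries.leadingCoeff hm
    rwa [HahnSeries.leadingCoeff_mul, HahnSeries.leadingCoeff_mul, xl, yl] at this
  have ho' : G.order = 2 * (i1 : ℤ) - i2 := by linarith
  constructor
  · intro n hn
    exact HahnSeries.coeff_eq_zero_of_lt_order (by rw [ho']; exact hn)
  · rw [← ho', ← HahnSeries.leadingCoeff_eq, eq_div_iff h2, hl, pow_two]

theorem eO_mul (hE : ∀ n : ℕ, coeff n Ee ≠ 0 → n % 24 = 1) (u c : kk) (hu : u ^ 3 = 1) {j : ℕ}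
    (hj : j ≠ 0) : eO (u * c) j = HahnSeries.C u * eO c j := by
  show HahnSeries.ofPowerSeries ℤ kk (pt (u * c) j (ik Ee)) =
    HahnSeries.C u * HahnSeries.ofPowerSeries ℤ kk (pt c j (ik Ee))
  rw [← HahnSeries.ofPowerSeries_C, ← map_mul]
  congr 1
  ext n
  rw [pt_coeff _ hj, PowerSeries.coeff_C_mul, pt_coeff _ hj, ik_coeff]
  split_ifs with h
  · by_cases h0 : coeff (n / j) Ee = 0
    · rw [h0, map_zero, mul_zero, mul_zero, mul_zero]
    · have h1 := hE _ h0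
      have h2 : u ^ (n / j) = u := by
        have h3 : n / j = 3 * (8 * (n / j / 24)) + 1 := by omega
        rw [h3, pow_succ, pow_mul, hu, one_pow, one_mul]
      rw [mul_pow, h2]
      ring
  · rw [mul_zero]

theorem ev_ex (c : kk) {j e : ℕ} (hj : j ≠ 0) (he : e ≠ 0) (f : (ZMod 2)⟦X⟧) :
    ev c j (ex e he f) = ev (c ^ e) (e * j) f := by
  show HahnSeries.ofPowerSeries ℤ kk (pt c j (ik (ex e he f))) =
    HahnSeries.ofPowerSeries ℤ kk (pt (c ^ e) (e * j) (ik f))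
  congr 1
  ext n
  rw [pt_coeff _ hj, pt_coeff _ (mul_ne_zero he hj), ik_coeff, ik_coeff]
  unfold ex
  rw [PowerSeries.coeff_expand]
  have hj' : 0 < j := Nat.pos_of_ne_zero hj
  have he' : 0 < e := Nat.pos_of_ne_zero he
  by_cases h1 : j ∣ n
  · obtain ⟨k, rfl⟩ := h1
    rw [if_pos (dvd_mul_right _ _), Nat.mul_div_cancel_left k hj']
    by_cases h2 : e ∣ k
    · obtain ⟨l, rfl⟩ := h2
      have h3 : j * (e * l) = e * j * l := by ring
      rw [if_pos (dvd_mul_right _ _), Nat.mul_div_cancel_left l he', h3,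
        if_pos (dvd_mul_right _ _), Nat.mul_div_cancel_left l (by positivity), pow_mul]
    · rw [if_neg h2, map_zero, mul_zero, if_neg]
      rintro ⟨l, hl⟩
      apply h2
      refine ⟨l, ?_⟩
      have h4 : j * k = j * (e * l) := by rw [hl]; ring
      exact Nat.eq_of_mul_eq_mul_left hj' h4
  · rw [if_neg h1, if_neg]
    rintro ⟨l, hl⟩
    exact h1 ⟨e * l, by rw [hl]; ring⟩

theorem eO_eq (hE : Ee = Db + ex 9 (by norm_num) Db) (c : kk) {j : ℕ} (hj : j ≠ 0) :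
    eO c j = dO c j + dO (c ^ 9) (9 * j) := by
  unfold eO
  rw [hE, map_add, ev_ex c hj]
  rfl

theorem dO_tw (hE : S_EE) (u : kk) (hu : u ^ 3 = 1) {j : ℕ} (hj : j ≠ 0) :
    dO u j = (HahnSeries.C u - 1) * eO 1 j + dO 1 j := by
  have h1 := eO_mul hE.2.2.2.2 u 1 hu hj
  rw [mul_one] at h1
  have h2 := eO_eq hE.2.1 u hj
  have h3 := eO_eq hE.2.1 1 hj
  have h4 : u ^ 9 = 1 := by
    rw [show (9 : ℕ) = 3 * 3 from rfl, pow_mul, hu, one_pow]
  rw [h4] at h2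
  rw [one_pow] at h3
  linear_combination h1 - h2 + h3

theorem C_alg (x : kk) : (HahnSeries.C x : Om) = algebraMap kk Om x := by
  rw [HahnSeries.algebraMap_apply', PowerSeries.algebraMap_apply, HahnSeries.ofPowerSeries_C]
  rfl

theorem io_C (x : kk) : io' (HahnSeries.C x) = algebraMap kk OB x := by
  rw [IsScalarTower.algebraMap_apply kk Om OB]
  show algebraMap Om OB (HahnSeries.C x) = algebraMap Om OB (algebraMap kk Om x)
  rw [C_alg]

theorem rho_C (ρ : OB ≃ₐ[kk] OB) (x : kk) : ρ (io' (HahnSeries.C x)) = io' (HahnSeries.C x) := by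
  rw [io_C, AlgEquiv.commutes]

theorem io_inj : Function.Injective io' := (algebraMap Om OB).injective

theorem two_kk : (2 : kk) = 0 := by
  have : (2 : kk) = algebraMap (ZMod 2) kk 2 := (map_ofNat (algebraMap (ZMod 2) kk) 2).symm
  rw [this]
  have h : (2 : ZMod 2) = 0 := by decide
  rw [h, map_zero]

theorem two_Om : (2 : Om) = 0 := by
  have : (2 : Om) = HahnSeries.C (2 : kk) := by
    rw [map_ofNat]
  rw [this, two_kk, map_zero]

theorem main (hEIM : C_EIM) (hR : S_RING) (hDEL : S_DEL) (hI : S_INJ) (hE : S_EE)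
    (κ m : ℕ) (hm : Odd m) (ρ : OB ≃ₐ[kk] OB) (hb : Comp κ ρ 1 (3 * (3 * m)) 1 (3 * (3 * m)))
    (hs : Comp κ ρ 1 3 1 (3 * (3 * m) * (3 * m))) :
    ∃ v : kk, v ^ 3 = 1 ∧ ∀ c : kk, c ^ (3 * (3 * m)) = 1 → ∃ G : Om,
      CompO κ ρ (eO c 1 ^ 2 / eO (c ^ 3) 3) G ∧
      (G.coeff (-((m : ℤ) ^ 2)) ≠ 0 → c ^ 9 = 1 ∧ c ^ 3 ≠ 1) ∧
      (c ^ 9 = 1 → c ^ 3 ≠ 1 → ∃ c1 : kk, c1 ≠ 0 ∧ c1 ^ 3 = (c ^ 3) ^ 2 * v ∧
        G.coeff (-((m : ℤ) ^ 2)) = c1 ^ 2 / (c ^ 3 * v)) := by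
  have hm0 : 0 < m := hm.pos
  have hMo : Odd (3 * m) := (by decide : Odd 3).mul hm
  have h3M : 3 ∣ 3 * m := dvd_mul_right _ _
  -- values
  have hval : ∀ f g : Om, CompO κ ρ f g → ρ (io' f) = io' g := fun f g h =>
    (hR hDEL κ ρ f g f g h h).2.2.2
  have hvalD : ∀ (c c' : kk) (j j' : ℕ), Comp κ ρ c j c' j' → ρ (io' (dO c j)) = io' (dO c' j') :=
    fun c c' j j' h => hval _ _ h
  -- the base
  obtain ⟨a1, a2, k1, k2, s, s', ha1, ha2, hs1, hs2, hk1, hk2, hor, hsa, hsb, hC1, hC2, hC3, hC4⟩ :=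
    hEIM κ (3 * m) hMo h3M ρ hb 1 (one_pow _)
  rw [one_pow] at hC2 hC3 hC4
  have hk1p : 0 < k1 := by
    rcases Nat.eq_zero_or_pos k1 with h | h
    · rw [h, zero_mul] at hk1
      nlinarith
    · exact h
  have hbase := hvalD _ _ _ _ hs
  have e1 : dO (a1 ^ 3) (3 * k1) = dO 1 (3 * (3 * m) * (3 * m)) := by
    apply io_inj
    rw [← hbase, ← hvalD _ _ _ _ hC3]
  obtain ⟨_, e2⟩ := hI _ _ _ _ (pow_ne_zero 3 ha1) one_ne_zero (by omega) (by positivity) e1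
  have e3 : k1 = 9 * m ^ 2 := by nlinarith
  have hs'0 : 0 < s' := by
    rcases Nat.eq_zero_or_pos s' with h | h
    · rw [h] at hk2
      nlinarith
    · exact h
  have e4 : k2 = 3 * m ^ 2 := by
    rcases hor with h | h
    · exfalso
      have : 1 ≤ s' ^ 2 := Nat.one_le_pow _ _ hs'0
      rw [h, e3] at hk2
      have h5 : 0 < m ^ 2 := by positivity
      nlinarith
    · omega
  have e5 : s' = 1 := by
    have h5 : 0 < m ^ 2 := by positivity
    rw [e4] at hk2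
    have h6 : 9 * m ^ 2 * s' ^ 2 = 9 * m ^ 2 * 1 := by nlinarith
    have h7 := Nat.eq_of_mul_eq_mul_left (by positivity) h6
    nlinarith
  have hv := hsb e5
  have hV := hval _ _ hC2
  rw [e4] at hV
  have h9 : ρ (io' (dO 1 9)) = io' (dO 1 (9 * m ^ 2)) := by
    have := hvalD _ _ _ _ hC4
    rw [hv, e4] at this
    rw [this]
    congr 2
    ring
  refine ⟨a2, hv, ?_⟩
  intro c hc
  have hc0 : c ≠ 0 := by
    rintro rfl
    rw [zero_pow (by positivity)] at hc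
    exact zero_ne_one hc
  obtain ⟨c1, c2, i1, i2, t, t', hc1, hc2, ht1, ht2, hi1, hi2, hor', hta, htb, hD1, hD2, hD3, hD4⟩ :=
    hEIM κ (3 * m) hMo h3M ρ hb c hc
  have hi1p : 0 < i1 := by
    rcases Nat.eq_zero_or_pos i1 with h | h
    · rw [h, zero_mul] at hi1
      nlinarith
    · exact h
  have hi2p : 0 < i2 := by
    rcases Nat.eq_zero_or_pos i2 with h | h
    · rw [h, mul_zero, zero_mul] at hi2
      nlinarith
    · exact h
  have ht'0 : 0 < t' := by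
    rcases Nat.eq_zero_or_pos t' with h | h
    · rw [h] at hi2
      nlinarith
    · exact h
  obtain ⟨q1, q2⟩ := quot c1 c2 hc1 hc2 hi1p hi2p
  refine ⟨eO c1 i1 ^ 2 / eO c2 i2, ?_, ?_, ?_⟩
  · -- CompO
    have r1 := (hR hDEL κ ρ _ _ _ _ hD1 hD1).2.1
    have r2 := (hR hDEL κ ρ _ _ _ _ hD2 hD2).2.2.1
      (lead (c ^ 3) (pow_ne_zero 3 hc0) (by norm_num)).1
    have r3 := (hR hDEL κ ρ _ _ _ _ r1 r2).2.1
    rw [div_eq_mul_inv, div_eq_mul_inv, pow_two, pow_two]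
    exact r3
  · intro hne
    have f1 : i2 = 3 * i1 := by
      rcases hor' with h | h
      · exact h
      · exfalso
        apply hne
        apply q1
        have : (3 * i2 : ℤ) = i1 := by exact_mod_cast h
        have h5 : (0 : ℤ) ≤ (m : ℤ) ^ 2 := by positivity
        have h6 : (0 : ℤ) < i2 := by exact_mod_cast hi2p
        linarith
    have f2 : m ^ 2 ≤ i1 := by
      by_contra hcon
      push Not at hcon
      apply hne
      apply q1
      have h5 : (i1 : ℤ) < (m : ℤ) ^ 2 := by exact_mod_cast hcon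
      have h6 : (i2 : ℤ) = 3 * i1 := by exact_mod_cast f1
      linarith
    have f3 : i1 * t' ^ 2 = m ^ 2 := by
      rw [f1] at hi2
      nlinarith
    have f4 : t' = 1 := by
      by_contra h
      have h5 : 2 ≤ t' := by omega
      have h6 : 4 ≤ t' ^ 2 := by nlinarith
      have h7 : 0 < m ^ 2 := by positivity
      nlinarith
    have f5 : i1 = m ^ 2 := by
      rw [f4] at f3
      omega
    have f6 := htb f4
    have f7 := hvalD _ _ _ _ hD4
    rw [f6, f1, f5] at f7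
    constructor
    · have f8 : dO (c ^ 9) 9 = dO 1 9 := by
        apply io_inj
        apply ρ.injective
        rw [f7, h9]
        congr 2
        ring
      exact (hI _ _ _ _ (pow_ne_zero 9 hc0) one_ne_zero (by norm_num) (by norm_num) f8).1
    · intro h
      have f8 := hvalD _ _ _ _ hD3
      rw [h, hbase] at f8
      have f9 := io_inj f8
      obtain ⟨_, f10⟩ := hI _ _ _ _ one_ne_zero (pow_ne_zero 3 hc1) (by positivity) (by omega) f9
      rw [f5] at f10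
      have h7 : 0 < m ^ 2 := by positivity
      nlinarith
  · intro hc9 hc3
    obtain ⟨u, hu⟩ : ∃ u : kk, u = c ^ 3 := ⟨_, rfl⟩
    rw [← hu] at hc3 hD2 hD3 ⊢
    have hu3 : u ^ 3 = 1 := by
      rw [hu, ← pow_mul]
      exact hc9
    have hu0 : u ≠ 0 := by
      rw [hu]; exact pow_ne_zero 3 hc0
    have hu2 : u ^ 2 + u + 1 = 0 := by
      have : (u - 1) * (u ^ 2 + u + 1) = 0 := by linear_combination hu3
      rcases mul_eq_zero.mp this with h | h
      · exact absurd (sub_eq_zero.mp h) hc3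
      · exact h
    have hCu : (HahnSeries.C u : Om) ^ 2 + HahnSeries.C u + 1 = 0 := by
      have := congrArg (HahnSeries.C : kk →+* Om) hu2
      simpa using this
    have hJ0 : 3 * m ^ 2 ≠ 0 := by positivity
    have g1 := dO_tw hE u hu3 (j := 3) (by norm_num)
    have g2 := eO_mul hE.2.2.2.2 a2 1 hv hJ0
    rw [mul_one] at g2
    have g3 := eO_eq hE.2.1 1 hJ0
    rw [one_pow] at g3
    have g4 := dO_tw hE (u ^ 2 * a2) (by
      rw [mul_pow, ← pow_mul, mul_comm 2 3, pow_mul, hu3, hv]; norm_num) hJ0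
    have g5 : 3 * (3 * m) * (3 * m) = 9 * (3 * m ^ 2) := by ring
    rw [g5] at hbase
    have g6 : ρ (io' (dO u 3)) = io' (dO (u ^ 2 * a2) (3 * m ^ 2)) := by
      rw [g1, map_add, map_add, map_mul, map_mul, map_sub, map_sub, rho_C, map_one, map_one, hV,
        hbase]
      rw [← map_one io', ← map_sub, ← map_mul, ← map_add]
      congr 1
      rw [g4, g2, map_mul, map_pow]
      linear_combination (- HahnSeries.C a2 * eO 1 (3 * m ^ 2)) * hCu - g3 +
        (HahnSeries.C u * HahnSeries.C a2 * eO 1 (3 * m ^ 2) + eO 1 (3 * m ^ 2)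
          - dO 1 (3 * m ^ 2)) * two_Om
    have g7 := hvalD _ _ _ _ hD3
    rw [g6] at g7
    obtain ⟨g8, g9⟩ := hI _ _ _ _ (mul_ne_zero (pow_ne_zero 2 hu0) ha2) (pow_ne_zero 3 hc1)
      (by positivity) (by omega) (io_inj g7)
    have g10 : i1 = m ^ 2 := by omega
    have g11 : eO (u * a2) (3 * m ^ 2) = eO c2 i2 := by
      apply io_inj
      rw [← hval _ _ hD2, eO_mul hE.2.2.2.2 u a2 hu3 hJ0, map_mul, ← hV]
      have := eO_mul hE.2.2.2.2 u 1 hu3 (j := 3) (by norm_num)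
      rw [mul_one] at this
      rw [this, map_mul, map_mul, rho_C]
    obtain ⟨_, l1, l2⟩ := lead (u * a2) (mul_ne_zero hu0 ha2) (Nat.pos_of_ne_zero hJ0)
    obtain ⟨_, l3, l4⟩ := lead c2 hc2 hi2p
    rw [g11] at l1 l2
    have g12 : i2 = 3 * m ^ 2 := by
      have : (i2 : ℤ) = ((3 * m ^ 2 : ℕ) : ℤ) := by rw [← l3, l1]
      exact_mod_cast this
    have g13 : c2 = u * a2 := by rw [← l4, l2]
    refine ⟨c1, hc1, g8.symm, ?_⟩
    have g14 : -((m : ℤ) ^ 2) = 2 * (i1 : ℤ) - i2 := by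
      rw [g10, g12]; push_cast; ring
    rw [g14, q2, g13]

/-- squares modulo powers of two -/
theorem sq_mod (a : ℤ) (ha : (8 : ℤ) ∣ a - 1) (k : ℕ) :
    ∃ t : ℕ, Odd t ∧ (2 : ℤ) ^ (k + 3) ∣ (t : ℤ) ^ 2 - a := by
  induction k with
  | zero => exact ⟨1, odd_one, by
      obtain ⟨b, hb⟩ := ha
      exact ⟨-b, by push_cast; linarith⟩⟩
  | succ k ih =>
    obtain ⟨t, ht, b, hb⟩ := ih
    rcases Int.even_or_odd b with ⟨d, hd⟩ | ⟨d, hd⟩
    · exact ⟨t, ht, d, by rw [hb, hd]; ring⟩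
    · obtain ⟨w, hw⟩ := ht
      refine ⟨t + 2 ^ (k + 2), ?_, d + w + 1 + 2 ^ k, ?_⟩
      · exact Odd.add_even ⟨w, hw⟩ ⟨2 ^ (k + 1), by ring⟩
      · have h1 : (t : ℤ) ^ 2 = a + 2 ^ (k + 3) * (d + d + 1) := by
          have : (d + d + 1 : ℤ) = b := by rw [hd]; ring
          rw [this]; linarith
        have h2 : (t : ℤ) = 2 * w + 1 := by exact_mod_cast hw
        push_cast
        have h3 : ((t : ℤ) + 2 ^ (k + 2)) ^ 2 - a = ((t : ℤ) ^ 2 - a) + 2 * 2 ^ (k + 2) * t +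
          (2 ^ (k + 2)) ^ 2 := by ring
        rw [h3, h1, h2]
        ring

theorem odd_sq_mod (M : ℕ) (hM : Odd M) (a : ℤ) (ha : (8 : ℤ) ∣ a - 1) (k : ℕ) :
    ∃ t : ℕ, Odd t ∧ (2 : ℤ) ^ (k + 3) ∣ ((M * t : ℕ) : ℤ) ^ 2 - a := by
  -- an inverse of `M ^ 2` modulo `2 ^ (k + 3)`
  have hcop : IsCoprime ((M : ℤ) ^ 2) (2 ^ (k + 3)) := by
    have h1 : Nat.Coprime (M ^ 2) (2 ^ (k + 3)) :=
      Nat.Coprime.pow _ _ (Nat.coprime_two_right.mpr hM)
    have := Nat.isCoprime_iff_coprime.mpr h1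
    push_cast at this
    exact this
  obtain ⟨x, y, hxy⟩ := hcop
  have h8 : (8 : ℤ) ∣ a * x - 1 := by
    obtain ⟨w, hw⟩ := hM
    obtain ⟨b, hb⟩ := ha
    have h1 : (M : ℤ) = 2 * w + 1 := by exact_mod_cast hw
    -- M ^ 2 = 8 * tri + 1
    obtain ⟨d, hd⟩ : ∃ d : ℤ, (M : ℤ) ^ 2 = 8 * d + 1 := by
      rcases Int.even_or_odd (w : ℤ) with ⟨e, he⟩ | ⟨e, he⟩
      · exact ⟨e * (2 * e + 1), by rw [h1, he]; ring⟩
      · exact ⟨(2 * e + 1) * (e + 1), by rw [h1, he]; ring⟩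
    have h2 : (2 : ℤ) ^ (k + 3) = 8 * 2 ^ k := by ring
    rw [hd, h2] at hxy
    have ha' : a = 8 * b + 1 := by linarith
    refine ⟨b * x - x * d - y * 2 ^ k, ?_⟩
    rw [ha']
    linear_combination hxy
  obtain ⟨t, ht, b, hb⟩ := sq_mod (a * x) h8 k
  refine ⟨t, ht, (M : ℤ) ^ 2 * b - a * y, ?_⟩
  push_cast
  have : (t : ℤ) ^ 2 = a * x + 2 ^ (k + 3) * b := by linarith
  rw [mul_pow, this]
  linear_combination a * hxy

end FINA

open FINA in
theorem fina : S_FINA := by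
  intro hSW hEIM hR hDEL hI hE hREL hGAB κ M r hM
  by_contra hcon
  push Not at hcon
  obtain ⟨t, ht, htd⟩ := odd_sq_mod M hM (1 - 24 * r) ⟨-3 * r, by ring⟩ κ
  obtain ⟨m, hmdef⟩ : ∃ m, m = M * t := ⟨_, rfl⟩
  rw [← hmdef] at htd
  have hm : Odd m := by rw [hmdef]; exact hM.mul ht
  have hm0 : 0 < m := hm.pos
  have hMo : Odd (3 * m) := (by decide : Odd 3).mul hm
  have hbig : Odd (3 * (3 * m)) := (by decide : Odd 3).mul hMo
  have : NeZero ((3 * (3 * m) : ℕ) : kk) := ⟨by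
    obtain ⟨w, hw⟩ := hbig
    rw [hw]
    push_cast
    rw [two_kk, zero_mul, zero_add]
    exact one_ne_zero⟩
  have : NeZero (3 * (3 * m)) := ⟨hbig.pos.ne'⟩
  obtain ⟨ζ, hζ⟩ : ∃ ζ : kk, IsPrimitiveRoot ζ (3 * (3 * m)) :=
    HasEnoughRootsOfUnity.exists_primitiveRoot kk (3 * (3 * m))
  have rel := hREL κ (3 * m) r (-1) Pa (fun c => eO c 1 ^ 2 / eO (c ^ 3) 3) ζ hMo hζ
    (fun n hn => hcon n (hn.of_dvd (Nat.mul_dvd_mul_left _ ⟨3 * t, by rw [hmdef]; ring⟩)))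
    (fun c hc n => (hGAB hE c hc n).1)
  obtain ⟨ρ, hb, hs⟩ := hSW (κ + 3) (3 * m) hMo
  obtain ⟨v, hv, hmain⟩ := main hEIM hR hDEL hI hE (κ + 3) m hm ρ hb hs
  have hz : ∀ i : ℕ, (ζ ^ i) ^ (3 * (3 * m)) = 1 := by
    intro i
    rw [← pow_mul, mul_comm, pow_mul, hζ.pow_eq_one, one_pow]
  choose! G hG1 hG2 hG3 using hmain
  -- the relation after the automorphism
  have rel2 : ∑ i ∈ Finset.range (3 * m),
      ζ ^ (-(i : ℤ) * (24 * (r : ℤ) + -1)) * (G (ζ ^ i)).coeff (-((m : ℤ) ^ 2)) = 0 := by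
    have h1 := congrArg ρ rel
    rw [map_sum, map_zero] at h1
    have h2 : ∀ i ∈ Finset.range (3 * m),
        ρ (io' (HahnSeries.C (ζ ^ (-(i : ℤ) * (24 * (r : ℤ) + -1)))) *
          io' (prO (κ + 3) ((24 * (r : ℤ) + -1 : ℤ) : ZMod (2 ^ (κ + 3)))
            (eO (ζ ^ i) 1 ^ 2 / eO ((ζ ^ i) ^ 3) 3))) =
        io' (HahnSeries.C (ζ ^ (-(i : ℤ) * (24 * (r : ℤ) + -1))) *
          prO (κ + 3) ((24 * (r : ℤ) + -1 : ℤ) : ZMod (2 ^ (κ + 3))) (G (ζ ^ i))) := by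
      intro i _
      rw [map_mul, rho_C, hG1 (ζ ^ i) (hz i), map_mul]
    rw [Finset.sum_congr rfl h2, ← map_sum] at h1
    have h3 := io_inj (h1.trans (map_zero io').symm)
    have h4 := congrArg (fun f : Om => f.coeff (-((m : ℤ) ^ 2))) h3
    simp only [HahnSeries.coeff_sum, HahnSeries.coeff_zero] at h4
    rw [← h4]
    refine Finset.sum_congr rfl fun i _ => ?_
    rw [HahnSeries.C_mul_eq_smul, HahnSeries.coeff_smul, smul_eq_mul]
    congr 1
    show _ = if (((-((m : ℤ) ^ 2) : ℤ)) : ZMod (2 ^ (κ + 3))) =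
      ((24 * (r : ℤ) + -1 : ℤ) : ZMod (2 ^ (κ + 3))) then _ else _
    rw [if_pos]
    rw [ZMod.intCast_eq_intCast_iff_dvd_sub]
    push_cast
    obtain ⟨b, hb⟩ := htd
    exact ⟨b, by linarith⟩
  have hlt : m < 3 * m := by omega
  have hlt2 : 2 * m < 3 * m := by omega
  rw [Finset.sum_eq_add m (2 * m) (by omega)] at rel2
  · -- two terms
    obtain ⟨ε, hε⟩ : ∃ ε : kk, ε = ζ ^ m := ⟨_, rfl⟩
    have hε0 : ε ≠ 0 := by
      rw [hε]; exact pow_ne_zero _ (hζ.ne_zero (by positivity))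
    have hε9 : ε ^ 9 = 1 := by
      rw [hε, ← pow_mul, show m * 9 = 3 * (3 * m) by ring, hζ.pow_eq_one]
    have hε3 : ε ^ 3 ≠ 1 := by
      rw [hε, ← pow_mul]
      intro h
      have := hζ.dvd_of_pow_eq_one _ h
      have := Nat.le_of_dvd (by positivity) this
      omega
    obtain ⟨ω, hω⟩ : ∃ ω : kk, ω = ε ^ 3 := ⟨_, rfl⟩
    have hω3 : ω ^ 3 = 1 := by rw [hω, ← pow_mul]; exact hε9
    have hω0 : ω ≠ 0 := by rw [hω]; exact pow_ne_zero _ hε0
    have hv0 : v ≠ 0 := by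
      rintro rfl
      norm_num at hv
    have e2 : ζ ^ (2 * m) = ε ^ 2 := by rw [hε, ← pow_mul, mul_comm]
    have hz1 := hz m
    have hz2 := hz (2 * m)
    rw [e2] at hz2 rel2
    rw [← hε] at hz1 rel2
    obtain ⟨c1, hc1, hc13, hco1⟩ := hG3 ε hz1 hε9 hε3
    obtain ⟨c2, hc2, hc23, hco2⟩ := hG3 (ε ^ 2) hz2
      (by rw [← pow_mul, mul_comm, pow_mul, hε9, one_pow])
      (by
        intro h
        apply hε3
        have h5 : (ε ^ 3) ^ 2 = 1 := by rw [← h]; ring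
        have h6 : (ε ^ 3) ^ 3 = 1 := by rw [← pow_mul]; exact hε9
        have h7 : ε ^ 3 * (ε ^ 3) ^ 2 = 1 := by rw [← h6]; ring
        rw [h5, mul_one] at h7
        exact h7)
    rw [hco1, hco2] at rel2
    obtain ⟨η, hη⟩ : ∃ η : kk, η = ε ^ (-(24 * (r : ℤ) + -1)) := ⟨_, rfl⟩
    have hη0 : η ≠ 0 := by rw [hη]; exact zpow_ne_zero _ hε0
    have n1 : ζ ^ (-(m : ℤ) * (24 * (r : ℤ) + -1)) = η := by
      rw [hη, hε, ← zpow_natCast, ← zpow_mul]
      congr 1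
      ring
    have n2 : ζ ^ (-((2 * m : ℕ) : ℤ) * (24 * (r : ℤ) + -1)) = η ^ 2 := by
      rw [← n1, ← zpow_natCast, ← zpow_mul]
      congr 1
      push_cast
      ring
    have n3 : η ^ 3 = ω := by
      have h5 : η ^ 3 = ε ^ ((3 : ℤ) + 9 * (-8 * (r : ℤ))) := by
        rw [hη, ← zpow_natCast, ← zpow_mul]
        congr 1
        push_cast
        ring
      rw [h5, zpow_add₀ hε0, zpow_mul]
      have h6 : ε ^ (9 : ℤ) = 1 := by exact_mod_cast hε9
      have h7 : ε ^ (3 : ℤ) = ω := by rw [hω]; exact_mod_cast rfl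
      rw [h6, h7, one_zpow, mul_one]
    rw [n1, n2] at rel2
    have hω2 : (ε ^ 2) ^ 3 = ω ^ 2 := by rw [hω]; ring
    rw [hω2] at hc23 rel2
    rw [← hω] at hc13 rel2
    -- clear denominators
    have k1 : ω * c1 ^ 2 + η * c2 ^ 2 = 0 := by
      have h5 : ω * c1 ^ 2 + η * c2 ^ 2 =
          (η * (c1 ^ 2 / (ω * v)) + η ^ 2 * (c2 ^ 2 / (ω ^ 2 * v))) * (ω ^ 2 * v / η) := by
        field_simp
      rw [h5, rel2, zero_mul]
    have k2 : ω * c1 ^ 2 = η * c2 ^ 2 := by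
      linear_combination k1 - (η * c2 ^ 2) * two_kk
    have k3 : ω ^ 3 * (c1 ^ 3) ^ 2 = η ^ 3 * (c2 ^ 3) ^ 2 := by
      have := congrArg (fun x => x ^ 3) k2
      simp only [mul_pow] at this
      rw [← pow_mul, ← pow_mul] at this ⊢
      rw [mul_comm 3 2]
      exact this
    rw [hc13, hc23, n3, hω3, one_mul] at k3
    apply hε3
    rw [← hω]
    have k4 : v ^ 2 * (ω ^ 4 - ω ^ 9) = 0 := by linear_combination k3
    have k5 : ω ^ 4 - ω ^ 9 = 0 := (mul_eq_zero.mp k4).resolve_left (pow_ne_zero 2 hv0)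
    have k6 : ω ^ 4 = ω := by rw [pow_succ, hω3, one_mul]
    have k7 : ω ^ 9 = 1 := by rw [show (9 : ℕ) = 3 * 3 from rfl, pow_mul, hω3, one_pow]
    rw [k6, k7] at k5
    exact sub_eq_zero.mp k5
  · -- the other terms vanish
    intro i hi hne
    have hi' : i < 3 * m := Finset.mem_range.mp hi
    by_contra hcon2
    have h1 : (G (ζ ^ i)).coeff (-((m : ℤ) ^ 2)) ≠ 0 := fun h => hcon2 (by rw [h, mul_zero])
    obtain ⟨h2, h3⟩ := hG2 (ζ ^ i) (hz i) h1
    rw [← pow_mul] at h2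
    have h4 := hζ.dvd_of_pow_eq_one _ h2
    have h5 : m ∣ i := by
      obtain ⟨w, hw⟩ := h4
      exact ⟨w, by nlinarith⟩
    obtain ⟨w, rfl⟩ := h5
    have hw : w < 3 := by nlinarith
    have : w = 0 ∨ w = 1 ∨ w = 2 := by omega
    rcases this with rfl | rfl | rfl
    · exact h3 (by simp)
    · exact hne.1 (by ring)
    · exact hne.2 (by ring)
  · intro h
    exact absurd (Finset.mem_range.mpr hlt) h
  · intro h
    exact absurd (Finset.mem_range.mpr hlt2) h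

end Pool.Agent.R836.RD
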