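import Pool.Agent.R836.RD.Defs

set_option autoImplicit false

/-!
# FINB: the result for `f_3 ^ 2 / f_1`
-/

namespace Pool.Agent.R836.RD

open PowerSeries Pool.Agent.TH693.QQ Pool.Agent.H397R2.PP Pool.Agent.H307R2.OP Pool.Agent.Y627.PT
open Pool.Agent.TH693.PP (E P)

namespace FINBaux

/-- solvability of `A x ^ 2 = B` modulo powers of two -/
theorem sq_lift (A B : ℤ) (hA : Odd A) (h8 : (8 : ℤ) ∣ A - B) (k : ℕ) :
    ∃ x : ℤ, Odd x ∧ (2 : ℤ) ^ (k + 3) ∣ A * x ^ 2 - B := by
  induction k with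
  | zero => exact ⟨1, odd_one, by simpa using h8⟩
  | succ k ih =>
    obtain ⟨x, hx, q, hq⟩ := ih
    rcases Int.even_or_odd q with hqe | hqo
    · obtain ⟨u, hu⟩ := hqe
      exact ⟨x, hx, u, by rw [hq, hu]; ring⟩
    · refine ⟨x + 2 ^ (k + 2), ?_, ?_⟩
      · refine hx.add_even ?_
        exact (even_two).pow_of_ne_zero (by omega)
      · obtain ⟨u, hu⟩ := hqo.add_odd (hA.mul hx)
        refine ⟨u + A * 2 ^ k, ?_⟩
        have h1 : A * (x + 2 ^ (k + 2)) ^ 2 - B =
            (A * x ^ 2 - B) + 2 ^ (k + 3) * (A * x) + 2 ^ (k + 4) * (A * 2 ^ k) := by ring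
        have h2 : (2 : ℤ) ^ (k + 3) * q + 2 ^ (k + 3) * (A * x) =
            2 ^ (k + 3) * (q + A * x) := by ring
        rw [h1, hq, h2, hu]
        ring

/-- `f` starts with the exponent `m` -/
def Lead (f : Om) (m : ℤ) : Prop := f ≠ 0 ∧ f.order = m

theorem lead_of {f : Om} {m : ℤ} (h1 : f.coeff m ≠ 0) (h2 : ∀ n < m, f.coeff n = 0) :
    Lead f m := by
  have hf : f ≠ 0 := by
    intro h
    apply h1
    rw [h]
    rfl
  refine ⟨hf, ?_⟩
  have h3 : f.order ≤ m := HahnSeries.order_le_of_coeff_ne_zero h1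
  rcases h3.lt_or_eq with h4 | h4
  · exact absurd (h2 _ h4) (fun h => hf (HahnSeries.coeff_order_eq_zero.mp h))
  · exact h4

theorem Lead.coeff_ne {f : Om} {m : ℤ} (h : Lead f m) : f.coeff m ≠ 0 := by
  rw [← h.2]
  exact fun h' => h.1 (HahnSeries.coeff_order_eq_zero.mp h')

theorem Lead.coeff_lt {f : Om} {m : ℤ} (h : Lead f m) {n : ℤ} (hn : n < m) : f.coeff n = 0 := by
  rw [← h.2] at hn
  exact HahnSeries.coeff_eq_zero_of_lt_order hn

theorem Lead.mul {f g : Om} {m n : ℤ} (h : Lead f m) (h' : Lead g n) : Lead (f * g) (m + n) :=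
  ⟨mul_ne_zero h.1 h'.1, by rw [HahnSeries.order_mul h.1 h'.1, h.2, h'.2]⟩

theorem Lead.div {f g : Om} {m n : ℤ} (h : Lead f m) (h' : Lead g n) : Lead (f / g) (m - n) := by
  have h0 : f / g ≠ 0 := div_ne_zero h.1 h'.1
  refine ⟨h0, ?_⟩
  have h1 : (f / g * g).order = (f / g).order + g.order := HahnSeries.order_mul h0 h'.1
  rw [div_mul_cancel₀ _ h'.1, h.2, h'.2] at h1
  omega

theorem coeff_ee (n : ℕ) (hn : n ≤ 1) : coeff n Ee = if n = 1 then 1 else 0 := by
  unfold Ee
  rcases Nat.le_one_iff_eq_zero_or_eq_one.mp hn with rfl | rfl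
  · rw [coeff_zero_X_mul, if_neg (by norm_num)]
  · rw [show (1 : ℕ) = 0 + 1 from rfl, coeff_succ_X_mul, if_pos rfl]
    have h1 : coeff 0 (ex 24 (by norm_num) E) = coeff 0 E := by
      unfold ex
      rw [PowerSeries.coeff_expand, if_pos (dvd_zero 24), Nat.zero_div]
    rw [h1]
    have h2 : coeff 0 P * coeff 0 E = 1 := by
      have h3 := congrArg (coeff 0) Pool.Agent.TH693.PP.P_mul_E
      rw [coeff_zero_eq_constantCoeff] at h3 ⊢
      rw [map_mul, map_one] at h3
      exact h3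
    have h4 : coeff 0 E ≠ 0 := by
      intro h5
      rw [h5, mul_zero] at h2
      exact zero_ne_one h2
    revert h4
    generalize coeff 0 E = z
    revert z
    decide

theorem pt_coeff (c : kk) (j : ℕ) (hj : j ≠ 0) (f : Sk) (n : ℕ) :
    coeff n (pt c j f) = if j ∣ n then c ^ (n / j) * coeff (n / j) f else 0 := by
  unfold pt
  rw [dif_pos hj]
  have h1 : (((PowerSeries.expand j hj : Sk →ₐ[kk] Sk) : Sk →+* Sk).comp
      (PowerSeries.rescale c)) f = PowerSeries.expand j hj (PowerSeries.rescale c f) := rfl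
  rw [h1, PowerSeries.coeff_expand, PowerSeries.coeff_rescale]

theorem lead_eO (c : kk) (hc : c ≠ 0) (j : ℕ) (hj : 0 < j) : Lead (eO c j) (j : ℤ) := by
  have hco : ∀ n : ℤ, (eO c j).coeff n =
      if n < 0 then 0 else coeff n.natAbs (pt c j (ik Ee)) := by
    intro n
    exact PowerSeries.coeff_coe (pt c j (ik Ee)) n
  have hik : ∀ n : ℕ, coeff n (ik Ee) = algebraMap (ZMod 2) kk (coeff n Ee) := by
    intro n
    exact PowerSeries.coeff_map _ _ _
  apply lead_of
  · rw [hco, if_neg (by omega), pt_coeff c j hj.ne', Int.natAbs_natCast, if_pos (dvd_refl j),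
      Nat.div_self hj, pow_one, hik, coeff_ee 1 le_rfl, if_pos rfl, map_one, mul_one]
    exact hc
  · intro n hn
    rw [hco]
    by_cases h0 : n < 0
    · rw [if_pos h0]
    · rw [if_neg h0, pt_coeff c j hj.ne']
      by_cases h1 : j ∣ n.natAbs
      · have h2 : n.natAbs = 0 := Nat.eq_zero_of_dvd_of_lt h1 (by omega)
        rw [h2, Nat.zero_div, hik, coeff_ee 0 (by norm_num), if_neg (show ¬ (0 : ℕ) = 1 by norm_num), map_zero,
          mul_zero, ite_self]
      · rw [if_neg h1]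

theorem exists_root (n : ℕ) (hn : Odd n) : ∃ ζ : kk, IsPrimitiveRoot ζ n := by
  have h1 : (n : kk) = 1 := by
    obtain ⟨m, rfl⟩ := hn
    have h2 : (2 : kk) = 0 := by
      have := CharP.cast_eq_zero kk 2
      exact_mod_cast this
    push_cast
    rw [h2]
    ring
  have : NeZero (n : kk) := ⟨by rw [h1]; exact one_ne_zero⟩
  have : NeZero n := ⟨hn.pos.ne'⟩
  exact HasEnoughRootsOfUnity.exists_primitiveRoot kk n

theorem fix_C (ρ : OB ≃ₐ[kk] OB) (x : kk) : ρ (io' (HahnSeries.C x)) = io' (HahnSeries.C x) := by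
  have h1 : io' (HahnSeries.C x) = algebraMap kk OB x := by
    unfold io'
    rw [IsScalarTower.algebraMap_apply kk Om OB]
    exact congrArg (algebraMap Om OB) (LaurentSeries.algebraMap_apply kk x).symm
  rw [h1]
  exact ρ.commutes x

theorem coeff_CC (x : kk) (f : Om) (n : ℤ) : (HahnSeries.C x * f).coeff n = x * f.coeff n := by
  rw [HahnSeries.C_mul_eq_smul]
  rfl

end FINBaux

open FINBaux in
theorem finb : S_FINB := by
  intro hSWAP hEIM hRING hDEL hINJ hEE hREL hGAB κ M r hM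
  by_contra hcon
  push Not at hcon
  -- the number m'
  obtain ⟨x, hx, hx2⟩ := sq_lift (3 * (M : ℤ) ^ 2) (-(24 * (r : ℤ) + 5))
    (by
      have h1 : Odd (M : ℤ) := by exact_mod_cast hM
      exact (by decide : Odd (3 : ℤ)).mul h1.pow)
    (by
      obtain ⟨k, hk⟩ := hM
      rcases Nat.even_or_odd' k with ⟨u, hu | hu⟩
      · refine ⟨6 * (u : ℤ) ^ 2 + 3 * u + 3 * r + 1, ?_⟩
        rw [hk, hu]
        push_cast
        ring
      · refine ⟨6 * (u : ℤ) ^ 2 + 9 * u + 3 * r + 4, ?_⟩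
        rw [hk, hu]
        push_cast
        ring) κ
  set t0 : ℕ := x.natAbs with ht0
  have ht0o : Odd t0 := by
    rw [ht0, Int.natAbs_odd]
    exact hx
  set m' : ℕ := M * t0 with hm'
  have hm'o : Odd m' := hM.mul ht0o
  have hm'pos : 0 < m' := hm'o.pos
  set M' : ℕ := 3 * m' with hM'
  have hM'o : Odd M' := (by decide : Odd 3).mul hm'o
  have hM'pos : 0 < M' := hM'o.pos
  have h3M' : 3 ∣ M' := Dvd.intro _ rfl
  have hMM' : M ∣ M' := ⟨3 * t0, by rw [hM', hm']; ring⟩
  set N0 : ℤ := -(3 * (m' : ℤ) ^ 2) with hN0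
  have hclass : ((N0 : ℤ) : ZMod (2 ^ (κ + 3))) = ((24 * (r : ℤ) + 5 : ℤ) : ZMod (2 ^ (κ + 3))) := by
    rw [ZMod.intCast_eq_intCast_iff_dvd_sub]
    have h1 : (24 * (r : ℤ) + 5) - N0 = 3 * (M : ℤ) ^ 2 * x ^ 2 - -(24 * (r : ℤ) + 5) := by
      rw [hN0, hm', ht0]
      push_cast
      rw [mul_pow, sq_abs]
      ring
    rw [h1]
    push_cast
    exact hx2
  obtain ⟨ρ, hρ1, hρ2⟩ := hSWAP (κ + 3) M' hM'o
  obtain ⟨ζ, hζ⟩ := exists_root (3 * M') ((by decide : Odd 3).mul hM'o)
  have hζ0 : ζ ≠ 0 := hζ.ne_zero (by positivity)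
  have key := fun t : ℕ => hEIM (κ + 3) M' hM'o h3M' ρ hρ1 (ζ ^ t)
    (by rw [← pow_mul, mul_comm, pow_mul, hζ.pow_eq_one, one_pow])
  choose c1 c2 i1 i2 s s' hc1 hc2 hs hs' hi1 hi2 hor hs1 hs1' he1 he2 hD1 hD2 using key
  have hi1pos : ∀ t, 0 < i1 t := by
    intro t
    rcases Nat.eq_zero_or_pos (i1 t) with h | h
    · have h1 := hi1 t
      rw [h, zero_mul] at h1
      have : 0 < M' * M' := by positivity
      omega
    · exact h
  have hi2pos : ∀ t, 0 < i2 t := by
    intro t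
    rcases Nat.eq_zero_or_pos (i2 t) with h | h
    · have h1 := hi2 t
      rw [h, mul_zero, zero_mul] at h1
      have : 0 < M' * M' := by positivity
      omega
    · exact h
  -- the relation
  have hrel := hREL κ M' r 5 Pb (fun c => eO (c ^ 3) 3 ^ 2 / eO c 1) ζ hM'o hζ
    (by
      intro n hn
      exact hcon n (hn.of_dvd (Nat.mul_dvd_mul_left _ hMM')))
    (by
      intro c hc n
      exact (hGAB hEE c hc n).2)
  -- the images
  set g' : ℕ → Om := fun t => eO (c2 t) (i2 t) ^ 2 / eO (c1 t) (i1 t) with hg'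
  have himg : ∀ t : ℕ, CompO (κ + 3) ρ (eO ((ζ ^ t) ^ 3) 3 ^ 2 / eO (ζ ^ t) 1) (g' t) := by
    intro t
    have h1 := (hRING hDEL (κ + 3) ρ _ _ _ _ (he2 t) (he2 t)).2.1
    have h2 := (hRING hDEL (κ + 3) ρ _ _ _ _ (he1 t) (he1 t)).2.2.1
      (lead_eO _ (pow_ne_zero _ hζ0) 1 one_pos).1
    have h3 := (hRING hDEL (κ + 3) ρ _ _ _ _ h1 h2).2.1
    rw [hg']
    simp only [div_eq_mul_inv, sq]
    exact h3
  have hrel2 : ∑ t ∈ Finset.range M', HahnSeries.C (ζ ^ (-(t : ℤ) * (24 * (r : ℤ) + 5))) *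
      prO (κ + 3) ((24 * (r : ℤ) + 5 : ℤ) : ZMod (2 ^ (κ + 3))) (g' t) = 0 := by
    have h1 := congrArg ρ hrel
    rw [map_zero, map_sum] at h1
    have h2 : io' (∑ t ∈ Finset.range M', HahnSeries.C (ζ ^ (-(t : ℤ) * (24 * (r : ℤ) + 5))) *
      prO (κ + 3) ((24 * (r : ℤ) + 5 : ℤ) : ZMod (2 ^ (κ + 3))) (g' t)) = 0 := by
      rw [map_sum, ← h1]
      refine Finset.sum_congr rfl fun t _ => ?_
      rw [map_mul, map_mul, fix_C, himg t]
    exact (map_eq_zero_iff io' io'.injective).mp h2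
  have hlead : ∀ t : ℕ, Lead (g' t) ((i2 t : ℤ) + i2 t - i1 t) := by
    intro t
    rw [hg']
    simp only [sq]
    exact ((lead_eO _ (hc2 t) _ (hi2pos t)).mul (lead_eO _ (hc2 t) _ (hi2pos t))).div
      (lead_eO _ (hc1 t) _ (hi1pos t))
  -- vertices with the largest exponent
  have hvert : ∀ t : ℕ, c1 t ^ 3 = 1 → i1 t = M' * M' → (ζ ^ t) ^ 3 = 1 := by
    intro t hc hi
    have h1 := (hRING hDEL (κ + 3) ρ _ _ _ _ (hD1 t) (hD1 t)).2.2.2
    have h2 := (hRING hDEL (κ + 3) ρ _ _ _ _ hρ2 hρ2).2.2.2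
    rw [hc, hi, ← mul_assoc, ← h2] at h1
    have h3 := io'.injective (ρ.injective h1)
    exact (hINJ _ _ _ _ (pow_ne_zero _ (pow_ne_zero _ hζ0)) one_ne_zero (by norm_num)
      (by norm_num) h3).1
  have hzero : c1 0 ^ 3 = 1 ∧ i1 0 = M' * M' := by
    have h1 := (hRING hDEL (κ + 3) ρ _ _ _ _ (hD1 0) (hD1 0)).2.2.2
    have h2 := (hRING hDEL (κ + 3) ρ _ _ _ _ hρ2 hρ2).2.2.2
    rw [pow_zero, one_pow, h2] at h1
    have h3 := io'.injective h1
    have h4 := hINJ _ _ _ _ one_ne_zero (pow_ne_zero _ (hc1 0)) (by positivity)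
      (Nat.mul_pos (by norm_num) (hi1pos 0)) h3
    refine ⟨h4.1.symm, ?_⟩
    have h5 := h4.2
    rw [mul_assoc] at h5
    exact (Nat.eq_of_mul_eq_mul_left (by norm_num) h5).symm
  have hsq : (M' * M' : ℕ) = 9 * m' ^ 2 := by rw [hM']; ring
  -- the coefficient at N0
  have hco := congrArg (fun f : Om => f.coeff N0) hrel2
  simp only [HahnSeries.coeff_sum, coeff_CC, HahnSeries.coeff_zero] at hco
  have hpr : ∀ t : ℕ, (prO (κ + 3) ((24 * (r : ℤ) + 5 : ℤ) : ZMod (2 ^ (κ + 3))) (g' t)).coeff N0 =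
      (g' t).coeff N0 := by
    intro t
    show (if (N0 : ZMod (2 ^ (κ + 3))) = ((24 * (r : ℤ) + 5 : ℤ) : ZMod (2 ^ (κ + 3))) then
      (g' t).coeff N0 else 0) = _
    rw [if_pos hclass]
  rw [Finset.sum_eq_single 0] at hco
  · rw [hpr] at hco
    have h0 : Lead (g' 0) N0 := by
      have h1 := hlead 0
      have h2 : (i2 0 : ℤ) + i2 0 - i1 0 = N0 := by
        have h3 := hzero.2
        rcases hor 0 with h4 | h4
        · exfalso
          have h5 := hi2 0
          rw [h4, h3] at h5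
          have h6 : 0 < M' * M' := by positivity
          have h7 : 3 * (3 * (M' * M')) * s' 0 ^ 2 = (M' * M') * (9 * s' 0 ^ 2) := by ring
          rw [h7] at h5
          have h8 : 9 * s' 0 ^ 2 = 1 := by
            have h9 : (M' * M') * (9 * s' 0 ^ 2) = (M' * M') * 1 := by rw [h5, mul_one]
            exact Nat.eq_of_mul_eq_mul_left h6 h9
          omega
        · have h5 : i2 0 = 3 * m' ^ 2 := by omega
          have h6 : i1 0 = 9 * m' ^ 2 := by omega
          rw [h5, h6, hN0]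
          push_cast
          ring
      rw [← h2]
      exact h1
    have h1 := h0.coeff_ne
    rcases mul_eq_zero.mp hco with h2 | h2
    · exact zpow_ne_zero _ hζ0 h2
    · exact h1 h2
  · intro t ht ht0'
    rw [hpr]
    have h1 : N0 < (i2 t : ℤ) + i2 t - i1 t := by
      rcases hor t with h4 | h4
      · have h5 := hi1pos t
        have h6 : 0 < (m' : ℤ) ^ 2 := by positivity
        have h7 : (i2 t : ℤ) = 3 * i1 t := by exact_mod_cast h4
        have h8 : (0 : ℤ) < i1 t := by exact_mod_cast h5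
        rw [hN0]
        linarith
      · -- `i2 ≤ 3 m' ^ 2`, with equality only if `s = 1`
        have h5 := hi1 t
        have hspos : 0 < s t := Nat.pos_of_dvd_of_pos (hs t) hM'pos
        have h6 : i1 t ≤ M' * M' := by
          rw [← h5]
          exact Nat.le_mul_of_pos_right _ (by positivity)
        have h7 : i1 t ≠ M' * M' := by
          intro h8
          rw [h8] at h5
          have h9 : s t ^ 2 = 1 := by
            have h10 : (M' * M') * s t ^ 2 = (M' * M') * 1 := by rw [h5, mul_one]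
            exact Nat.eq_of_mul_eq_mul_left (by positivity) h10
          have h10 : s t = 1 := by
            rcases Nat.pow_eq_one.mp h9 with h | h
            · exact h
            · omega
          have h11 := hvert t (hs1 t h10) h8
          rw [← pow_mul] at h11
          have h12 : 3 * M' ∣ t * 3 := hζ.dvd_of_pow_eq_one _ h11
          have h13 : M' ∣ t := by
            rw [mul_comm t 3] at h12
            exact Nat.dvd_of_mul_dvd_mul_left (by norm_num) h12
          have h14 := Finset.mem_range.mp ht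
          exact ht0' (Nat.eq_zero_of_dvd_of_lt h13 h14)
        have h8 : i2 t < 3 * m' ^ 2 := by omega
        have h9 : (i2 t : ℤ) < 3 * (m' : ℤ) ^ 2 := by exact_mod_cast h8
        have h10 : 3 * (i2 t : ℤ) = i1 t := by exact_mod_cast h4
        rw [hN0]
        linarith
    rw [(hlead t).coeff_lt h1, mul_zero]
  · intro h
    exact absurd (Finset.mem_range.mpr hM'pos) h

end Pool.Agent.R836.RD
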