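import Pool.Agent.R836.RD.Defs2
import Pool.Agent.R836.RD.FINB

set_option autoImplicit false

/-!
# FING: the general case, `f_(m₀) ^ (2 ^ a) / f_1` modulo 2 (helper327)
-/

namespace Pool.Agent.R836.RD

open PowerSeries Pool.Agent.TH693.QQ Pool.Agent.H397R2.PP Pool.Agent.H307R2.OP Pool.Agent.Y627.PT
open Pool.Agent.TH693.PP (E P)

namespace FINGaux

open FINBaux

theorem sq_sol (B N : ℤ) (hB : Odd B) (h8 : (8 : ℤ) ∣ B - N) (k : ℕ) :
    ∃ t : ℕ, Odd t ∧ (2 : ℤ) ^ (k + 3) ∣ B * (t : ℤ) ^ 2 - N := by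
  induction k with
  | zero =>
    refine ⟨1, odd_one, ?_⟩
    norm_num
    exact h8
  | succ k ih =>
    obtain ⟨t, ht, q, hq⟩ := ih
    rcases Int.even_or_odd q with hqe | hqo
    · obtain ⟨e, he⟩ := hqe
      refine ⟨t, ht, e, ?_⟩
      rw [hq, he]
      ring
    · refine ⟨t + 2 ^ (k + 2), ?_, ?_⟩
      · refine ht.add_even ?_
        rw [pow_succ]
        exact even_two.mul_left _
      · have htz : Odd (t : ℤ) := by exact_mod_cast ht
        have h1 : Even (q + B * (t : ℤ)) := hqo.add_odd (hB.mul htz)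
        obtain ⟨e, he⟩ := h1
        refine ⟨e + B * 2 ^ k, ?_⟩
        push_cast
        have h2 : B * ((t : ℤ) + 2 ^ (k + 2)) ^ 2 - N =
            (B * (t : ℤ) ^ 2 - N) + 2 ^ (k + 3) * (B * t + B * 2 ^ (k + 1)) := by
          ring
        rw [h2, hq]
        have h3 : (2 : ℤ) ^ (k + 3) * q + 2 ^ (k + 3) * (B * t + B * 2 ^ (k + 1)) =
            2 ^ (k + 3) * ((q + B * t) + B * 2 ^ (k + 1)) := by ring
        rw [h3, he]
        ring

/-- the choice of the parameter -/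
theorem choose_m (a m₀ M r κ : ℕ) (ha : 1 ≤ a) (hm : Odd m₀) (hM : Odd M) :
    ∃ m' : ℕ, Odd m' ∧ M ∣ m' ∧ (2 : ℤ) ^ (κ + 3) ∣
      ((m₀ : ℤ) * (m' : ℤ) ^ 2 * (2 ^ a - m₀)) - (24 * (r : ℤ) + (2 ^ a * m₀ - 1)) := by
  have hmz : Odd (m₀ : ℤ) := by exact_mod_cast hm
  have hMz : Odd (M : ℤ) := by exact_mod_cast hM
  have h2a : Even ((2 : ℤ) ^ a) := by
    obtain ⟨b, rfl⟩ : ∃ b, a = b + 1 := ⟨a - 1, by omega⟩
    rw [pow_succ]
    exact even_two.mul_left _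
  have hd : Odd ((2 : ℤ) ^ a - m₀) := h2a.sub_odd hmz
  have hB : Odd ((m₀ : ℤ) * (M : ℤ) ^ 2 * (2 ^ a - m₀)) := (hmz.mul hMz.pow).mul hd
  have s1 : (8 : ℤ) ∣ (m₀ : ℤ) ^ 2 - 1 := Int.eight_dvd_sq_sub_one_of_odd hmz
  have s2 : (8 : ℤ) ∣ (M : ℤ) ^ 2 - 1 := Int.eight_dvd_sq_sub_one_of_odd hMz
  have h8 : (8 : ℤ) ∣ ((m₀ : ℤ) * (M : ℤ) ^ 2 * (2 ^ a - m₀)) -
      (24 * (r : ℤ) + (2 ^ a * m₀ - 1)) := by
    obtain ⟨x, hx⟩ := s1
    obtain ⟨y, hy⟩ := s2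
    have e : ((m₀ : ℤ) * (M : ℤ) ^ 2 * (2 ^ a - m₀)) - (24 * (r : ℤ) + (2 ^ a * m₀ - 1)) =
        (m₀ : ℤ) * (2 ^ a - m₀) * ((M : ℤ) ^ 2 - 1) - ((m₀ : ℤ) ^ 2 - 1) - 24 * (r : ℤ) := by
      ring
    rw [e, hx, hy]
    exact ⟨(m₀ : ℤ) * (2 ^ a - m₀) * y - x - 3 * r, by ring⟩
  obtain ⟨t, ht, h⟩ := sq_sol _ _ hB h8 κ
  refine ⟨M * t, hM.mul ht, dvd_mul_right _ _, ?_⟩
  have e : (m₀ : ℤ) * ((M * t : ℕ) : ℤ) ^ 2 * (2 ^ a - m₀) =
      (m₀ : ℤ) * (M : ℤ) ^ 2 * (2 ^ a - m₀) * (t : ℤ) ^ 2 := by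
    push_cast
    ring
  rw [e]
  exact h

theorem Lead.pow {f : Om} {m : ℤ} (h : Lead f m) (k : ℕ) : Lead (f ^ k) (k * m) := by
  refine ⟨pow_ne_zero _ h.1, ?_⟩
  induction k with
  | zero => simp
  | succ k ih =>
    rw [pow_succ, HahnSeries.order_mul (pow_ne_zero _ h.1) h.1, ih, h.2]
    push_cast
    ring

theorem compO_pow (hRING : S_RING) (hDEL : S_DEL) {κ : ℕ} {ρ : OB ≃ₐ[kk] OB} {f g : Om}
    (h : CompO κ ρ f g) (k : ℕ) : CompO κ ρ (f ^ (k + 1)) (g ^ (k + 1)) := by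
  induction k with
  | zero =>
    rw [zero_add, pow_one, pow_one]
    exact h
  | succ k ih =>
    rw [pow_succ f, pow_succ g]
    exact (hRING hDEL κ ρ _ _ _ _ ih h).2.1

end FINGaux

open FINBaux FINGaux in
/-- the general form, with a solution `m'` of the congruence as a hypothesis; `a = 0` is allowed -/
theorem fing_gen (hSWAP : C_SWAP) (hEIM : C_EIMG) (hRING : S_RING) (hDEL : S_DEL) (hINJ : S_INJ)
    (hREL : S_REL) (hGAB : S_GABG) (a m₀ : ℕ) (h0 : m₀ ≠ 0) (hmo : Odd m₀) (hlt : 2 ^ a < m₀)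
    (κ M r m' : ℕ) (hm'o : Odd m') (hMm' : M ∣ m')
    (hmod : ((m₀ : ℤ) * (m' : ℤ) ^ 2 * (2 ^ a - m₀)) ≡ 24 * (r : ℤ) + (2 ^ a * m₀ - 1)
      [ZMOD 2 ^ (κ + 3)]) :
    ∃ n : ℕ, n ≡ r [MOD 2 ^ κ * M] ∧ coeff n (Pg a m₀ h0) ≠ 0 := by
  by_contra hcon
  push Not at hcon
  have hdiv : (2 : ℤ) ^ (κ + 3) ∣
      ((m₀ : ℤ) * (m' : ℤ) ^ 2 * (2 ^ a - m₀)) - (24 * (r : ℤ) + (2 ^ a * m₀ - 1)) :=
    hmod.symm.dvd
  have hm'pos : 0 < m' := hm'o.pos
  have hm0pos : 0 < m₀ := hmo.pos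
  set M' : ℕ := m₀ * m' with hM'
  have hM'o : Odd M' := hmo.mul hm'o
  have hM'pos : 0 < M' := hM'o.pos
  have hmM' : m₀ ∣ M' := Dvd.intro _ rfl
  have hMM' : M ∣ M' := hMm'.mul_left m₀
  set A : ℤ := (2 ^ a * m₀ - 1 : ℤ) with hA
  set N0 : ℤ := (m₀ : ℤ) * (m' : ℤ) ^ 2 * (2 ^ a - m₀) with hN0
  have hclass : ((N0 : ℤ) : ZMod (2 ^ (κ + 3))) =
      ((24 * (r : ℤ) + A : ℤ) : ZMod (2 ^ (κ + 3))) := by
    rw [ZMod.intCast_eq_intCast_iff_dvd_sub]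
    have h1 : (24 * (r : ℤ) + A) - N0 = -(N0 - (24 * (r : ℤ) + A)) := by ring
    rw [h1, dvd_neg]
    push_cast
    exact hdiv
  obtain ⟨ρ, hρ1, hρ2⟩ := hSWAP (κ + 3) M' hM'o
  obtain ⟨ζ, hζ⟩ := exists_root (3 * M') ((by decide : Odd 3).mul hM'o)
  have hζ0 : ζ ≠ 0 := hζ.ne_zero (by positivity)
  have key := fun t : ℕ => hEIM (κ + 3) M' m₀ hM'o hmM' ρ hρ1 (ζ ^ t)
    (by rw [← pow_mul, mul_comm, pow_mul, hζ.pow_eq_one, one_pow])
  choose c1 c2 i1 i2 s hc1 hc2 hs hi1 hi12 hs1 he1 he2 hD1 using key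
  have hi1pos : ∀ t, 0 < i1 t := by
    intro t
    rcases Nat.eq_zero_or_pos (i1 t) with h | h
    · have h1 := hi1 t
      rw [h, zero_mul] at h1
      have : 0 < M' * M' := by positivity
      omega
    · exact h
  have hi2pos : ∀ t, 0 < i2 t := by
    intro t
    rcases Nat.eq_zero_or_pos (i2 t) with h | h
    · have h1 := hi12 t
      have h2 := hi1pos t
      rw [h, mul_zero] at h1
      omega
    · exact h
  -- the relation
  have hrel := hREL κ M' r A (Pg a m₀ h0) (fun c => eO (c ^ m₀) m₀ ^ 2 ^ a / eO c 1) ζ hM'o hζ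
    (by
      intro n hn
      exact hcon n (hn.of_dvd (Nat.mul_dvd_mul_left _ hMM')))
    (by
      intro c hc n
      exact hGAB a m₀ h0 c hc n)
  -- the images
  set g' : ℕ → Om := fun t => eO (c2 t) (i2 t) ^ 2 ^ a / eO (c1 t) (i1 t) with hg'
  obtain ⟨b, hb⟩ : ∃ b : ℕ, 2 ^ a = b + 1 := ⟨2 ^ a - 1, by
    have : 0 < 2 ^ a := by positivity
    omega⟩
  have himg : ∀ t : ℕ, CompO (κ + 3) ρ (eO ((ζ ^ t) ^ m₀) m₀ ^ 2 ^ a / eO (ζ ^ t) 1) (g' t) := by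
    intro t
    have h1 := compO_pow hRING hDEL (he2 t) b
    have h2 := (hRING hDEL (κ + 3) ρ _ _ _ _ (he1 t) (he1 t)).2.2.1
      (lead_eO _ (pow_ne_zero _ hζ0) 1 one_pos).1
    have h3 := (hRING hDEL (κ + 3) ρ _ _ _ _ h1 h2).2.1
    rw [hg']
    simp only [div_eq_mul_inv, hb]
    exact h3
  have hrel2 : ∑ t ∈ Finset.range M', HahnSeries.C (ζ ^ (-(t : ℤ) * (24 * (r : ℤ) + A))) *
      prO (κ + 3) ((24 * (r : ℤ) + A : ℤ) : ZMod (2 ^ (κ + 3))) (g' t) = 0 := by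
    have h1 := congrArg ρ hrel
    rw [map_zero, map_sum] at h1
    have h2 : io' (∑ t ∈ Finset.range M', HahnSeries.C (ζ ^ (-(t : ℤ) * (24 * (r : ℤ) + A))) *
      prO (κ + 3) ((24 * (r : ℤ) + A : ℤ) : ZMod (2 ^ (κ + 3))) (g' t)) = 0 := by
      rw [map_sum, ← h1]
      refine Finset.sum_congr rfl fun t _ => ?_
      rw [map_mul, map_mul, fix_C, himg t]
    exact (map_eq_zero_iff io' io'.injective).mp h2
  have hlead : ∀ t : ℕ, Lead (g' t) (((2 ^ a : ℕ) : ℤ) * i2 t - i1 t) := by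
    intro t
    rw [hg']
    exact (Lead.pow (lead_eO _ (hc2 t) _ (hi2pos t)) (2 ^ a)).div
      (lead_eO _ (hc1 t) _ (hi1pos t))
  -- vertices with the largest exponent
  have hvert : ∀ t : ℕ, c1 t ^ 3 = 1 → i1 t = M' * M' → (ζ ^ t) ^ 3 = 1 := by
    intro t hc hi
    have h1 := (hRING hDEL (κ + 3) ρ _ _ _ _ (hD1 t) (hD1 t)).2.2.2
    have h2 := (hRING hDEL (κ + 3) ρ _ _ _ _ hρ2 hρ2).2.2.2
    rw [hc, hi, ← mul_assoc, ← h2] at h1
    have h3 := io'.injective (ρ.injective h1)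
    exact (hINJ _ _ _ _ (pow_ne_zero _ (pow_ne_zero _ hζ0)) one_ne_zero (by norm_num)
      (by norm_num) h3).1
  have hzero : i1 0 = M' * M' := by
    have h1 := (hRING hDEL (κ + 3) ρ _ _ _ _ (hD1 0) (hD1 0)).2.2.2
    have h2 := (hRING hDEL (κ + 3) ρ _ _ _ _ hρ2 hρ2).2.2.2
    rw [pow_zero, one_pow, h2] at h1
    have h3 := io'.injective h1
    have h4 := hINJ _ _ _ _ one_ne_zero (pow_ne_zero _ (hc1 0)) (by positivity)
      (Nat.mul_pos (by norm_num) (hi1pos 0)) h3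
    have h5 := h4.2
    rw [mul_assoc] at h5
    exact (Nat.eq_of_mul_eq_mul_left (by norm_num) h5).symm
  -- if `i1 t` is maximal then `s t = 1`
  have hsone : ∀ t : ℕ, i1 t = M' * M' → s t = 1 := by
    intro t h8
    have h5 := hi1 t
    rw [h8] at h5
    have h9 : s t ^ 2 = 1 := by
      have h10 : (M' * M') * s t ^ 2 = (M' * M') * 1 := by rw [h5, mul_one]
      exact Nat.eq_of_mul_eq_mul_left (by positivity) h10
    rcases Nat.pow_eq_one.mp h9 with h | h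
    · exact h
    · omega
  have hlt' : (2 : ℤ) ^ a < m₀ := by exact_mod_cast hlt
  -- the coefficient at N0
  have hco := congrArg (fun f : Om => f.coeff N0) hrel2
  simp only [HahnSeries.coeff_sum, coeff_CC, HahnSeries.coeff_zero] at hco
  have hpr : ∀ t : ℕ, (prO (κ + 3) ((24 * (r : ℤ) + A : ℤ) : ZMod (2 ^ (κ + 3))) (g' t)).coeff N0 =
      (g' t).coeff N0 := by
    intro t
    show (if (N0 : ZMod (2 ^ (κ + 3))) = ((24 * (r : ℤ) + A : ℤ) : ZMod (2 ^ (κ + 3))) then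
      (g' t).coeff N0 else 0) = _
    rw [if_pos hclass]
  rw [Finset.sum_eq_single 0] at hco
  · rw [hpr] at hco
    have h0' : Lead (g' 0) N0 := by
      have h1 := hlead 0
      have h2 : ((2 ^ a : ℕ) : ℤ) * i2 0 - i1 0 = N0 := by
        have h3 := (hs1 0 (hsone 0 hzero)).2
        rw [hzero, hM'] at h3
        have h4 : i2 0 = m₀ * m' ^ 2 := by
          have h5 : m₀ * i2 0 = m₀ * (m₀ * m' ^ 2) := by rw [h3]; ring
          exact Nat.eq_of_mul_eq_mul_left hm0pos h5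
        rw [h4, hzero, hM', hN0]
        push_cast
        ring
      rw [← h2]
      exact h1
    have h1 := h0'.coeff_ne
    rcases mul_eq_zero.mp hco with h2 | h2
    · exact zpow_ne_zero _ hζ0 h2
    · exact h1 h2
  · intro t ht ht0'
    rw [hpr]
    have h1 : N0 < ((2 ^ a : ℕ) : ℤ) * i2 t - i1 t := by
      have h5 := hi1 t
      have hspos : 0 < s t := Nat.pos_of_dvd_of_pos (hs t) hM'pos
      have h6 : i1 t ≤ M' * M' := by
        rw [← h5]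
        exact Nat.le_mul_of_pos_right _ (by positivity)
      have h7 : i1 t ≠ M' * M' := by
        intro h8
        have h11 := hvert t (hs1 t (hsone t h8)).1 h8
        rw [← pow_mul] at h11
        have h12 : 3 * M' ∣ t * 3 := hζ.dvd_of_pow_eq_one _ h11
        have h13 : M' ∣ t := by
          rw [mul_comm t 3] at h12
          exact Nat.dvd_of_mul_dvd_mul_left (by norm_num) h12
        have h14 := Finset.mem_range.mp ht
        exact ht0' (Nat.eq_zero_of_dvd_of_lt h13 h14)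
      have h8 : i1 t < M' * M' := lt_of_le_of_ne h6 h7
      have h9 : (i1 t : ℤ) < ((m₀ : ℤ) * m') * ((m₀ : ℤ) * m') := by
        rw [hM'] at h8
        exact_mod_cast h8
      have h10 : (i1 t : ℤ) ≤ (m₀ : ℤ) * i2 t := by exact_mod_cast hi12 t
      have h11 : (0 : ℤ) < m₀ := by exact_mod_cast hm0pos
      have h12 : (0 : ℤ) < 2 ^ a := by positivity
      have h13 : (m₀ : ℤ) * N0 < (m₀ : ℤ) * (((2 ^ a : ℕ) : ℤ) * i2 t - i1 t) := by
        have e1 : (m₀ : ℤ) * N0 = -((m₀ : ℤ) - 2 ^ a) * (((m₀ : ℤ) * m') * ((m₀ : ℤ) * m')) := by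
          rw [hN0]
          ring
        have e2 : (m₀ : ℤ) * (((2 ^ a : ℕ) : ℤ) * i2 t - i1 t) =
            2 ^ a * ((m₀ : ℤ) * i2 t) - m₀ * i1 t := by
          push_cast
          ring
        rw [e1, e2]
        have h14 : (2 : ℤ) ^ a * i1 t ≤ 2 ^ a * ((m₀ : ℤ) * i2 t) :=
          mul_le_mul_of_nonneg_left h10 h12.le
        have h15 : ((m₀ : ℤ) - 2 ^ a) * i1 t <
            ((m₀ : ℤ) - 2 ^ a) * (((m₀ : ℤ) * m') * ((m₀ : ℤ) * m')) :=
          mul_lt_mul_of_pos_left h9 (by linarith)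
        linarith
      exact lt_of_mul_lt_mul_left h13 h11.le
    rw [(hlead t).coeff_lt h1, mul_zero]
  · intro h
    exact absurd (Finset.mem_range.mpr hM'pos) h

open FINGaux in
theorem fing : S_FING := by
  intro hSWAP hEIM hRING hDEL hINJ hREL hGAB a m₀ h0 ha hmo hlt κ M r hM
  obtain ⟨m', hm'o, hMm', hdiv⟩ := choose_m a m₀ M r κ ha hmo hM
  exact fing_gen hSWAP hEIM hRING hDEL hINJ hREL hGAB a m₀ h0 hmo hlt κ M r m' hm'o hMm'
    (Int.modEq_iff_dvd.2 hdiv).symm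

end Pool.Agent.R836.RD
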