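import Pool.Agent.R836.RD.Defs

/-! GAB: the two functions as Laurent series. -/

set_option autoImplicit false

namespace Pool.Agent.R836.RD

open PowerSeries Pool.Agent.TH693.QQ Pool.Agent.H397R2.PP Pool.Agent.Y627.PT
open Pool.Agent.TH693.PP (E P)

namespace GabP

theorem pt_coeff (c : kk) (j : ℕ) (hj : j ≠ 0) (F : Sk) (m : ℕ) :
    coeff m (pt c j F) = if j ∣ m then c ^ (m / j) * coeff (m / j) F else 0 := by
  unfold pt
  rw [dif_pos hj]
  show coeff m (PowerSeries.expand j hj (PowerSeries.rescale c F)) = _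
  rw [PowerSeries.coeff_expand]
  by_cases h : j ∣ m
  · rw [if_pos h, if_pos h, PowerSeries.coeff_rescale]
  · rw [if_neg h, if_neg h]

theorem ev_coeff_nat (c : kk) (j : ℕ) (hj : j ≠ 0) (f : (ZMod 2)⟦X⟧) (m : ℕ) :
    (ev c j f).coeff (m : ℤ) = if j ∣ m then c ^ (m / j) *
      algebraMap (ZMod 2) kk (coeff (m / j) f) else 0 := by
  have h : (ev c j f).coeff (m : ℤ) = coeff m (pt c j (ik f)) :=
    HahnSeries.ofPowerSeries_apply_coeff _ _
  rw [h, pt_coeff c j hj]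
  by_cases h2 : j ∣ m
  · rw [if_pos h2, if_pos h2]
    congr 1
  · rw [if_neg h2, if_neg h2]

theorem ev_coeff_neg (c : kk) (j : ℕ) (f : (ZMod 2)⟦X⟧) (n : ℤ) (hn : n < 0) :
    (ev c j f).coeff n = 0 := by
  show (HahnSeries.ofPowerSeries ℤ kk (pt c j (ik f))).coeff n = 0
  rw [HahnSeries.ofPowerSeries_apply]
  apply HahnSeries.embDomain_of_notMem_range
  rintro ⟨m, hm⟩
  have h : ((m : ℕ) : ℤ) = n := by simpa using hm
  omega

theorem ev_ex3 (c : kk) (h3 : (3 : ℕ) ≠ 0) (f : (ZMod 2)⟦X⟧) :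
    ev c 1 (ex 3 h3 f) = ev (c ^ 3) 3 f := by
  ext n
  rcases lt_or_ge n 0 with hn | hn
  · rw [ev_coeff_neg c 1 _ n hn, ev_coeff_neg (c ^ 3) 3 _ n hn]
  · obtain ⟨m, rfl⟩ := Int.eq_ofNat_of_zero_le hn
    rw [ev_coeff_nat c 1 one_ne_zero, ev_coeff_nat (c ^ 3) 3 (by norm_num), if_pos (one_dvd m),
      Nat.div_one]
    unfold ex
    rw [PowerSeries.coeff_expand]
    by_cases h : 3 ∣ m
    · rw [if_pos h, if_pos h]
      obtain ⟨k, rfl⟩ := h
      rw [Nat.mul_div_cancel_left k (by norm_num), pow_mul]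
    · rw [if_neg h, if_neg h, map_zero, mul_zero]

theorem ev_ex24 (c : kk) (h24 : (24 : ℕ) ≠ 0) (f : (ZMod 2)⟦X⟧) (n : ℤ) :
    (ev c 1 (ex 24 h24 f)).coeff n = if 24 ∣ n ∧ 0 ≤ n then
      c ^ n * algebraMap (ZMod 2) kk (coeff (n / 24).toNat f) else 0 := by
  rcases lt_or_ge n 0 with hn | hn
  · rw [ev_coeff_neg c 1 _ n hn, if_neg (by omega)]
  · obtain ⟨m, rfl⟩ := Int.eq_ofNat_of_zero_le hn
    rw [ev_coeff_nat c 1 one_ne_zero, if_pos (one_dvd m), Nat.div_one]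
    unfold ex
    rw [PowerSeries.coeff_expand]
    by_cases h : 24 ∣ m
    · rw [if_pos h, if_pos ⟨by exact_mod_cast h, hn⟩]
      obtain ⟨k, rfl⟩ := h
      rw [Nat.mul_div_cancel_left k (by norm_num)]
      have h1 : (((24 * k : ℕ) : ℤ) / 24).toNat = k := by
        push_cast
        rw [Int.mul_ediv_cancel_left _ (by norm_num)]
        simp
      rw [h1, zpow_natCast]
    · rw [if_neg h, if_neg, map_zero, mul_zero]
      rintro ⟨h1, _⟩
      exact h (by exact_mod_cast h1)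

theorem ev_X (c : kk) : ev c 1 (X : (ZMod 2)⟦X⟧) = HahnSeries.single (1 : ℤ) c := by
  ext n
  rcases lt_or_ge n 0 with hn | hn
  · rw [ev_coeff_neg c 1 _ n hn, HahnSeries.coeff_single_of_ne (by omega)]
  · obtain ⟨m, rfl⟩ := Int.eq_ofNat_of_zero_le hn
    rw [ev_coeff_nat c 1 one_ne_zero, if_pos (one_dvd m), Nat.div_one, PowerSeries.coeff_X]
    by_cases h : m = 1
    · subst h
      simp
    · rw [if_neg h, map_zero, mul_zero, HahnSeries.coeff_single_of_ne]
      intro h1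
      apply h
      exact_mod_cast h1

theorem coeff_one_Ee : coeff 1 Ee ≠ 0 := by
  have h1 : coeff 1 Ee = coeff 0 E := by
    unfold Ee
    rw [show (1 : ℕ) = 0 + 1 from rfl, PowerSeries.coeff_succ_X_mul]
    unfold ex
    rw [PowerSeries.coeff_expand, if_pos (dvd_zero _), Nat.zero_div]
  rw [h1]
  intro h2
  have h3 := congrArg (coeff 0) Pool.Agent.TH693.PP.P_mul_E
  rw [PowerSeries.coeff_zero_eq_constantCoeff_apply, map_mul,
    ← PowerSeries.coeff_zero_eq_constantCoeff_apply E, h2, mul_zero] at h3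
  simp at h3

theorem alg_ne (x : ZMod 2) (hx : x ≠ 0) : algebraMap (ZMod 2) kk x ≠ 0 := by
  intro h
  exact hx ((algebraMap (ZMod 2) kk).injective (by rw [h, map_zero]))

theorem eO_ne (c : kk) (hc : c ≠ 0) (j : ℕ) (hj : j ≠ 0) : eO c j ≠ 0 := by
  intro h
  have h1 : (eO c j).coeff (j : ℤ) = 0 := by rw [h]; rfl
  unfold eO at h1
  rw [ev_coeff_nat c j hj, if_pos (dvd_refl j), Nat.div_self (Nat.pos_of_ne_zero hj), pow_one] at h1
  rcases mul_eq_zero.1 h1 with h2 | h2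
  · exact hc h2
  · exact alg_ne _ coeff_one_Ee h2

end GabP

open GabP in
theorem gab : S_GAB := by
  rintro ⟨-, -, h3, h4, -⟩ c hc n
  have hc3 : c ^ 3 ≠ 0 := pow_ne_zero 3 hc
  have e3 := congrArg (ev c 1) h3
  have e4 := congrArg (ev c 1) h4
  rw [map_mul, map_mul, map_pow, ev_ex3, ev_X] at e3
  rw [map_mul, map_mul, map_pow, map_pow, ev_ex3, ev_X] at e4
  constructor
  · have h5 : eO c 1 ^ 2 / eO (c ^ 3) 3 =
        HahnSeries.single (-1 : ℤ) c⁻¹ * ev c 1 (ex 24 (by norm_num) Pa) := by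
      rw [div_eq_iff (eO_ne (c ^ 3) hc3 3 (by norm_num)), mul_assoc]
      unfold eO
      rw [e3, ← mul_assoc, HahnSeries.single_mul_single, inv_mul_cancel₀ hc, neg_add_cancel]
      show _ = (1 : Om) * _
      rw [one_mul]
    rw [h5]
    have h6 : n = (n + 1) + (-1) := by ring
    conv_lhs => rw [h6]
    rw [HahnSeries.coeff_single_mul_add, ev_ex24]
    have h7 : n - -1 = n + 1 := by ring
    rw [h7]
    by_cases h : 24 ∣ n + 1 ∧ 0 ≤ n + 1
    · rw [if_pos h, if_pos ⟨h.1, by omega⟩, zpow_add₀ hc, zpow_one]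
      field_simp
    · rw [if_neg h, if_neg (fun h' => h ⟨h'.1, by omega⟩), mul_zero]
  · have h5 : eO (c ^ 3) 3 ^ 2 / eO c 1 =
        HahnSeries.single (5 : ℤ) (c ^ 5) * ev c 1 (ex 24 (by norm_num) Pb) := by
      rw [div_eq_iff (eO_ne c hc 1 one_ne_zero)]
      unfold eO
      rw [← e4, HahnSeries.single_pow]
      norm_num
    rw [h5]
    have h6 : n = (n - 5) + 5 := by ring
    conv_lhs => rw [h6]
    rw [HahnSeries.coeff_single_mul_add, ev_ex24]
    by_cases h : 24 ∣ n - 5 ∧ 0 ≤ n - 5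
    · rw [if_pos h, if_pos ⟨h.1, by omega⟩, zpow_sub₀ hc]
      have h8 : c ^ (5 : ℤ) = c ^ 5 := by norm_cast
      rw [h8]
      field_simp
    · rw [if_neg h, if_neg (fun h' => h ⟨h'.1, by omega⟩), mul_zero]

end Pool.Agent.R836.RD
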