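import Pool.Agent.R836.RD.FINB
import Pool.Agent.R836.RD.GAB

set_option autoImplicit false

/-!
# The result for `1 / f_1 ^ t`, `t` odd
-/

namespace Pool.Agent.R836.RD

open PowerSeries Pool.Agent.TH693.QQ Pool.Agent.H397R2.PP Pool.Agent.H307R2.OP Pool.Agent.Y627.PT
open Pool.Agent.TH693.PP (E P)

open GabP in
theorem gabp (t : ℕ) (c : kk) (hc : c ≠ 0) (n : ℤ) :
    ((eO c 1)⁻¹ ^ t).coeff n = (if 24 ∣ n - (-(t : ℤ)) ∧ (-(t : ℤ)) ≤ n then
      c ^ n * algebraMap (ZMod 2) kk (coeff ((n - (-(t : ℤ))) / 24).toNat (P ^ t)) else 0) := by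
  have h1 : ex 24 (by norm_num) P * Ee = X := by
    unfold Ee
    rw [mul_left_comm, ← map_mul, Pool.Agent.TH693.PP.P_mul_E, map_one, mul_one]
  have h2 : ev c 1 (ex 24 (by norm_num) P) * eO c 1 = HahnSeries.single (1 : ℤ) c := by
    rw [← ev_X, ← h1, map_mul]
    rfl
  have h5 : (eO c 1)⁻¹ ^ t = HahnSeries.single (-(t : ℤ)) (c⁻¹ ^ t) *
      ev c 1 (ex 24 (by norm_num) (P ^ t)) := by
    have h0 := eO_ne c hc 1 one_ne_zero
    have h3 : (eO c 1)⁻¹ = HahnSeries.single (-1 : ℤ) c⁻¹ * ev c 1 (ex 24 (by norm_num) P) := by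
      rw [inv_eq_one_div, div_eq_iff h0, mul_assoc, h2, HahnSeries.single_mul_single,
        inv_mul_cancel₀ hc, neg_add_cancel]
      rfl
    have h4 : ev c 1 (ex 24 (by norm_num) (P ^ t)) = ev c 1 (ex 24 (by norm_num) P) ^ t := by
      rw [map_pow, map_pow]
    rw [h3, mul_pow, HahnSeries.single_pow, h4]
    congr 2
    simp
  rw [h5]
  have h6 : n = (n + t) + (-(t : ℤ)) := by ring
  conv_lhs => rw [h6]
  rw [HahnSeries.coeff_single_mul_add, ev_ex24]
  have h7 : n - -(t : ℤ) = n + t := by ring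
  rw [h7]
  by_cases h : 24 ∣ n + t ∧ 0 ≤ n + t
  · rw [if_pos h, if_pos ⟨h.1, by omega⟩, zpow_add₀ hc, zpow_natCast, inv_pow]
    field_simp
  · rw [if_neg h, if_neg (fun h' => h ⟨h'.1, by omega⟩), mul_zero]

open FINBaux in
theorem Lead_inv {f : Om} {m : ℤ} (h : Lead f m) : Lead f⁻¹ (-m) := by
  have h1 : Lead (1 : Om) 0 := ⟨one_ne_zero, HahnSeries.order_one⟩
  have h2 := h1.div h
  rw [one_div, zero_sub] at h2
  exact h2

open FINBaux in
theorem Lead_pow {f : Om} {m : ℤ} (h : Lead f m) (t : ℕ) : Lead (f ^ t) (t * m) := by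
  induction t with
  | zero =>
    rw [pow_zero, Nat.cast_zero, zero_mul]
    exact ⟨one_ne_zero, HahnSeries.order_one⟩
  | succ t ih =>
    rw [pow_succ, Nat.cast_succ, add_mul, one_mul]
    exact ih.mul h

theorem compO_pow (hR : S_RING) (hD : S_DEL) {κ : ℕ} {ρ : OB ≃ₐ[kk] OB} {f g : Om}
    (h : CompO κ ρ f g) (h1 : CompO κ ρ 1 1) (t : ℕ) : CompO κ ρ (f ^ t) (g ^ t) := by
  induction t with
  | zero => rw [pow_zero, pow_zero]; exact h1
  | succ t ih => rw [pow_succ, pow_succ]; exact (hR hD κ ρ _ _ _ _ ih h).2.1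

open FINBaux in
theorem finp (hSWAP : C_SWAP) (hEIM : C_EIM) (hRING : S_RING) (hDEL : S_DEL) (hINJ : S_INJ)
    (hREL : S_REL) (t : ℕ) (ht : Odd t) (κ M r : ℕ) (hM : Odd M) :
    ∃ n : ℕ, n ≡ r [MOD 2 ^ κ * M] ∧ coeff n (P ^ t) ≠ 0 := by
  by_contra hcon
  push Not at hcon
  have htpos : 0 < t := ht.pos
  -- the number m'
  obtain ⟨x, hx, hx2⟩ := sq_lift (9 * t * (M : ℤ) ^ 2) (t - 24 * (r : ℤ))
    (by
      have h1 : Odd (M : ℤ) := by exact_mod_cast hM
      have h2 : Odd (t : ℤ) := by exact_mod_cast ht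
      exact ((by decide : Odd (9 : ℤ)).mul h2).mul h1.pow)
    (by
      obtain ⟨k, hk⟩ := hM
      rcases Nat.even_or_odd' k with ⟨u, hu | hu⟩
      · refine ⟨18 * t * (u : ℤ) ^ 2 + 9 * t * u + t + 3 * r, ?_⟩
        rw [hk, hu]
        push_cast
        ring
      · refine ⟨18 * t * (u : ℤ) ^ 2 + 27 * t * u + 10 * t + 3 * r, ?_⟩
        rw [hk, hu]
        push_cast
        ring) κ
  set t0 : ℕ := x.natAbs with ht0
  have ht0o : Odd t0 := by
    rw [ht0, Int.natAbs_odd]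
    exact hx
  set m' : ℕ := M * t0 with hm'
  have hm'o : Odd m' := hM.mul ht0o
  have hm'pos : 0 < m' := hm'o.pos
  set M' : ℕ := 3 * m' with hM'
  have hM'o : Odd M' := (by decide : Odd 3).mul hm'o
  have hM'pos : 0 < M' := hM'o.pos
  have h3M' : 3 ∣ M' := Dvd.intro _ rfl
  have hMM' : M ∣ M' := ⟨3 * t0, by rw [hM', hm']; ring⟩
  set N0 : ℤ := -(t * (M' : ℤ) ^ 2) with hN0
  have hclass : ((N0 : ℤ) : ZMod (2 ^ (κ + 3))) = ((24 * (r : ℤ) + (-(t : ℤ)) : ℤ) : ZMod (2 ^ (κ + 3))) := by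
    rw [ZMod.intCast_eq_intCast_iff_dvd_sub]
    have h1 : (24 * (r : ℤ) + (-(t : ℤ))) - N0 = 9 * t * (M : ℤ) ^ 2 * x ^ 2 - (t - 24 * (r : ℤ)) := by
      rw [hN0, hM', hm', ht0]
      push_cast
      rw [mul_pow, mul_pow, sq_abs]
      ring
    rw [h1]
    push_cast
    exact hx2
  obtain ⟨ρ, hρ1, hρ2⟩ := hSWAP (κ + 3) M' hM'o
  obtain ⟨ζ, hζ⟩ := exists_root (3 * M') ((by decide : Odd 3).mul hM'o)
  have hζ0 : ζ ≠ 0 := hζ.ne_zero (by positivity)
  have key := fun t : ℕ => hEIM (κ + 3) M' hM'o h3M' ρ hρ1 (ζ ^ t)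
    (by rw [← pow_mul, mul_comm, pow_mul, hζ.pow_eq_one, one_pow])
  choose c1 c2 i1 i2 s s' hc1 hc2 hs hs' hi1 hi2 hor hs1 hs1' he1 he2 hD1 hD2 using key
  have hi1pos : ∀ t, 0 < i1 t := by
    intro t
    rcases Nat.eq_zero_or_pos (i1 t) with h | h
    · have h1 := hi1 t
      rw [h, zero_mul] at h1
      have : 0 < M' * M' := by positivity
      omega
    · exact h
  -- the relation
  have hrel := hREL κ M' r (-(t : ℤ)) (P ^ t) (fun c => (eO c 1)⁻¹ ^ t) ζ hM'o hζ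
    (by
      intro n hn
      exact hcon n (hn.of_dvd (Nat.mul_dvd_mul_left _ hMM')))
    (by
      intro c hc n
      exact gabp t c hc n)
  -- the images
  set g' : ℕ → Om := fun u => (eO (c1 u) (i1 u))⁻¹ ^ t with hg'
  have hone : CompO (κ + 3) ρ 1 1 := by
    have h2 := (hRING hDEL (κ + 3) ρ _ _ _ _ (he1 0) (he1 0)).2.2.1
      (lead_eO _ (pow_ne_zero _ hζ0) 1 one_pos).1
    have h3 := (hRING hDEL (κ + 3) ρ _ _ _ _ (he1 0) h2).2.1
    rw [mul_inv_cancel₀ (lead_eO _ (pow_ne_zero _ hζ0) 1 one_pos).1,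
      mul_inv_cancel₀ (lead_eO _ (hc1 0) _ (hi1pos 0)).1] at h3
    exact h3
  have himg : ∀ u : ℕ, CompO (κ + 3) ρ ((eO (ζ ^ u) 1)⁻¹ ^ t) (g' u) := by
    intro u
    have h2 := (hRING hDEL (κ + 3) ρ _ _ _ _ (he1 u) (he1 u)).2.2.1
      (lead_eO _ (pow_ne_zero _ hζ0) 1 one_pos).1
    exact compO_pow hRING hDEL h2 hone t
  have hrel2 : ∑ u ∈ Finset.range M', HahnSeries.C (ζ ^ (-(u : ℤ) * (24 * (r : ℤ) + (-(t : ℤ))))) *
      prO (κ + 3) ((24 * (r : ℤ) + (-(t : ℤ)) : ℤ) : ZMod (2 ^ (κ + 3))) (g' u) = 0 := by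
    have h1 := congrArg ρ hrel
    rw [map_zero, map_sum] at h1
    have h2 : io' (∑ u ∈ Finset.range M', HahnSeries.C (ζ ^ (-(u : ℤ) * (24 * (r : ℤ) + (-(t : ℤ))))) *
      prO (κ + 3) ((24 * (r : ℤ) + (-(t : ℤ)) : ℤ) : ZMod (2 ^ (κ + 3))) (g' u)) = 0 := by
      rw [map_sum, ← h1]
      refine Finset.sum_congr rfl fun u _ => ?_
      rw [map_mul, map_mul, fix_C, himg u]
    exact (map_eq_zero_iff io' io'.injective).mp h2
  have hlead : ∀ u : ℕ, Lead (g' u) ((t : ℤ) * (-(i1 u : ℤ))) := by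
    intro u
    exact Lead_pow (Lead_inv (lead_eO _ (hc1 u) _ (hi1pos u))) t
  -- vertices with the largest exponent
  have hvert : ∀ t : ℕ, c1 t ^ 3 = 1 → i1 t = M' * M' → (ζ ^ t) ^ 3 = 1 := by
    intro t hc hi
    have h1 := (hRING hDEL (κ + 3) ρ _ _ _ _ (hD1 t) (hD1 t)).2.2.2
    have h2 := (hRING hDEL (κ + 3) ρ _ _ _ _ hρ2 hρ2).2.2.2
    rw [hc, hi, ← mul_assoc, ← h2] at h1
    have h3 := io'.injective (ρ.injective h1)
    exact (hINJ _ _ _ _ (pow_ne_zero _ (pow_ne_zero _ hζ0)) one_ne_zero (by norm_num)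
      (by norm_num) h3).1
  have hzero : i1 0 = M' * M' := by
    have h1 := (hRING hDEL (κ + 3) ρ _ _ _ _ (hD1 0) (hD1 0)).2.2.2
    have h2 := (hRING hDEL (κ + 3) ρ _ _ _ _ hρ2 hρ2).2.2.2
    rw [pow_zero, one_pow, h2] at h1
    have h3 := io'.injective h1
    have h4 := hINJ _ _ _ _ one_ne_zero (pow_ne_zero _ (hc1 0)) (by positivity)
      (Nat.mul_pos (by norm_num) (hi1pos 0)) h3
    have h5 := h4.2
    rw [mul_assoc] at h5
    exact (Nat.eq_of_mul_eq_mul_left (by norm_num) h5).symm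
  -- the coefficient at N0
  have hco := congrArg (fun f : Om => f.coeff N0) hrel2
  simp only [HahnSeries.coeff_sum, coeff_CC, HahnSeries.coeff_zero] at hco
  have hpr : ∀ u : ℕ, (prO (κ + 3) ((24 * (r : ℤ) + (-(t : ℤ)) : ℤ) : ZMod (2 ^ (κ + 3))) (g' u)).coeff N0 =
      (g' u).coeff N0 := by
    intro u
    show (if (N0 : ZMod (2 ^ (κ + 3))) = ((24 * (r : ℤ) + (-(t : ℤ)) : ℤ) : ZMod (2 ^ (κ + 3))) then
      (g' u).coeff N0 else 0) = _
    rw [if_pos hclass]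
  rw [Finset.sum_eq_single 0] at hco
  · rw [hpr] at hco
    have h0 : Lead (g' 0) N0 := by
      have h1 := hlead 0
      have h2 : (t : ℤ) * (-(i1 0 : ℤ)) = N0 := by
        rw [hzero, hN0]
        push_cast
        ring
      rw [← h2]
      exact h1
    have h1 := h0.coeff_ne
    rcases mul_eq_zero.mp hco with h2 | h2
    · exact zpow_ne_zero _ hζ0 h2
    · exact h1 h2
  · intro u hu hu0'
    rw [hpr]
    have h1 : N0 < (t : ℤ) * (-(i1 u : ℤ)) := by
      have h5 := hi1 u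
      have hspos : 0 < s u := Nat.pos_of_dvd_of_pos (hs u) hM'pos
      have h6 : i1 u ≤ M' * M' := by
        rw [← h5]
        exact Nat.le_mul_of_pos_right _ (by positivity)
      have h7 : i1 u ≠ M' * M' := by
        intro h8
        rw [h8] at h5
        have h9 : s u ^ 2 = 1 := by
          have h10 : (M' * M') * s u ^ 2 = (M' * M') * 1 := by rw [h5, mul_one]
          exact Nat.eq_of_mul_eq_mul_left (by positivity) h10
        have h10 : s u = 1 := by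
          rcases Nat.pow_eq_one.mp h9 with h | h
          · exact h
          · omega
        have h11 := hvert u (hs1 u h10) h8
        rw [← pow_mul] at h11
        have h12 : 3 * M' ∣ u * 3 := hζ.dvd_of_pow_eq_one _ h11
        have h13 : M' ∣ u := by
          rw [mul_comm u 3] at h12
          exact Nat.dvd_of_mul_dvd_mul_left (by norm_num) h12
        have h14 := Finset.mem_range.mp hu
        exact hu0' (Nat.eq_zero_of_dvd_of_lt h13 h14)
      have h8 : i1 u < M' * M' := lt_of_le_of_ne h6 h7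
      have h9 : (i1 u : ℤ) < (M' : ℤ) ^ 2 := by
        have : (i1 u : ℤ) < ((M' * M' : ℕ) : ℤ) := by exact_mod_cast h8
        push_cast at this
        rw [sq]
        exact this
      have h10 : (0 : ℤ) < t := by exact_mod_cast htpos
      rw [hN0]
      nlinarith
    rw [(hlead u).coeff_lt h1, mul_zero]
  · intro h
    exact absurd (Finset.mem_range.mpr hM'pos) h

end Pool.Agent.R836.RD
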