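import Pool.Agent.R836.RD.Defs2
import Pool.Agent.R836.RD.GAB

/-! GABG: the function `e(p ^ m₀) ^ (2 ^ a) / e(p)` as a Laurent series. -/

set_option autoImplicit false

namespace Pool.Agent.R836.RD

open PowerSeries Pool.Agent.TH693.QQ Pool.Agent.H397R2.PP Pool.Agent.Y627.PT
open Pool.Agent.TH693.PP (E P)

namespace GabG

open GabP

theorem ev_exm (c : kk) (m : ℕ) (hm : m ≠ 0) (f : (ZMod 2)⟦X⟧) :
    ev c 1 (ex m hm f) = ev (c ^ m) m f := by
  ext n
  rcases lt_or_ge n 0 with hn | hn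
  · rw [ev_coeff_neg c 1 _ n hn, ev_coeff_neg (c ^ m) m _ n hn]
  · obtain ⟨k, rfl⟩ := Int.eq_ofNat_of_zero_le hn
    rw [ev_coeff_nat c 1 one_ne_zero, ev_coeff_nat (c ^ m) m hm, if_pos (one_dvd k),
      Nat.div_one]
    unfold ex
    rw [PowerSeries.coeff_expand]
    by_cases h : m ∣ k
    · rw [if_pos h, if_pos h]
      obtain ⟨t, rfl⟩ := h
      rw [Nat.mul_div_cancel_left t (Nat.pos_of_ne_zero hm), pow_mul]
    · rw [if_neg h, if_neg h, map_zero, mul_zero]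

theorem ex_comm (m k : ℕ) (hm : m ≠ 0) (hk : k ≠ 0) (f : (ZMod 2)⟦X⟧) :
    ex m hm (ex k hk f) = ex k hk (ex m hm f) := by
  ext n
  unfold ex
  simp only [PowerSeries.coeff_expand]
  by_cases h1 : m ∣ n
  · by_cases h2 : k ∣ n / m
    · have h3 : m * k ∣ n := by
        obtain ⟨t, ht⟩ := h2
        refine ⟨t, ?_⟩
        rw [mul_assoc, ← ht, Nat.mul_div_cancel' h1]
      have h4 : k ∣ n := (dvd_mul_left k m).trans h3
      have h5 : m ∣ n / k := by
        obtain ⟨t, rfl⟩ := h3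
        refine ⟨t, ?_⟩
        rw [mul_comm m k, mul_assoc, Nat.mul_div_cancel_left _ (Nat.pos_of_ne_zero hk)]
      rw [if_pos h1, if_pos h2, if_pos h4, if_pos h5, Nat.div_div_eq_div_mul,
        Nat.div_div_eq_div_mul, mul_comm m k]
    · rw [if_pos h1, if_neg h2]
      by_cases h4 : k ∣ n
      · rw [if_pos h4, if_neg]
        intro h5
        apply h2
        obtain ⟨s, rfl⟩ := h4
        rw [Nat.mul_div_cancel_left _ (Nat.pos_of_ne_zero hk)] at h5
        obtain ⟨t, rfl⟩ := h5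
        refine ⟨t, ?_⟩
        rw [mul_left_comm, Nat.mul_div_cancel_left _ (Nat.pos_of_ne_zero hm)]
      · rw [if_neg h4]
  · rw [if_neg h1]
    by_cases h4 : k ∣ n
    · rw [if_pos h4, if_neg]
      intro h5
      apply h1
      obtain ⟨s, rfl⟩ := h4
      rw [Nat.mul_div_cancel_left _ (Nat.pos_of_ne_zero hk)] at h5
      exact h5.mul_left k
    · rw [if_neg h4]

/-- the identity of power series -/
theorem ident (a m₀ : ℕ) (h : m₀ ≠ 0) :
    X ^ (2 ^ a * m₀ - 1) * ex 24 (by norm_num) (Pg a m₀ h) * Ee = (ex m₀ h Ee) ^ 2 ^ a := by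
  have h1 : 1 ≤ 2 ^ a * m₀ := Nat.one_le_iff_ne_zero.2 (mul_ne_zero (by positivity) h)
  unfold Ee Pg
  have hX : ex m₀ h (X : (ZMod 2)⟦X⟧) = X ^ m₀ := by
    unfold ex
    exact PowerSeries.expand_X _ _
  rw [map_mul (ex m₀ h), hX, map_mul (ex 24 (by norm_num)), map_pow, mul_pow, ← pow_mul,
    mul_comm m₀ (2 ^ a), ex_comm m₀ 24 h (by norm_num) E]
  have h2 : ex 24 (by norm_num) P * ex 24 (by norm_num) E = 1 := by
    rw [← map_mul, Pool.Agent.TH693.PP.P_mul_E, map_one]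
  have h3 : (X : (ZMod 2)⟦X⟧) ^ (2 ^ a * m₀) = X ^ (2 ^ a * m₀ - 1) * X := by
    rw [← pow_succ, Nat.sub_add_cancel h1]
  rw [h3]
  calc _ = X ^ (2 ^ a * m₀ - 1) * X * (ex 24 (by norm_num) (ex m₀ h E)) ^ 2 ^ a *
        (ex 24 (by norm_num) P * ex 24 (by norm_num) E) := by ring
    _ = _ := by rw [h2, mul_one]

end GabG

open GabP GabG in
theorem gabg : S_GABG := by
  intro a m₀ h c hc n
  have h1 : 1 ≤ 2 ^ a * m₀ := Nat.one_le_iff_ne_zero.2 (mul_ne_zero (by positivity) h)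
  have e := congrArg (ev c 1) (ident a m₀ h)
  rw [map_mul, map_mul, map_pow, map_pow, ev_exm c m₀ h, ev_X] at e
  have h5 : eO (c ^ m₀) m₀ ^ 2 ^ a / eO c 1 =
      HahnSeries.single ((2 ^ a * m₀ - 1 : ℕ) : ℤ) (c ^ (2 ^ a * m₀ - 1)) *
        ev c 1 (ex 24 (by norm_num) (Pg a m₀ h)) := by
    rw [div_eq_iff (eO_ne c hc 1 one_ne_zero)]
    unfold eO
    rw [← e, HahnSeries.single_pow]
    simp
  have hN : ((2 ^ a * m₀ - 1 : ℕ) : ℤ) = 2 ^ a * m₀ - 1 := by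
    rw [Nat.cast_sub h1]
    push_cast
    ring
  rw [h5, ← hN]
  set N : ℕ := 2 ^ a * m₀ - 1 with hNdef
  have h6 : n = (n - N) + N := by ring
  conv_lhs => rw [h6]
  rw [HahnSeries.coeff_single_mul_add, ev_ex24]
  by_cases h' : 24 ∣ n - N ∧ 0 ≤ n - N
  · rw [if_pos h', if_pos ⟨h'.1, by omega⟩, zpow_sub₀ hc, zpow_natCast]
    field_simp
  · rw [if_neg h', if_neg (fun h'' => h' ⟨h''.1, by omega⟩), mul_zero]

end Pool.Agent.R836.RD
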