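import Pool.Agent.R836.RD.Defs

/-! # Piece GOOD: the parts of `D` lie in a tower of quadratic extensions -/

set_option autoImplicit false

namespace Pool.Agent.R836.RD

open PowerSeries Pool.Agent.TH693.QQ Pool.Agent.H397R2.PP Pool.Agent.H307R2.OP Pool.Agent.Y627.PT
open Pool.Agent.TH693.PP (E P)

namespace GoodAux

/-- good elements -/
def Gd (L : ℕ) (x : OB) : Prop := ∀ U : OB ≃ₐ[kk] OB, U (dB 1 L) = dB 1 L →
  ∃ J : ℕ, ∀ n, J ≤ n → (U ^ (2 ^ n)) x = x

lemma gd_zero (L : ℕ) : Gd L 0 := fun U _ => ⟨0, fun _ _ => map_zero _⟩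

lemma gd_add {L : ℕ} {x y : OB} (hx : Gd L x) (hy : Gd L y) : Gd L (x + y) := by
  intro U hU
  obtain ⟨J, hJ⟩ := hx U hU
  obtain ⟨J', hJ'⟩ := hy U hU
  refine ⟨max J J', fun n hn => ?_⟩
  rw [map_add, hJ n (le_trans (le_max_left _ _) hn), hJ' n (le_trans (le_max_right _ _) hn)]

lemma gd_mul {L : ℕ} {x y : OB} (hx : Gd L x) (hy : Gd L y) : Gd L (x * y) := by
  intro U hU
  obtain ⟨J, hJ⟩ := hx U hU
  obtain ⟨J', hJ'⟩ := hy U hU
  refine ⟨max J J', fun n hn => ?_⟩
  rw [map_mul, hJ n (le_trans (le_max_left _ _) hn), hJ' n (le_trans (le_max_right _ _) hn)]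

lemma gd_one (L : ℕ) : Gd L 1 := fun U _ => ⟨0, fun _ _ => map_one _⟩

lemma gd_pow {L : ℕ} {x : OB} (hx : Gd L x) (k : ℕ) : Gd L (x ^ k) := by
  induction k with
  | zero => rw [pow_zero]; exact gd_one L
  | succ k ih => rw [pow_succ]; exact gd_mul ih hx

lemma gd_sum {L : ℕ} {ι : Type} (s : Finset ι) (f : ι → OB) (h : ∀ i ∈ s, Gd L (f i)) :
    Gd L (∑ i ∈ s, f i) := by
  classical
  induction s using Finset.induction_on with
  | empty => rw [Finset.sum_empty]; exact gd_zero L
  | insert a s ha ih =>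
    rw [Finset.sum_insert ha]
    exact gd_add (h a (Finset.mem_insert_self _ _))
      (ih fun i hi => h i (Finset.mem_insert_of_mem hi))

lemma pow_fix (U : OB ≃ₐ[kk] OB) {x : OB} (h : U x = x) (k : ℕ) : (U ^ k) x = x := by
  induction k with
  | zero => rfl
  | succ k ih => rw [pow_succ, AlgEquiv.mul_apply, h, ih]

lemma gd_base (L : ℕ) : Gd L (dB 1 L) := fun U hU => ⟨0, fun n _ => pow_fix U hU _⟩

lemma gd_quad {L : ℕ} {y y' : OB} (hp : Gd L (y + y')) (hq : Gd L (y * y')) : Gd L y := by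
  intro U hU
  obtain ⟨J, hJ⟩ := hp U hU
  obtain ⟨J', hJ'⟩ := hq U hU
  refine ⟨max J J' + 1, fun n hn => ?_⟩
  obtain ⟨m, rfl⟩ : ∃ m, n = m + 1 := ⟨n - 1, by omega⟩
  have h1 := hJ m (by have := le_max_left J J'; omega)
  have h2 := hJ' m (by have := le_max_right J J'; omega)
  set V := U ^ (2 ^ m) with hV
  have hVV : U ^ (2 ^ (m + 1)) = V * V := by
    rw [hV, ← pow_add]
    congr 1
    ring
  rw [hVV, AlgEquiv.mul_apply]
  rw [map_add] at h1
  rw [map_mul] at h2
  have h3 : (V y - y) * (V y - y') = 0 := by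
    have e : (V y - y) * (V y - y') = V y * V y - (y + y') * V y + y * y' := by ring
    rw [e, ← h1, ← h2]
    ring
  rcases mul_eq_zero.1 h3 with h | h
  · have h4 : V y = y := sub_eq_zero.1 h
    rw [h4, h4]
  · have h4 : V y = y' := sub_eq_zero.1 h
    rw [h4]
    rw [h4] at h1
    have : V y' = y := by
      have e : V y' = (y' + V y') - y' := by ring
      rw [e, h1]
      ring
    exact this

/-- the ring homomorphism -/
noncomputable def fi (L : ℕ) : (ZMod 2)⟦X⟧ →+* OB := io'.comp (ev 1 L)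

lemma fi_Db (L : ℕ) : Gd L (fi L Db) := gd_base L

theorem gd_th (h : S_QD1) (L k : ℕ) (b : ℤ) (hb : Odd b) : Gd L (fi L (th (2 ^ (k + 2)) b)) := by
  induction k generalizing b with
  | zero =>
    have : th (2 ^ (0 + 2)) b = Db := by
      have := h.four b hb
      norm_num
      exact this
    rw [this]
    exact fi_Db L
  | succ k ih =>
    have h1 := h.split (k + 2) b hb
    have h2 := h.prod (k + 2) b (by omega) hb
    have hb' : Odd (b + 2 ^ (k + 2 - 1)) := by
      apply hb.add_even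
      rw [show k + 2 - 1 = k + 1 by omega, pow_succ]
      exact (even_two).mul_left _
    refine gd_quad (y' := fi L (th (2 ^ (k + 2 + 1)) (b + 2 ^ (k + 2)))) ?_ ?_
    · rw [← map_add, show k + 1 + 2 = k + 2 + 1 by ring, h1]
      exact ih b hb
    · rw [← map_mul, show k + 1 + 2 = k + 2 + 1 by ring, h2, map_mul, map_pow, map_pow]
      exact gd_mul (gd_pow (fi_Db L) _) (gd_pow (ih _ hb') 2)

theorem gd_proj_th (h : S_QD1) (L m a : ℕ) (b : ℤ) (hb : Odd b) :
    Gd L (fi L (proj (2 ^ (m + 3)) a (th (2 ^ (m + 2)) b))) := by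
  by_cases hc : (2 ^ (m + 3) : ℤ) ∣ a - b ^ 2
  · have : proj (2 ^ (m + 3)) a (th (2 ^ (m + 2)) b) = th (2 ^ (m + 2)) b := by
      ext n
      rw [QD.coeff_proj]
      split_ifs with h1
      · rfl
      · by_contra h2
        apply h1
        have h3 := h.supp (m + 2) b n (by omega) (fun h => h2 h.symm)
        have h4 : (2 ^ (m + 3) : ℤ) ∣ (n : ℤ) - a := by
          have e : (n : ℤ) - a = (n - b ^ 2) - (a - b ^ 2) := by ring
          rw [e]
          exact dvd_sub h3 hc
        have h5 : (a : ℤ) ≡ n [ZMOD ((2 ^ (m + 3) : ℕ) : ℤ)] := by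
          rw [Int.modEq_iff_dvd]
          exact_mod_cast h4
        have h6 : a ≡ n [MOD 2 ^ (m + 3)] := Int.natCast_modEq_iff.1 h5
        exact h6.symm
    rw [this]
    exact gd_th h L m b hb
  · have : proj (2 ^ (m + 3)) a (th (2 ^ (m + 2)) b) = 0 := by
      ext n
      rw [QD.coeff_proj, map_zero]
      split_ifs with h1
      · by_contra h2
        apply hc
        have h3 := h.supp (m + 2) b n (by omega) h2
        have h5 : n ≡ a [MOD 2 ^ (m + 3)] := h1
        have h6 : (n : ℤ) ≡ a [ZMOD ((2 ^ (m + 3) : ℕ) : ℤ)] := Int.natCast_modEq_iff.2 h5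
        rw [Int.modEq_iff_dvd] at h6
        have h7 : (2 ^ (m + 3) : ℤ) ∣ (a : ℤ) - n := by exact_mod_cast h6
        have e : (a : ℤ) - b ^ 2 = (a - n) + (n - b ^ 2) := by ring
        rw [e]
        exact dvd_add h7 h3
      · rfl
    rw [this, map_zero]
    exact gd_zero L

theorem gd_proj_big (h : S_QD1) (L m a : ℕ) : Gd L (fi L (proj (2 ^ (m + 3)) a Db)) := by
  rw [QD.Db_sum h m, QD.proj_sum, map_sum]
  exact gd_sum _ _ fun j _ => gd_proj_th h L m a _ ⟨2 * j, by ring⟩

theorem gd_proj (h : S_QD1) (L k a : ℕ) : Gd L (fi L (proj (2 ^ k) a Db)) := by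
  rw [QD.proj_dvd (2 ^ k) (2 ^ (k + 3)) a (by positivity) (pow_dvd_pow 2 (by omega)), map_sum]
  exact gd_sum _ _ fun b _ => gd_proj_big h L k b

lemma ev_coeff {L : ℕ} (hL : L ≠ 0) (f : (ZMod 2)⟦X⟧) (n : ℤ) : (ev 1 L f).coeff n =
    if n < 0 then 0 else if L ∣ n.natAbs then
      algebraMap (ZMod 2) kk (coeff (n.natAbs / L) f) else 0 := by
  have e1 : ev 1 L f = HahnSeries.ofPowerSeries ℤ kk (PowerSeries.expand L hL (ik f)) := by
    unfold ev pt
    rw [dif_pos hL, RingHom.comp_apply, RingHom.comp_apply, RingHom.comp_apply,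
      PowerSeries.rescale_one]
    rfl
  rw [e1]
  have e2 := PowerSeries.coeff_coe (R := kk) (f := PowerSeries.expand L hL (ik f)) n
  refine e2.trans ?_
  split_ifs with h1 h2
  · rfl
  · rw [PowerSeries.coeff_expand, if_pos h2]
    unfold ik
    rw [PowerSeries.coeff_map]
  · rw [PowerSeries.coeff_expand, if_neg h2]

lemma prO_eq {L : ℕ} (hL : L ≠ 0) (κ : ℕ) (γ : ZMod (2 ^ κ)) (f : (ZMod 2)⟦X⟧) :
    prO κ γ (ev 1 L f) =
      ∑ r ∈ (Finset.range (2 ^ κ)).filter (fun r : ℕ => ((L * r : ℕ) : ZMod (2 ^ κ)) = γ),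
        ev 1 L (proj (2 ^ κ) r f) := by
  ext n
  have hl : (prO κ γ (ev 1 L f)).coeff n =
    if (n : ZMod (2 ^ κ)) = γ then (ev 1 L f).coeff n else 0 := rfl
  rw [hl, HahnSeries.coeff_sum]
  simp only [ev_coeff hL, QD.coeff_proj]
  by_cases h0 : n < 0
  · simp [h0]
  · simp only [if_neg h0]
    by_cases h1 : L ∣ n.natAbs
    · simp only [if_pos h1]
      obtain ⟨k, hk⟩ := h1
      have hkL : n.natAbs / L = k := by
        rw [hk]
        exact Nat.mul_div_cancel_left k (Nat.pos_of_ne_zero hL)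
      have hn : n = ((L * k : ℕ) : ℤ) := by omega
      rw [hkL]
      have hn' : (n : ZMod (2 ^ κ)) = ((L * k : ℕ) : ZMod (2 ^ κ)) := by
        rw [hn]
        push_cast
        rfl
      have hmod : ((L * (k % 2 ^ κ) : ℕ) : ZMod (2 ^ κ)) = ((L * k : ℕ) : ZMod (2 ^ κ)) := by
        push_cast
        rw [ZMod.natCast_mod]
      rw [hn']
      split_ifs with h2
      · rw [Finset.sum_eq_single (k % 2 ^ κ)]
        · rw [Nat.mod_mod, if_pos rfl]
        · intro b hb hne
          rw [Finset.mem_filter, Finset.mem_range] at hb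
          rw [if_neg, map_zero]
          intro hc
          apply hne
          rw [hc, Nat.mod_eq_of_lt hb.1]
        · intro hc
          exfalso
          apply hc
          rw [Finset.mem_filter, Finset.mem_range]
          exact ⟨Nat.mod_lt _ (by positivity), by rw [hmod, h2]⟩
      · symm
        apply Finset.sum_eq_zero
        intro b hb
        rw [Finset.mem_filter, Finset.mem_range] at hb
        rw [if_neg, map_zero]
        intro hc
        apply h2
        rw [← hmod, hc, Nat.mod_eq_of_lt hb.1, hb.2]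
    · simp [h1]

end GoodAux

open GoodAux

theorem good : S_GOOD := by
  intro L κ hL γ U hU
  have hL' : L ≠ 0 := hL.ne'
  have h : Gd L (io' (prO κ γ (dO 1 L))) := by
    unfold dO
    rw [prO_eq hL' κ γ Db, map_sum]
    exact gd_sum _ _ fun r _ => gd_proj Pool.Agent.TH693.QQ.D1.qd1 L κ r
  exact h U hU

end Pool.Agent.R836.RD
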