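import Pool.Agent.R836.RD.INJ

set_option autoImplicit false

/-! Piece HK: the sum over the neighbours. -/

namespace Pool.Agent.R836.RD

open PowerSeries Pool.Agent.TH693.QQ Pool.Agent.H397R2.PP Pool.Agent.H307R2.OP Pool.Agent.Y627.PT
open Pool.Agent.TH693.PP (E P)

namespace HK

open INJ

lemma ik_coeff (f : (ZMod 2)⟦X⟧) (n : ℕ) :
    PowerSeries.coeff n (ik f) = algebraMap (ZMod 2) kk (PowerSeries.coeff n f) := by
  unfold ik
  rw [PowerSeries.coeff_map]

lemma pt_ex (c : kk) {i l : ℕ} (hi : i ≠ 0) (hl : l ≠ 0) (g : (ZMod 2)⟦X⟧) :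
    pt c i (ik (ex l hl g)) = pt (c ^ l) (i * l) (ik g) := by
  have hil : i * l ≠ 0 := Nat.mul_ne_zero hi hl
  ext n
  rw [pt_coeff c hi, pt_coeff _ hil]
  by_cases h : i ∣ n
  · obtain ⟨k, rfl⟩ := h
    have hi' : 0 < i := Nat.pos_of_ne_zero hi
    rw [if_pos (Dvd.intro k rfl), Nat.mul_div_cancel_left k hi', ik_coeff]
    unfold ex
    rw [PowerSeries.coeff_expand]
    by_cases h2 : l ∣ k
    · obtain ⟨m, rfl⟩ := h2
      have hl' : 0 < l := Nat.pos_of_ne_zero hl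
      rw [if_pos (Dvd.intro m rfl), Nat.mul_div_cancel_left m hl',
        if_pos (by rw [← mul_assoc]; exact Dvd.intro m rfl), ← mul_assoc,
        Nat.mul_div_cancel_left m (Nat.mul_pos hi' hl'), ik_coeff, pow_mul]
    · rw [if_neg h2, if_neg (fun h3 => h2 (Nat.dvd_of_mul_dvd_mul_left hi' h3)), map_zero, mul_zero]
  · rw [if_neg h, if_neg (fun h3 => h ((Dvd.intro l rfl).trans h3))]

lemma pt_rescale (c z : kk) {i : ℕ} (hi : i ≠ 0) (g : Sk) :
    pt c i (PowerSeries.rescale z g) = pt (c * z) i g := by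
  ext n
  rw [pt_coeff c hi, pt_coeff _ hi]
  by_cases h : i ∣ n
  · rw [if_pos h, if_pos h, PowerSeries.coeff_rescale, mul_pow, mul_assoc]
  · rw [if_neg h, if_neg h]

lemma Tp_one {l : ℕ} (hl : 0 < l) : Tp l (1 : (ZMod 2)⟦X⟧) = 0 := by
  ext n
  rw [Tp, PowerSeries.coeff_mk, map_zero]
  by_cases hn : n = 0
  · subst hn
    rw [mul_zero, if_pos (dvd_zero l), Nat.zero_div, PowerSeries.coeff_zero_one]
    decide
  · have h1 : PowerSeries.coeff (l * n) (1 : (ZMod 2)⟦X⟧) = 0 := by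
      rw [PowerSeries.coeff_one, if_neg (Nat.mul_ne_zero hl.ne' hn)]
    rw [h1, zero_add]
    by_cases h2 : l ∣ n
    · rw [if_pos h2, PowerSeries.coeff_one, if_neg]
      have := Nat.div_pos (Nat.le_of_dvd (Nat.pos_of_ne_zero hn) h2) hl
      omega
    · rw [if_neg h2]

lemma exG (l : ℕ) (hl : l.Prime) (hl2 : l ≠ 2) (n : ℕ) : ∃ G : Polynomial (ZMod 2),
    G.natDegree ≤ n ∧ Polynomial.aeval Db G = Tp l (Db ^ n) := by
  rcases Nat.eq_zero_or_pos n with hn | hn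
  · subst hn
    refine ⟨0, by simp, ?_⟩
    rw [pow_zero, Tp_one hl.pos, map_zero]
  · have hodd : l % 2 = 1 := Nat.odd_iff.1 (hl.odd_of_ne_two hl2)
    have h1 := MS.mem0 l n hl hodd hn
    rw [Submodule.mem_span_range_iff_exists_fun] at h1
    obtain ⟨a, ha⟩ := h1
    refine ⟨∑ j : Fin (n + 1), Polynomial.C (a j) * Polynomial.X ^ (j : ℕ), ?_, ?_⟩
    · apply Polynomial.natDegree_sum_le_of_forall_le
      intro j _
      exact (Polynomial.natDegree_C_mul_X_pow_le _ _).trans (Nat.lt_succ_iff.1 j.2)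
    · rw [← ha, map_sum]
      refine Finset.sum_congr rfl fun j _ => ?_
      rw [map_mul, Polynomial.aeval_C, map_pow, Polynomial.aeval_X, Algebra.smul_def]

end HK

open HK in
theorem hk : S_HK := by
  intro l hl hl2 n
  obtain ⟨G, hG1, hG2⟩ := exG l hl hl2 n
  refine ⟨G, hG1, ?_⟩
  intro ζ c i hζ hc hi
  have hodd : Odd l := hl.odd_of_ne_two hl2
  have h1 := hecke_sum hl.ne_zero hodd hζ (Db ^ n)
  have h2 := congrArg (pt c i) h1
  rw [map_add, map_sum, pt_ex c hi.ne' hl.ne_zero, pt_ex c hi.ne' hl.ne_zero,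
    pt_ex (c ^ l) (Nat.mul_ne_zero hi.ne' hl.ne_zero) hl.ne_zero] at h2
  simp only [pt_rescale c _ hi.ne'] at h2
  have h3 := congrArg (HahnSeries.ofPowerSeries ℤ kk) h2
  rw [map_add, map_sum] at h3
  have e1 : ∀ (c : kk) (j : ℕ) (f : (ZMod 2)⟦X⟧),
      HahnSeries.ofPowerSeries ℤ kk (pt c j (ik f)) = ev c j f := fun _ _ _ => rfl
  simp only [e1] at h3
  rw [← hG2] at h3
  rw [h3, add_comm]
  unfold dO
  rw [← map_pow, ← pow_mul]
  congr 1
  refine Finset.sum_congr rfl fun s _ => ?_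
  rw [← map_pow]

end Pool.Agent.R836.RD
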