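import Pool.Agent.R836.RD.Defs

set_option autoImplicit false

/-! Piece INJ: the value of `D` determines the vertex. -/

namespace Pool.Agent.R836.RD

open PowerSeries Pool.Agent.TH693.QQ Pool.Agent.H397R2.PP

namespace INJ

lemma pt_coeff (c : kk) {j : ℕ} (hj : j ≠ 0) (f : Sk) (n : ℕ) :
    PowerSeries.coeff n (pt c j f) = if j ∣ n then c ^ (n / j) * PowerSeries.coeff (n / j) f else 0 := by
  unfold pt
  rw [dif_pos hj]
  show PowerSeries.coeff n (PowerSeries.expand j hj (PowerSeries.rescale c f)) = _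
  rw [PowerSeries.coeff_expand]
  by_cases h : j ∣ n
  · rw [if_pos h, if_pos h, PowerSeries.coeff_rescale]
  · rw [if_neg h, if_neg h]

lemma coeff_one_ik : PowerSeries.coeff 1 (ik Db) = 1 := by
  unfold ik
  rw [PowerSeries.coeff_map, T3.coeff_one_Db, map_one]

lemma dvd_of_eq {c c' : kk} {j j' : ℕ} (hc : c ≠ 0) (hj : 0 < j) (hj' : 0 < j')
    (h : pt c j (ik Db) = pt c' j' (ik Db)) : j' ∣ j := by
  by_contra hd
  have h1 := congrArg (PowerSeries.coeff j) h
  rw [pt_coeff c hj.ne', pt_coeff c' hj'.ne', if_pos (dvd_refl j), if_neg hd, Nat.div_self hj,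
    coeff_one_ik, pow_one, mul_one] at h1
  exact hc h1

end INJ

open INJ

theorem inj : S_INJ := by
  intro c c' j j' hc hc' hj hj' h
  have h1 : pt c j (ik Db) = pt c' j' (ik Db) := HahnSeries.ofPowerSeries_injective h
  have h2 : j = j' := Nat.dvd_antisymm (dvd_of_eq hc' hj' hj h1.symm) (dvd_of_eq hc hj hj' h1)
  subst h2
  refine ⟨?_, rfl⟩
  have h3 := congrArg (PowerSeries.coeff j) h1
  rw [pt_coeff c hj.ne', pt_coeff c' hj.ne', if_pos (dvd_refl j), if_pos (dvd_refl j),
    Nat.div_self hj, coeff_one_ik, pow_one, pow_one, mul_one, mul_one] at h3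
  exact h3

end Pool.Agent.R836.RD
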