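import Pool.Agent.R836.RD.Defs

set_option autoImplicit false

namespace Pool.Agent.R836.RD

open PowerSeries Pool.Agent.TH693.PP

namespace PART

section top

open scoped PowerSeries.WithPiTopology

local instance : TopologicalSpace (ZMod 2) := ⊥
local instance : DiscreteTopology (ZMod 2) := ⟨rfl⟩

theorem hasProd_expand (m : ℕ) (hm : m ≠ 0) (f : ℕ → (ZMod 2)⟦X⟧) (a : (ZMod 2)⟦X⟧)
    (h : HasProd f a) : HasProd (fun i => PowerSeries.expand m hm (f i))
      (PowerSeries.expand m hm a) := by
  rw [HasProd, PowerSeries.WithPiTopology.tendsto_iff_coeff_tendsto] at h ⊢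
  intro d
  simp_rw [← map_prod]
  by_cases hd : m ∣ d
  · obtain ⟨k, rfl⟩ := hd
    simp_rw [PowerSeries.coeff_expand_mul]
    exact h k
  · simp_rw [PowerSeries.coeff_expand_of_not_dvd m hm _ hd]
    exact tendsto_const_nhds

theorem hasProd_mult (m : ℕ) (hm : m ≠ 0) :
    HasProd (fun i : ℕ => if m ∣ i + 1 then (1 - X ^ (i + 1) : (ZMod 2)⟦X⟧) else 1)
      (PowerSeries.expand m hm E) := by
  have h := hasProd_expand m hm _ _ (PowerSeries.WithPiTopology.hasProd_one_sub_X_pow (ZMod 2))
  have hm' : 0 < m := Nat.pos_of_ne_zero hm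
  have key : ∀ i : ℕ, m * (i + 1) - 1 + 1 = m * (i + 1) := fun i =>
    Nat.sub_add_cancel (Nat.mul_pos hm' (Nat.succ_pos i))
  have hinj : Function.Injective (fun i : ℕ => m * (i + 1) - 1) := by
    intro a b hab
    have h1 : m * (a + 1) = m * (b + 1) := by
      rw [← key a, ← key b]
      exact congrArg (· + 1) hab
    have := Nat.eq_of_mul_eq_mul_left hm' h1
    omega
  refine (hinj.hasProd_iff ?_).1 ?_
  · intro x hx
    rw [if_neg]
    rintro ⟨k, hk⟩
    apply hx
    rcases k with _ | k
    · omega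
    · exact ⟨k, by simp only; omega⟩
  · change HasProd _ (PowerSeries.expand m hm (pentagonalSeries (ZMod 2)))
    have e : ((fun i : ℕ => if m ∣ i + 1 then (1 - X ^ (i + 1) : (ZMod 2)⟦X⟧) else 1) ∘
        fun i : ℕ => m * (i + 1) - 1) =
        fun i => PowerSeries.expand m hm (1 - X ^ (i + 1)) := by
      funext i
      simp only [Function.comp_apply]
      rw [key, if_pos (Dvd.intro _ rfl), map_sub, map_one, map_pow, PowerSeries.expand_X,
        ← pow_mul]
    rw [e]
    exact h

theorem hasProd_restr (p : ℕ → Prop) [DecidablePred p] :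
    HasProd (fun i : ℕ => if p (i + 1) then (1 : (ZMod 2)⟦X⟧) else 1 - X ^ (i + 1))
      ((PowerSeries.mk fun n => ((Nat.Partition.restricted n p).card : ZMod 2)) * E) := by
  have h1 := Nat.Partition.hasProd_powerSeriesMk_card_restricted (ZMod 2) p
  have h2 := PowerSeries.WithPiTopology.hasProd_one_sub_X_pow (ZMod 2)
  have h3 := h1.mul h2
  have e : (fun i : ℕ => (if p (i + 1) then ∑' j : ℕ, (X : (ZMod 2)⟦X⟧) ^ ((i + 1) * j) else 1) *
      (1 - X ^ (i + 1))) =
      fun i : ℕ => if p (i + 1) then (1 : (ZMod 2)⟦X⟧) else 1 - X ^ (i + 1) := by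
    funext i
    split_ifs with h
    · simp_rw [pow_mul]
      exact PowerSeries.WithPiTopology.tsum_pow_mul_one_sub_of_constantCoeff_eq_zero (by simp)
    · rw [one_mul]
  rw [e] at h3
  exact h3

theorem six : (PowerSeries.mk fun n =>
    ((Nat.Partition.restricted n (fun i => ¬ 6 ∣ i)).card : ZMod 2)) * E
      = PowerSeries.expand 6 (by norm_num) E := by
  have h1 := hasProd_restr (fun i => ¬ 6 ∣ i)
  have h2 := hasProd_mult 6 (by norm_num)
  refine h1.unique ?_
  convert h2 using 1
  funext i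
  by_cases h : 6 ∣ i + 1
  · rw [if_neg (not_not.2 h), if_pos h]
  · rw [if_pos h, if_neg h]

theorem three : (PowerSeries.mk fun n =>
    ((Nat.Partition.restricted n (fun i => i % 6 ≠ 3)).card : ZMod 2)) * E *
      PowerSeries.expand 6 (by norm_num) E = PowerSeries.expand 3 (by norm_num) E := by
  have h1 := hasProd_restr (fun i => i % 6 ≠ 3)
  have h2 := hasProd_mult 6 (by norm_num)
  have h3 := hasProd_mult 3 (by norm_num)
  refine (h1.mul h2).unique ?_
  convert h3 using 1
  funext i
  by_cases h : 3 ∣ i + 1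
  · rw [if_pos h]
    by_cases h' : 6 ∣ i + 1
    · rw [if_pos h', if_pos (by omega), one_mul]
    · rw [if_neg h', if_neg (by omega), mul_one]
  · rw [if_neg h, if_neg (show ¬ 6 ∣ i + 1 by omega), if_pos (by omega), mul_one]

end top

theorem exp6 : PowerSeries.expand 6 (by norm_num) E = (c3 E) ^ 2 := by
  rw [Pool.Agent.H397R2.PP.pow_eq_expand' 2 1 (by norm_num) (by norm_num)]
  unfold c3
  ext n
  rw [PowerSeries.coeff_expand, PowerSeries.coeff_expand]
  by_cases h2 : 2 ∣ n
  · rw [if_pos h2, PowerSeries.coeff_expand]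
    by_cases h3 : 3 ∣ n / 2
    · rw [if_pos h3, if_pos (by omega), show n / 6 = n / 2 / 3 by omega]
    · rw [if_neg h3, if_neg (by omega)]
  · rw [if_neg h2, if_neg (by omega)]

theorem c3PE : c3 P * c3 E = 1 := by
  rw [← map_mul, P_mul_E, map_one]

theorem genSix : (PowerSeries.mk fun n =>
    ((Nat.Partition.restricted n (fun i => ¬ 6 ∣ i)).card : ZMod 2)) = (c3 E) ^ 2 * P := by
  have h := six
  rw [exp6] at h
  rw [← h, mul_assoc, mul_comm E, P_mul_E, mul_one]

theorem genThree : (PowerSeries.mk fun n =>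
    ((Nat.Partition.restricted n (fun i => i % 6 ≠ 3)).card : ZMod 2)) = P * c3 P := by
  have h := three
  rw [exp6] at h
  change _ = c3 E at h
  set A : (ZMod 2)⟦X⟧ := PowerSeries.mk fun n =>
    ((Nat.Partition.restricted n (fun i => i % 6 ≠ 3)).card : ZMod 2) with hA
  have h1 := P_mul_E
  have h2 := c3PE
  -- multiply by `P * c3 P ^ 2`
  calc A = A * (P * E) * (c3 P * c3 E) ^ 2 := by rw [h1, h2]; ring
    _ = (A * E * c3 E ^ 2) * (P * c3 P ^ 2) := by ring
    _ = c3 E * (P * c3 P ^ 2) := by rw [h]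
    _ = P * c3 P * (c3 P * c3 E) := by ring
    _ = P * c3 P := by rw [h2, mul_one]

theorem four (f : S) : f ^ 4 = PowerSeries.expand 4 (by norm_num) f :=
  Pool.Agent.H397R2.PP.pow_eq_expand' 4 2 (by norm_num) (by norm_num) f

theorem coeff4 (A B : S) (m : ℕ) : coeff (4 * m) (A ^ 4 + X * B ^ 4) = coeff m A ∧
    coeff (4 * m + 1) (A ^ 4 + X * B ^ 4) = coeff m B := by
  rw [four, four]
  constructor
  · rw [map_add, PowerSeries.coeff_expand_mul]
    have h0 : coeff (4 * m) (X * PowerSeries.expand 4 (by norm_num) B) = 0 := by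
      rcases m with _ | k
      · rw [mul_zero, PowerSeries.coeff_zero_X_mul]
      · have e : 4 * (k + 1) = (4 * k + 3) + 1 := by ring
        rw [e, PowerSeries.coeff_succ_X_mul, PowerSeries.coeff_expand_of_not_dvd]
        omega
    rw [h0, add_zero]
  · rw [map_add, PowerSeries.coeff_succ_X_mul, PowerSeries.coeff_expand_mul,
      PowerSeries.coeff_expand_of_not_dvd (h := by omega), zero_add]

end PART

theorem part : S_PART := by
  have h4 : P * c3 P = Pa ^ 4 + X * Pb ^ 4 := modP
  refine ⟨fun m => ?_, fun n => ?_⟩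
  · have hg := PART.genThree
    rw [h4] at hg
    have h1 := congrArg (coeff (4 * m)) hg
    have h2 := congrArg (coeff (4 * m + 1)) hg
    rw [(PART.coeff4 Pa Pb m).1, PowerSeries.coeff_mk] at h1
    rw [(PART.coeff4 Pa Pb m).2, PowerSeries.coeff_mk] at h2
    exact ⟨h1, h2⟩
  · have hg := PART.genSix
    have h1 := congrArg (coeff n) hg
    rw [PowerSeries.coeff_mk] at h1
    exact h1

end Pool.Agent.R836.RD
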