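import Pool.Agent.R836.RD.Defs

set_option autoImplicit false

/-! RD-PATH (helper261): images of the vertices below the base. -/

namespace Pool.Agent.R836.RD

open Pool.Agent.TH693.QQ

theorem path : S_PATH := by
  intro hst κ M hM ρ hρ
  have hM0 : 0 < M := hM.pos
  intro d
  induction d using Nat.strong_induction_on with
  | _ d ih =>
    intro hd c hc
    by_cases h1 : d = 1
    · subst h1
      rw [pow_one] at hc
      subst hc
      refine ⟨1, 1, 3 * M, dvd_refl _, fun _ => rfl, one_ne_zero, by ring, ?_⟩
      rw [Nat.div_one]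
      exact hρ
    · have hd0 : 0 < d := Nat.pos_of_dvd_of_pos hd hM0
      obtain ⟨l, hl, hld⟩ := Nat.exists_prime_and_dvd h1
      obtain ⟨d', rfl⟩ := hld
      have hd'0 : 0 < d' := Nat.pos_of_mul_pos_left hd0
      obtain ⟨k, hk⟩ := hd
      have hk0 : 0 < k := by
        rcases Nat.eq_zero_or_pos k with h | h
        · rw [h, mul_zero] at hk; omega
        · exact h
      have hl2 : l ≠ 2 := by
        rintro rfl
        rw [hk] at hM
        rw [Nat.odd_mul, Nat.odd_mul] at hM
        exact absurd hM.1.1 (by decide)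
      have hlt : d' < l * d' := by
        have := hl.two_le
        nlinarith
      have hd'M : d' ∣ M := ⟨l * k, by rw [hk]; ring⟩
      have hc' : (c ^ l) ^ d' = 1 := by rw [← pow_mul]; exact hc
      have hc0 : c ≠ 0 := by
        rintro rfl
        rw [zero_pow hd0.ne'] at hc
        exact zero_ne_one hc
      obtain ⟨c0, s0, m0, hs0, hs1, hc00, hm0, hcomp⟩ := ih d' hlt hd'M (c ^ l) hc'
      obtain ⟨e, he⟩ := hs0
      have hs00 : 0 < s0 := by
        rcases Nat.eq_zero_or_pos s0 with h | h
        · rw [h, zero_mul] at he; omega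
        · exact h
      have hm0e : m0 = 3 * l * e ^ 2 * k := by
        have h2 : m0 * s0 ^ 2 = (3 * l * e ^ 2 * k) * s0 ^ 2 := by
          rw [hm0, hk, he]; ring
        exact Nat.eq_of_mul_eq_mul_right (by positivity) h2
      have he0 : 0 < e := by
        rcases Nat.eq_zero_or_pos e with h | h
        · rw [h, mul_zero] at he; omega
        · exact h
      have hq : 3 * M / d' = 3 * l * k := by
        rw [hk]
        exact Nat.div_eq_of_eq_mul_left hd'0 (by ring)
      have hq2 : 3 * M / (l * d') = 3 * k := by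
        rw [hk]
        exact Nat.div_eq_of_eq_mul_left hd0 (by ring)
      have hlpos := hl.pos
      have hnb : Nb l (c ^ l) (3 * M / d') c (3 * M / (l * d')) := by
        right
        refine ⟨rfl, ?_⟩
        rw [hq, hq2]; ring
      obtain ⟨d'', m'', hnb', hcomp'⟩ := hst κ ρ l hl hl2 (c ^ l) c0 (3 * M / d') m0
        (pow_ne_zero _ hc0) hc00 (by rw [hq]; positivity) (by rw [hm0e]; positivity)
        (by rw [hq]; exact ⟨3 * k, by ring⟩) (by rw [hm0e]; exact ⟨3 * e ^ 2 * k, by ring⟩)
        hcomp c (3 * M / (l * d')) hnb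
      rcases hnb' with ⟨ha, hb⟩ | ⟨ha, hb⟩
      · refine ⟨d'', s0, m'', ⟨l * e, by rw [he]; ring⟩, ?_, ?_, ?_, hcomp'⟩
        · intro h
          rw [ha, hs1 h, one_pow]
        · rw [ha]
          exact pow_ne_zero _ hc00
        · rw [hb]
          calc m0 * l * s0 ^ 2 = (m0 * s0 ^ 2) * l := by ring
            _ = 3 * M * (l * d') := by rw [hm0]; ring
      · refine ⟨d'', l * s0, m'', ⟨e, by rw [he]; ring⟩, ?_, ?_, ?_, hcomp'⟩
        · intro h
          exfalso
          have := hl.two_le
          nlinarith
        · rintro rfl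
          rw [zero_pow hlpos.ne'] at ha
          exact hc00 ha.symm
        · calc m'' * (l * s0) ^ 2 = (m'' * l) * l * s0 ^ 2 := by ring
            _ = (m0 * s0 ^ 2) * l := by rw [hb]; ring
            _ = 3 * M * (l * d') := by rw [hm0]; ring

end Pool.Agent.R836.RD
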