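import Pool.Agent.R836.RD.Asm
import Pool.Agent.Y627.PT.Eta

set_option autoImplicit false

/-! Linear patterns along progressions, for functions without even progressions. -/

namespace Pool.Agent.R836.RD

open PowerSeries Pool.Agent.TH693.QQ Pool.Agent.Y627.PT
open Pool.Agent.TH693.PP (E P)

theorem pat1 (f : (ZMod 2)⟦X⟧) (τ : ℤ) (hf : Sec f τ) (h24 : ¬ (24 : ℤ) ∣ τ) (M : ℕ) (hM : 0 < M) :
    ∃ C : ℕ, ∀ (K : ℕ) (c : ℕ → ZMod 2) (ρ : ℕ),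
      (∃ i < K, c i ≠ 0 ∧ ∃ N, N ≡ ρ + i [MOD M] ∧ coeff N f ≠ 0) →
      ∀ (κ : ZMod 2) (A : ℕ), ∃ n, A ≤ n ∧ n ≤ C * (A + K) ∧ n ≡ ρ [MOD M] ∧
        ∑ i ∈ Finset.range K, c i * coeff (n + i) f = κ := by
  obtain ⟨C, hC⟩ := Pool.Agent.Y627.PT.main (Y := Unit) (fun _ => f) (fun _ => τ) (fun _ => hf)
    (fun _ => 1) (fun _ => Nat.one_pos) (fun _ => h24) (fun x y h => absurd (Subsingleton.elim x y) h)
    M hM
  refine ⟨C, fun K c ρ h κ A => ?_⟩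
  obtain ⟨i, hi, hci, N, hN, hN0⟩ := h
  obtain ⟨n, h1, h2, h3, h4⟩ := hC K (fun _ => c) ρ ⟨(), i, hi, hci, fun h0 => hN0 (by
    have h5 := congrArg (coeff N) h0
    rw [proj, coeff_mk, map_zero, one_mul, one_mul, if_pos (show N % M = (ρ + i) % M from hN)] at h5
    exact h5)⟩ κ A
  refine ⟨n, h1, h2, h3, ?_⟩
  rw [← h4, Fintype.sum_unique]
  refine Finset.sum_congr rfl fun i _ => ?_
  rw [one_mul]

/-- `1 / (f_1 f_3)` modulo 2 -/
noncomputable def Ph : (ZMod 2)⟦X⟧ := P * ex 3 (by norm_num) P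

theorem sec_Ph : Sec Ph 4 := by
  have h := sec_mul sec_P (sec_ex sec_P (d := 3) (by norm_num))
  have e : (1 : ℤ) + (3 : ℕ) * 1 = 4 := by norm_num
  rw [e] at h
  exact h

theorem sec_Pb : Sec Pb (-5) := by
  have h := sec_mul (sec_pow (sec_ex sec_E (d := 3) (by norm_num)) 2) sec_P
  have e : ((2 : ℕ) : ℤ) * ((3 : ℕ) * -1) + 1 = -5 := by norm_num
  rw [e] at h
  exact h

end Pool.Agent.R836.RD
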