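import Pool.Agent.R836.RD.Defs

/-! REL: a vanishing section gives a linear relation. -/

set_option autoImplicit false

namespace Pool.Agent.R836.RD

open PowerSeries Pool.Agent.TH693.QQ

namespace RelP

theorem char_sum (ζ : kk) (M : ℕ) (hM : Odd M) (hζ : IsPrimitiveRoot ζ (3 * M)) (d : ℤ)
    (hd : ¬ (M : ℤ) ∣ d) : ∑ t ∈ Finset.range M, (ζ ^ (24 * d)) ^ t = 0 := by
  have hM0 : 0 < M := hM.pos
  set x : kk := ζ ^ (24 * d) with hx
  have hx1 : x ≠ 1 := by
    intro h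
    rw [hx, hζ.zpow_eq_one_iff_dvd] at h
    apply hd
    obtain ⟨e, he⟩ := h
    have h1 : (M : ℤ) ∣ 8 * d := ⟨e, by push_cast at he; linarith⟩
    have h2 : IsCoprime (M : ℤ) 8 := by
      have h3 : Nat.Coprime M 8 := by
        have h4 : Nat.Coprime M 2 := (Nat.coprime_two_right).2 hM
        have h5 := Nat.Coprime.pow_right 3 h4
        simpa using h5
      exact_mod_cast Nat.isCoprime_iff_coprime.2 h3
    exact h2.dvd_of_dvd_mul_left h1
  have hxM : x ^ M = 1 := by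
    rw [hx, ← zpow_natCast, ← zpow_mul]
    have h1 : 24 * d * (M : ℤ) = ((3 * M : ℕ) : ℤ) * (8 * d) := by push_cast; ring
    rw [h1, zpow_mul, zpow_natCast, hζ.pow_eq_one, one_zpow]
  have h := geom_sum_mul x M
  rw [hxM, sub_self] at h
  exact (mul_eq_zero.1 h).resolve_right (sub_ne_zero.2 hx1)

theorem coeff_C_mul' (x : kk) (F : Om) (n : ℤ) : (HahnSeries.C x * F).coeff n = x * F.coeff n := by
  rw [HahnSeries.C_mul_eq_smul, HahnSeries.coeff_smul, smul_eq_mul]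

end RelP

open RelP in
theorem rel : S_REL := by
  intro κ M r a f g ζ hM hζ hf hg
  have hM0 : 0 < M := hM.pos
  have hζ0 : ζ ≠ 0 := hζ.ne_zero (by omega)
  have key : ∑ t ∈ Finset.range M, HahnSeries.C (ζ ^ (-(t : ℤ) * (24 * (r : ℤ) + a))) *
      prO (κ + 3) ((24 * (r : ℤ) + a : ℤ) : ZMod (2 ^ (κ + 3))) (g (ζ ^ t)) = (0 : Om) := by
    ext n
    rw [HahnSeries.coeff_sum, HahnSeries.coeff_zero]
    have h1 : ∀ t ∈ Finset.range M, (HahnSeries.C (ζ ^ (-(t : ℤ) * (24 * (r : ℤ) + a))) *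
        prO (κ + 3) ((24 * (r : ℤ) + a : ℤ) : ZMod (2 ^ (κ + 3))) (g (ζ ^ t))).coeff n =
        ζ ^ (-(t : ℤ) * (24 * (r : ℤ) + a)) *
          (if (n : ZMod (2 ^ (κ + 3))) = ((24 * (r : ℤ) + a : ℤ) : ZMod (2 ^ (κ + 3))) then
            (g (ζ ^ t)).coeff n else 0) := by
      intro t _
      rw [coeff_C_mul']
      rfl
    rw [Finset.sum_congr rfl h1]
    by_cases hn : (n : ZMod (2 ^ (κ + 3))) = ((24 * (r : ℤ) + a : ℤ) : ZMod (2 ^ (κ + 3)))
    swap
    · apply Finset.sum_eq_zero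
      intro t _
      rw [if_neg hn, mul_zero]
    by_cases hn2 : 24 ∣ n - a ∧ a ≤ n
    swap
    · apply Finset.sum_eq_zero
      intro t _
      rw [if_pos hn, hg _ (pow_ne_zero t hζ0), if_neg hn2, mul_zero]
    obtain ⟨⟨m', hm'⟩, han⟩ := hn2
    have hm0 : 0 ≤ m' := by omega
    obtain ⟨m, rfl⟩ := Int.eq_ofNat_of_zero_le hm0
    have hnm : n = 24 * (m : ℤ) + a := by linarith
    have hdiv : ((n - a) / 24).toNat = m := by
      rw [hm', Int.mul_ediv_cancel_left _ (by norm_num)]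
      simp
    have hmr : m ≡ r [MOD 2 ^ κ] := by
      rw [hnm] at hn
      have h2 : ((2 ^ (κ + 3) : ℕ) : ℤ) ∣ (24 * (r : ℤ) + a) - (24 * (m : ℤ) + a) :=
        (ZMod.intCast_eq_intCast_iff_dvd_sub _ _ _).1 hn
      have h3 : ((2 ^ κ : ℕ) : ℤ) ∣ (r : ℤ) - m := by
        obtain ⟨e, he⟩ := h2
        have h4 : ((2 ^ κ : ℕ) : ℤ) ∣ 3 * ((r : ℤ) - m) := by
          refine ⟨e, ?_⟩
          push_cast at he ⊢
          have h5 : (24 * (r : ℤ) + a) - (24 * (m : ℤ) + a) = 8 * (3 * ((r : ℤ) - m)) := by ring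
          rw [h5, pow_add] at he
          have h6 : (8 : ℤ) * (3 * ((r : ℤ) - m)) = 8 * (2 ^ κ * e) := by rw [he]; ring
          exact mul_left_cancel₀ (by norm_num) h6
        have h5 : IsCoprime ((2 ^ κ : ℕ) : ℤ) 3 := by
          have h6 : Nat.Coprime (2 ^ κ) 3 := Nat.Coprime.pow_left κ (by norm_num)
          exact_mod_cast Nat.isCoprime_iff_coprime.2 h6
        exact h5.dvd_of_dvd_mul_left h4
      exact (Nat.modEq_iff_dvd).2 h3
    by_cases hMm : (M : ℤ) ∣ (m : ℤ) - r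
    · -- the coefficient vanishes
      have h2 : m ≡ r [MOD M] := ((Nat.modEq_iff_dvd).2 hMm).symm
      have h3 : Nat.Coprime (2 ^ κ) M :=
        Nat.Coprime.pow_left κ ((Nat.coprime_two_left).2 hM)
      have h4 : m ≡ r [MOD 2 ^ κ * M] := (Nat.modEq_and_modEq_iff_modEq_mul h3).1 ⟨hmr, h2⟩
      have h5 := hf m h4
      apply Finset.sum_eq_zero
      intro t _
      rw [if_pos hn, hg _ (pow_ne_zero t hζ0), hdiv, h5, map_zero, mul_zero, ite_self, mul_zero]
    · have h2 : ∀ t ∈ Finset.range M, ζ ^ (-(t : ℤ) * (24 * (r : ℤ) + a)) *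
          (if (n : ZMod (2 ^ (κ + 3))) = ((24 * (r : ℤ) + a : ℤ) : ZMod (2 ^ (κ + 3))) then
            (g (ζ ^ t)).coeff n else 0) =
          (ζ ^ (24 * ((m : ℤ) - r))) ^ t * algebraMap (ZMod 2) kk (coeff m f) := by
        intro t _
        rw [if_pos hn, hg _ (pow_ne_zero t hζ0), if_pos ⟨⟨m, hm'⟩, han⟩, hdiv, ← mul_assoc]
        congr 1
        rw [← zpow_natCast ζ t, ← zpow_mul, ← zpow_add₀ hζ0, ← zpow_natCast, ← zpow_mul]
        congr 1
        rw [hnm]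
        ring
      rw [Finset.sum_congr rfl h2, ← Finset.sum_mul, char_sum ζ M hM hζ _ hMm, zero_mul]
  have h2 := congrArg io' key
  rw [map_sum, map_zero] at h2
  rw [← h2]
  refine Finset.sum_congr rfl (fun t _ => ?_)
  rw [map_mul]

end Pool.Agent.R836.RD
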