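import Pool.Agent.R836.RD.DEL

set_option autoImplicit false

/-!
# RD, piece RING
-/

namespace Pool.Agent.R836.RD

theorem ring : S_RING := by
  intro hDel κ ρ f g f' g' h h'
  obtain ⟨Δ, hΔ, hres⟩ := hDel κ
  let m : Az κ →+* Az κ := AddMonoidAlgebra.mapRingHom (ZMod (2 ^ κ)) (ρ : OB →+* OB)
  have hm : ∀ (x : Az κ) (γ : ZMod (2 ^ κ)), (m x).coeff γ = ρ (x.coeff γ) := by
    intro x γ
    simp [m]
  have key : ∀ a b : Om, CompO κ ρ a b ↔ m (Δ a) = Δ b := by
    intro a b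
    constructor
    · intro hab
      ext γ
      rw [hm, hΔ, hΔ]
      exact hab γ
    · intro hab γ
      have h1 := hm (Δ a) γ
      rw [hab, hΔ, hΔ] at h1
      exact h1.symm
  have hval : ∀ a b : Om, CompO κ ρ a b → ρ (io' a) = io' b := by
    intro a b hab
    have h1 : io' a = ∑ γ : ZMod (2 ^ κ), io' (prO κ γ a) := by
      rw [← map_sum, DEL813.sum_prO]
    have h2 : io' b = ∑ γ : ZMod (2 ^ κ), io' (prO κ γ b) := by
      rw [← map_sum, DEL813.sum_prO]
    rw [h1, h2, map_sum]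
    exact Finset.sum_congr rfl fun γ _ => hab γ
  have k1 := (key f g).mp h
  have k2 := (key f' g').mp h'
  refine ⟨?_, ?_, ?_, hval f g h⟩
  · rw [key, map_add, map_add, k1, k2, map_add]
  · rw [key, map_mul, map_mul, k1, k2, map_mul]
  · intro hf
    have hg : g ≠ 0 := by
      rintro rfl
      have h1 := hval f 0 h
      rw [map_zero, map_eq_zero] at h1
      exact hf ((map_eq_zero io').mp h1)
    rw [key]
    have e1 : m (Δ f⁻¹) * Δ g = 1 := by
      rw [← k1, ← map_mul, ← map_mul, inv_mul_cancel₀ hf, map_one, map_one]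
    have e2 : Δ g * Δ g⁻¹ = 1 := by
      rw [← map_mul, mul_inv_cancel₀ hg, map_one]
    calc m (Δ f⁻¹) = m (Δ f⁻¹) * (Δ g * Δ g⁻¹) := by rw [e2, mul_one]
      _ = Δ g⁻¹ := by rw [← mul_assoc, e1, one_mul]

end Pool.Agent.R836.RD
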