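import Pool.Agent.R836.RD.Defs

set_option autoImplicit false

/-! STEP: neighbours are mapped to neighbours (helper964) -/

namespace Pool.Agent.R836.RD

open PowerSeries Pool.Agent.TH693.QQ Pool.Agent.H397R2.PP Pool.Agent.H307R2.OP Pool.Agent.Y627.PT

namespace StepAux

/-- `ρ` coefficientwise -/
noncomputable def mr (κ : ℕ) (ρ : OB ≃ₐ[kk] OB) : Az κ →+* Az κ :=
  AddMonoidAlgebra.mapRingHom (ZMod (2 ^ κ)) (ρ : OB →+* OB)

theorem coeff_mr (κ : ℕ) (ρ : OB ≃ₐ[kk] OB) (x : Az κ) (γ : ZMod (2 ^ κ)) :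
    (mr κ ρ x).coeff γ = ρ (x.coeff γ) := by
  unfold mr
  rw [AddMonoidAlgebra.coeff_mapRingHom]
  rfl

theorem res_single (κ : ℕ) (γ : ZMod (2 ^ κ)) (a : OB) :
    res κ (AddMonoidAlgebra.single γ a) = a := by
  unfold res
  change (AddMonoidAlgebra.lift OB OB (ZMod (2 ^ κ))) 1 (AddMonoidAlgebra.single γ a) = a
  rw [AddMonoidAlgebra.lift_single]
  simp

theorem res_mr (κ : ℕ) (ρ : OB ≃ₐ[kk] OB) (x : Az κ) : res κ (mr κ ρ x) = ρ (res κ x) := by
  have h : ((res κ).comp (mr κ ρ) : Az κ →+* OB).toAddMonoidHom =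
      (((ρ : OB →+* OB)).comp (res κ) : Az κ →+* OB).toAddMonoidHom := by
    apply AddMonoidAlgebra.addMonoidHom_ext
    intro a b
    change res κ (mr κ ρ (AddMonoidAlgebra.single a b)) = ρ (res κ (AddMonoidAlgebra.single a b))
    rw [res_single]
    unfold mr
    rw [AddMonoidAlgebra.mapRingHom_single, res_single]
    rfl
  exact DFunLike.congr_fun h x

theorem comp_iff (κ : ℕ) (ρ : OB ≃ₐ[kk] OB) (Δ : Om →+* Az κ)
    (hΔ : ∀ (f : Om) (γ : ZMod (2 ^ κ)), (Δ f).coeff γ = io' (prO κ γ f))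
    (c : kk) (j : ℕ) (c' : kk) (j' : ℕ) :
    Comp κ ρ c j c' j' ↔ mr κ ρ (Δ (dO c j)) = Δ (dO c' j') := by
  constructor
  · intro h
    ext γ
    rw [coeff_mr, hΔ, hΔ]
    exact h γ
  · intro h γ
    have := congrArg (fun z : Az κ => z.coeff γ) h
    simp only [coeff_mr, hΔ] at this
    exact this

theorem hom_aeval {R : Type*} [CommRing R] (Φ Φ' : (ZMod 2)⟦X⟧ →+* R) (h : Φ Db = Φ' Db)
    (G : Polynomial (ZMod 2)) : Φ (Polynomial.aeval Db G) = Φ' (Polynomial.aeval Db G) := by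
  rw [Polynomial.aeval_def, Polynomial.hom_eval₂, Polynomial.hom_eval₂, h]
  congr 1
  exact Subsingleton.elim _ _

end StepAux

open StepAux

theorem step : S_STEP := by
  intro hDel hVV hInj hHK hUn κ ρ l hl hl2 c c' j j' hc hc' hj hj' hlj hlj' hcomp d m hNb
  obtain ⟨i, rfl⟩ := hlj
  obtain ⟨i', rfl⟩ := hlj'
  have hl0 : l ≠ 0 := hl.ne_zero
  have hl1 : 1 < l := hl.one_lt
  have hi : 0 < i := Nat.pos_of_ne_zero (fun h => by simp [h] at hj)
  have hi' : 0 < i' := Nat.pos_of_ne_zero (fun h => by simp [h] at hj')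
  haveI : NeZero l := ⟨hl0⟩
  have hlk : ((l : ℕ) : kk) ≠ 0 := by
    intro h
    have h2 : ringChar kk ∣ l := (ringChar.spec kk l).1 h
    have h3 : ringChar kk = 2 := ringChar.eq kk 2 |>.symm ▸ rfl
    rw [h3] at h2
    exact hl2 ((Nat.prime_dvd_prime_iff_eq Nat.prime_two hl).1 h2).symm
  haveI : NeZero ((l : ℕ) : kk) := ⟨hlk⟩
  obtain ⟨ζ, hζ⟩ : ∃ ζ : kk, IsPrimitiveRoot ζ l :=
    HasEnoughRootsOfUnity.exists_primitiveRoot kk l
  obtain ⟨c0, hc0⟩ := IsAlgClosed.exists_pow_nat_eq c (Nat.pos_of_ne_zero hl0)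
  obtain ⟨c0', hc0'⟩ := IsAlgClosed.exists_pow_nat_eq c' (Nat.pos_of_ne_zero hl0)
  have hc00 : c0 ≠ 0 := by
    rintro rfl
    rw [zero_pow hl0] at hc0
    exact hc hc0.symm
  have hc00' : c0' ≠ 0 := by
    rintro rfl
    rw [zero_pow hl0] at hc0'
    exact hc' hc0'.symm
  have hζ0 : ζ ≠ 0 := hζ.ne_zero hl0
  obtain ⟨Δ, hΔ, hΔr⟩ := hDel κ
  -- vertices
  let V : kk → kk → ℕ → Fin (l + 1) → kk × ℕ := fun c e i s =>
    Fin.cases (motive := fun _ => kk × ℕ) (c ^ l, i * l * l) (fun s : Fin l => (e * ζ ^ (s : ℕ), i)) s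
  have hVinj : ∀ (c e : kk) (i : ℕ), c ≠ 0 → e ≠ 0 → 0 < i → ∀ s t : Fin (l + 1), s ≠ t →
      dO (V c e i s).1 (V c e i s).2 ≠ dO (V c e i t).1 (V c e i t).2 := by
    intro c e i hc he hi s t hst hd
    have hV0 : ∀ s : Fin (l + 1), (V c e i s).1 ≠ 0 ∧ 0 < (V c e i s).2 := by
      intro s
      refine Fin.cases ?_ (fun s => ?_) s
      · exact ⟨pow_ne_zero _ hc, Nat.mul_pos (Nat.mul_pos hi (Nat.pos_of_ne_zero hl0)) (Nat.pos_of_ne_zero hl0)⟩
      · exact ⟨mul_ne_zero he (pow_ne_zero _ hζ0), hi⟩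
    obtain ⟨h1, h2⟩ := hInj _ _ _ _ (hV0 s).1 (hV0 t).1 (hV0 s).2 (hV0 t).2 hd
    have hne : i ≠ i * l * l := by
      intro h
      have : i * 1 < i * (l * l) := Nat.mul_lt_mul_of_pos_left (by nlinarith) hi
      rw [mul_one, ← mul_assoc] at this
      omega
    revert hst h1 h2
    refine Fin.cases ?_ (fun s => ?_) s
    · refine Fin.cases ?_ (fun t => ?_) t
      · intro h _ _
        exact h rfl
      · intro _ _ h2
        exact hne h2.symm
    · refine Fin.cases ?_ (fun t => ?_) t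
      · intro _ _ h2
        exact hne h2
      · intro hst h1 _
        apply hst
        have h3 : e * ζ ^ (s : ℕ) = e * ζ ^ (t : ℕ) := h1
        have h4 := mul_left_cancel₀ he h3
        have h5 := hζ.pow_inj s.2 t.2 h4
        rw [Fin.ext h5]
  -- power sums
  have hsum : ∀ (c e : kk) (i n : ℕ) (R : Type) [CommRing R] (Ψ : Om →+* R),
      ∑ s : Fin (l + 1), Ψ (dO (V c e i s).1 (V c e i s).2) ^ n =
      Ψ (dO (c ^ l) (i * l * l) ^ n + ∑ s ∈ Finset.range l, dO (e * ζ ^ s) i ^ n) := by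
    intro c e i n R _ Ψ
    rw [Fin.sum_univ_succ, map_add, map_pow, map_sum]
    congr 1
    rw [Finset.sum_range]
    apply Finset.sum_congr rfl
    intro s _
    rw [map_pow]
    rfl
  have hkey : ∀ n : ℕ, ∑ s : Fin (l + 1), mr κ ρ (Δ (dO (V c c0 i s).1 (V c c0 i s).2)) ^ n =
      ∑ s : Fin (l + 1), Δ (dO (V c' c0' i' s).1 (V c' c0' i' s).2) ^ n := by
    intro n
    obtain ⟨G, -, hG⟩ := hHK l hl hl2 n
    have h1 := hsum c c0 i n (Az κ) ((mr κ ρ).comp Δ)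
    have h2 := hsum c' c0' i' n (Az κ) Δ
    have h3 := hG ζ c0 i hζ hc00 hi
    have h4 := hG ζ c0' i' hζ hc00' hi'
    have e1 : c0 ^ (l * l) = c ^ l := by rw [pow_mul, hc0]
    have e2 : c0' ^ (l * l) = c' ^ l := by rw [pow_mul, hc0']
    rw [e1, hc0] at h3
    rw [e2, hc0'] at h4
    rw [h3] at h1
    rw [h4] at h2
    simp only [RingHom.comp_apply] at h1
    rw [h1, h2]
    refine hom_aeval (((mr κ ρ).comp Δ).comp (ev c (i * l))) (Δ.comp (ev c' (i' * l))) ?_ G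
    have h5 := (comp_iff κ ρ Δ hΔ _ _ _ _).1 hcomp
    rw [mul_comm l i, mul_comm l i'] at h5
    exact h5
  -- the index of `(d, m)`
  obtain ⟨s, hs⟩ : ∃ s : Fin (l + 1), V c c0 i s = (d, m) := by
    rcases hNb with ⟨h1, h2⟩ | ⟨h1, h2⟩
    · refine ⟨0, ?_⟩
      change (c ^ l, i * l * l) = (d, m)
      rw [h1, h2, mul_comm l i]
    · have hm : m = i := by
        have : m * l = i * l := by rw [h2, mul_comm]
        exact Nat.eq_of_mul_eq_mul_right (Nat.pos_of_ne_zero hl0) this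
      have h3 : (d / c0) ^ l = 1 := by
        rw [div_pow, h1, hc0, div_self hc]
      obtain ⟨s, hs, hs'⟩ := hζ.eq_pow_of_pow_eq_one h3
      refine ⟨Fin.succ ⟨s, hs⟩, ?_⟩
      change (c0 * ζ ^ s, i) = (d, m)
      rw [hs', hm]
      congr 1
      field_simp
  obtain ⟨t, ht⟩ := hVV hUn κ (l + 1) (fun s => mr κ ρ (Δ (dO (V c c0 i s).1 (V c c0 i s).2)))
    (fun s => Δ (dO (V c' c0' i' s).1 (V c' c0' i' s).2))
    (by
      intro s t hst h
      rw [res_mr, res_mr, hΔr, hΔr] at h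
      exact hVinj c c0 i hc hc00 hi s t hst ((algebraMap Om OB).injective (ρ.injective h)))
    (by
      intro s t hst h
      rw [hΔr, hΔr] at h
      exact hVinj c' c0' i' hc' hc00' hi' s t hst ((algebraMap Om OB).injective h))
    hkey s
  refine ⟨(V c' c0' i' t).1, (V c' c0' i' t).2, ?_, ?_⟩
  · refine Fin.cases ?_ (fun t => ?_) t
    · left
      exact ⟨rfl, by change i' * l * l = l * i' * l; ring⟩
    · right
      refine ⟨?_, ?_⟩
      · change (c0' * ζ ^ (t : ℕ)) ^ l = c'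
        rw [mul_pow, hc0', ← pow_mul, mul_comm (t : ℕ) l, pow_mul, hζ.pow_eq_one, one_pow, mul_one]
      · change i' * l = l * i'
        ring
  · rw [comp_iff κ ρ Δ hΔ]
    rw [hs] at ht
    exact ht

end Pool.Agent.R836.RD
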