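import Pool.Agent.R836.RD.Defs

set_option autoImplicit false

/-! SWAP: the automorphism that is used. -/

namespace Pool.Agent.R836.RD

open PowerSeries Pool.Agent.TH693.QQ Pool.Agent.H397R2.PP Pool.Agent.H307R2.OP Pool.Agent.Y627.PT
open Pool.Agent.TH693.PP (E P)

namespace SWAPp

theorem pt_coeff (c : kk) {j : ℕ} (hj : j ≠ 0) (f : Sk) (n : ℕ) :
    PowerSeries.coeff n (pt c j f) =
      if j ∣ n then c ^ (n / j) * PowerSeries.coeff (n / j) f else 0 := by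
  have h : pt c j f = PowerSeries.expand j hj (PowerSeries.rescale c f) := by
    unfold pt
    rw [dif_pos hj]
    rfl
  rw [h, PowerSeries.coeff_expand]
  split_ifs
  · rw [PowerSeries.coeff_rescale]
  · rfl

theorem tw_ev (ζ c : kk) {j : ℕ} (hj : j ≠ 0) (f : (ZMod 2)⟦X⟧) :
    tw ζ (ev c j f) = ev (c * ζ ^ j) j f := by
  ext n
  have h1 : (tw ζ (ev c j f)).coeff n = ζ ^ n * (ev c j f).coeff n := rfl
  have h2 : ∀ d : kk, ev d j f = ((pt d j (ik f) : Sk) : Om) := fun d => rfl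
  rw [h1, h2, h2, PowerSeries.coeff_coe, PowerSeries.coeff_coe]
  split_ifs with hn
  · rw [mul_zero]
  · obtain ⟨m, rfl⟩ : ∃ m : ℕ, n = m := ⟨n.toNat, by omega⟩
    rw [Int.natAbs_natCast, pt_coeff c hj, pt_coeff _ hj]
    split_ifs with hd
    · obtain ⟨q, rfl⟩ := hd
      rw [Nat.mul_div_cancel_left _ (Nat.pos_of_ne_zero hj), mul_pow, ← pow_mul, zpow_natCast]
      ring
    · rw [mul_zero]

theorem tw_prO (ζ : kk) (κ : ℕ) (γ : ZMod (2 ^ κ)) (f : Om) :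
    tw ζ (prO κ γ f) = prO κ γ (tw ζ f) := by
  ext n
  show ζ ^ n * (if (n : ZMod (2 ^ κ)) = γ then f.coeff n else 0) =
    if (n : ZMod (2 ^ κ)) = γ then ζ ^ n * f.coeff n else 0
  split_ifs
  · rfl
  · rw [mul_zero]

theorem tw_part (ζ c : kk) {j : ℕ} (hj : j ≠ 0) (κ : ℕ) (γ : ZMod (2 ^ κ)) :
    tw ζ (prO κ γ (dO c j)) = prO κ γ (dO (c * ζ ^ j) j) := by
  rw [tw_prO]
  unfold dO
  rw [tw_ev ζ c hj]

end SWAPp

open SWAPp in
theorem swap : S_SWAP := by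
  intro hcomb hdown htw _ κ M hM
  obtain ⟨σ, hσ1, hσ2⟩ := hcomb κ M hM
  obtain ⟨c, hc, hσ3⟩ := hdown κ M hM σ hσ1 hσ2 M dvd_rfl
  have hM0 : 0 < M := hM.pos
  rw [Nat.mul_div_cancel _ hM0] at hσ3
  have hc0 : c ≠ 0 := by
    rintro rfl
    rw [zero_pow hM0.ne'] at hc
    exact zero_ne_one hc
  obtain ⟨ζ, hζ⟩ := IsAlgClosed.exists_pow_nat_eq (c⁻¹) (by norm_num : 0 < 3)
  have hζ0 : ζ ≠ 0 := by
    rintro rfl
    rw [zero_pow (by norm_num)] at hζ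
    exact inv_ne_zero hc0 hζ.symm
  obtain ⟨T, hT⟩ := htw ζ hζ0
  have hζM : ζ ^ (3 * M) = 1 := by rw [pow_mul, hζ, inv_pow, hc, inv_one]
  have h3M : 3 * M ≠ 0 := by positivity
  have t1 : ∀ γ : ZMod (2 ^ κ), T (io' (prO κ γ (dO 1 (3 * M)))) =
      io' (prO κ γ (dO 1 (3 * M))) := by
    intro γ
    rw [hT, tw_part ζ 1 h3M, hζM, one_mul]
  have t2 : ∀ γ : ZMod (2 ^ κ), T (io' (prO κ γ (dO c 3))) = io' (prO κ γ (dO 1 3)) := by
    intro γ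
    rw [hT, tw_part ζ c (by norm_num), hζ, mul_inv_cancel₀ hc0]
  refine ⟨(σ.trans T).symm, fun γ => ?_, fun γ => ?_⟩
  · rw [AlgEquiv.symm_apply_eq, AlgEquiv.trans_apply, hσ1 γ, t1 γ]
  · rw [AlgEquiv.symm_apply_eq, AlgEquiv.trans_apply, hσ3 γ, t2 γ]

end Pool.Agent.R836.RD
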