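import Mathlib
import Pool.Agent.R836.RD.Defs

/-!
Project RD, piece SYM: symmetric functions from power sums (helper606).
-/

set_option autoImplicit false

namespace Pool.Agent.R836.RD

open Polynomial

theorem sym_aux {F L : Type*} [Field F] [Field L] [Algebra F L] (m : ℕ) (y : Fin m → L)
    (hy : Function.Injective y) (hs : ∀ n : ℕ, ∃ s : F, algebraMap F L s = ∑ i, y i ^ n) :
    ∃ Q : Polynomial F, Q.map (algebraMap F L) = ∏ i, (X - C (y i)) := by
  classical
  choose s' hs' using hs
  set P : Polynomial L := ∏ i, (X - C (y i)) with hP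
  have hPm : P.Monic := monic_prod_of_monic _ _ fun i _ => monic_X_sub_C _
  have hPd : P.natDegree = m := by
    rw [hP, natDegree_prod_of_monic _ _ fun i _ => monic_X_sub_C _]
    simp
  have hPe : ∀ i, ∑ j : Fin m, P.coeff j * y i ^ (j : ℕ) = - y i ^ m := by
    intro i
    have h1 : P.eval (y i) = 0 := by
      rw [hP, eval_prod]
      exact Finset.prod_eq_zero (Finset.mem_univ i) (by simp)
    rw [eval_eq_sum_range, hPd, Finset.sum_range_succ] at h1
    have h2 : P.coeff m = 1 := by
      have := hPm.coeff_natDegree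
      rwa [hPd] at this
    rw [h2, one_mul, Finset.sum_range (fun j => P.coeff j * y i ^ j)] at h1
    exact eq_neg_of_add_eq_zero_left h1
  let V : Matrix (Fin m) (Fin m) L := Matrix.vandermonde y
  have hVdet : V.det ≠ 0 := Matrix.det_vandermonde_ne_zero_iff.2 hy
  let H : Matrix (Fin m) (Fin m) L := V.transpose * V
  have hHe : ∀ a b, H a b = ∑ i, y i ^ ((a : ℕ) + (b : ℕ)) := by
    intro a b
    change ∑ i, V i a * V i b = _
    refine Finset.sum_congr rfl fun i _ => ?_
    change y i ^ (a : ℕ) * y i ^ (b : ℕ) = _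
    rw [pow_add]
  have hHdet : H.det ≠ 0 := by
    change (V.transpose * V).det ≠ 0
    rw [Matrix.det_mul, Matrix.det_transpose]
    exact mul_ne_zero hVdet hVdet
  let H' : Matrix (Fin m) (Fin m) F := fun a b => s' ((a : ℕ) + (b : ℕ))
  have hH'H : (algebraMap F L).mapMatrix H' = H := by
    ext a b
    rw [hHe]
    exact hs' _
  have hH'det : IsUnit H'.det := by
    rw [isUnit_iff_ne_zero]
    intro h0
    apply hHdet
    rw [← hH'H, ← RingHom.map_det, h0, map_zero]
  let v' : Fin m → F := fun a => - s' ((a : ℕ) + m)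
  let p' : Fin m → F := H'⁻¹.mulVec v'
  have h1 : H'.mulVec p' = v' := by
    change H'.mulVec (H'⁻¹.mulVec v') = v'
    rw [Matrix.mulVec_mulVec, Matrix.mul_nonsing_inv _ hH'det, Matrix.one_mulVec]
  have h2 : H.mulVec (fun b => algebraMap F L (p' b)) = H.mulVec (fun b => P.coeff b) := by
    funext a
    have h3 : H.mulVec (fun b => algebraMap F L (p' b)) a = algebraMap F L (H'.mulVec p' a) := by
      rw [← hH'H]
      simp only [Matrix.mulVec, dotProduct, map_sum, map_mul, RingHom.mapMatrix_apply,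
        Matrix.map_apply]
    rw [h3, h1]
    change algebraMap F L (- s' ((a : ℕ) + m)) = ∑ b, H a b * P.coeff b
    rw [map_neg, hs']
    simp only [hHe, Finset.sum_mul]
    rw [Finset.sum_comm, ← Finset.sum_neg_distrib]
    refine Finset.sum_congr rfl fun i _ => ?_
    have h4 : ∑ b : Fin m, y i ^ ((a : ℕ) + (b : ℕ)) * P.coeff b =
        y i ^ (a : ℕ) * ∑ j : Fin m, P.coeff j * y i ^ (j : ℕ) := by
      rw [Finset.mul_sum]
      refine Finset.sum_congr rfl fun b _ => ?_
      rw [pow_add]
      ring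
    rw [h4, hPe, pow_add]
    ring
  have h3 : (fun b : Fin m => algebraMap F L (p' b)) = fun b : Fin m => P.coeff b :=
    (Matrix.mulVec_injective_iff_isUnit.2 ((Matrix.isUnit_iff_isUnit_det _).2
      (isUnit_iff_ne_zero.2 hHdet))) h2
  have h4 : P ∈ lifts (algebraMap F L) := by
    rw [lifts_iff_coeff_lifts]
    intro n
    rcases lt_trichotomy n m with hn | hn | hn
    · exact ⟨p' ⟨n, hn⟩, congrFun h3 ⟨n, hn⟩⟩
    · refine ⟨1, ?_⟩
      have := hPm.coeff_natDegree
      rw [hPd] at this
      rw [hn, this, map_one]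
    · refine ⟨0, ?_⟩
      rw [coeff_eq_zero_of_natDegree_lt (by rw [hPd]; exact hn), map_zero]
  rw [mem_lifts] at h4
  exact h4

theorem sym : S_SYM := by
  intro F m y hy hs
  exact sym_aux (F := F) (L := OB) m y hy fun n => ⟨⟨∑ i, y i ^ n, hs n⟩, rfl⟩

end Pool.Agent.R836.RD
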