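import Pool.Agent.R836.RD.Defs

set_option autoImplicit false

/-!
# Project RD, piece TAU (helper408): an automorphism for one prime
-/

namespace Pool.Agent.R836.RD

open PowerSeries Pool.Agent.TH693.QQ Pool.Agent.H397R2.PP Pool.Agent.H307R2.OP Pool.Agent.Y627.PT
open Pool.Agent.TH693.PP (E P)

namespace TAUaux

theorem coeff_pt (c : kk) (j : ℕ) (hj : j ≠ 0) (f : Sk) (n : ℕ) :
    PowerSeries.coeff n (pt c j f) = if j ∣ n then c ^ (n / j) * PowerSeries.coeff (n / j) f else 0 := by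
  unfold pt
  rw [dif_pos hj]
  show PowerSeries.coeff n (PowerSeries.expand j hj (PowerSeries.rescale c f)) = _
  rw [PowerSeries.coeff_expand]
  split_ifs with h
  · rw [PowerSeries.coeff_rescale]
  · rfl

theorem coeff_ofPS_nat (f : Sk) (n : ℕ) :
    (HahnSeries.ofPowerSeries ℤ kk f).coeff (n : ℤ) = PowerSeries.coeff n f :=
  HahnSeries.ofPowerSeries_apply_coeff f n

theorem coeff_ofPS_neg (f : Sk) (n : ℤ) (hn : n < 0) :
    (HahnSeries.ofPowerSeries ℤ kk f).coeff n = 0 := by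
  rw [HahnSeries.ofPowerSeries_apply]
  apply HahnSeries.embDomain_of_notMem_range
  rintro ⟨m, hm⟩
  have h1 : ((m : ℕ) : ℤ) = n := hm
  omega

theorem tw_ev (ζ c : kk) (j : ℕ) (hj : j ≠ 0) (f : (ZMod 2)⟦X⟧) :
    tw ζ (ev c j f) = ev (c * ζ ^ j) j f := by
  ext n
  show ζ ^ n * (HahnSeries.ofPowerSeries ℤ kk (pt c j (ik f))).coeff n =
    (HahnSeries.ofPowerSeries ℤ kk (pt (c * ζ ^ j) j (ik f))).coeff n
  rcases lt_or_ge n 0 with hn | hn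
  · rw [coeff_ofPS_neg _ _ hn, coeff_ofPS_neg _ _ hn, mul_zero]
  · obtain ⟨k, rfl⟩ := Int.eq_ofNat_of_zero_le hn
    rw [coeff_ofPS_nat, coeff_ofPS_nat, coeff_pt _ _ hj, coeff_pt _ _ hj, zpow_natCast]
    split_ifs with h
    · obtain ⟨q, rfl⟩ := h
      rw [Nat.mul_div_cancel_left _ (Nat.pos_of_ne_zero hj), mul_pow, ← pow_mul]
      ring
    · rw [mul_zero]

theorem tw_pr (ζ : kk) (κ : ℕ) (γ : ZMod (2 ^ κ)) (f : Om) :
    tw ζ (prO κ γ f) = prO κ γ (tw ζ f) := by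
  ext n
  show ζ ^ n * (if (n : ZMod (2 ^ κ)) = γ then f.coeff n else 0) =
    if (n : ZMod (2 ^ κ)) = γ then ζ ^ n * f.coeff n else 0
  split_ifs
  · rfl
  · rw [mul_zero]

theorem tw_tw (ζ ξ : kk) (f : Om) : tw ζ (tw ξ f) = tw (ζ * ξ) f := by
  ext n
  show ζ ^ n * (ξ ^ n * f.coeff n) = (ζ * ξ) ^ n * f.coeff n
  rw [mul_zpow]
  ring

theorem tw_one (f : Om) : tw 1 f = f := by
  ext n
  show (1 : kk) ^ n * f.coeff n = f.coeff n
  rw [one_zpow, one_mul]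

theorem T_pow {ζ : kk} {T : OB ≃ₐ[kk] OB} (hT : ∀ f : Om, T (io' f) = io' (tw ζ f)) (m : ℕ)
    (f : Om) : (T ^ m) (io' f) = io' (tw (ζ ^ m) f) := by
  induction m generalizing f with
  | zero => rw [pow_zero, pow_zero, tw_one]; rfl
  | succ m ih =>
    rw [pow_succ, pow_succ]
    show (T ^ m) (T (io' f)) = _
    rw [hT, ih, tw_tw]

theorem T_dB {ζ : kk} {T : OB ≃ₐ[kk] OB} (hT : ∀ f : Om, T (io' f) = io' (tw ζ f)) (m : ℕ)
    (c : kk) (j : ℕ) (hj : j ≠ 0) : (T ^ m) (dB c j) = dB (c * (ζ ^ m) ^ j) j := by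
  unfold dB dO
  rw [T_pow hT, tw_ev _ _ _ hj]

theorem prO_zero (γ : ZMod (2 ^ 0)) (f : Om) : prO 0 γ f = f := by
  ext n
  show (if (n : ZMod (2 ^ 0)) = γ then f.coeff n else 0) = f.coeff n
  rw [if_pos]
  have : Subsingleton (ZMod (2 ^ 0)) := by
    rw [pow_zero]
    infer_instance
  exact Subsingleton.elim _ _

theorem comp_zero {ρ : OB ≃ₐ[kk] OB} {c c' : kk} {j j' : ℕ} :
    Comp 0 ρ c j c' j' ↔ ρ (dB c j) = dB c' j' := by
  constructor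
  · intro h
    have := h 0
    rwa [prO_zero, prO_zero] at this
  · intro h γ
    rw [prO_zero, prO_zero]
    exact h

theorem dB_inj (hI : S_INJ) {c c' : kk} {j j' : ℕ} (hc : c ≠ 0) (hc' : c' ≠ 0) (hj : 0 < j)
    (hj' : 0 < j') (h : dB c j = dB c' j') : c = c' ∧ j = j' :=
  hI c c' j j' hc hc' hj hj' (FaithfulSMul.algebraMap_injective Om OB h)

theorem exists_prim (L : ℕ) (hL : Odd L) : ∃ ζ : kk, IsPrimitiveRoot ζ L := by
  have hL0 : L ≠ 0 := by rintro rfl; simp at hL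
  have : NeZero L := ⟨hL0⟩
  have hcast : ((L : ℕ) : kk) ≠ 0 := by
    intro h
    have : CharP kk 2 := charP_of_injective_algebraMap (algebraMap (ZMod 2) kk).injective 2
    rw [CharP.cast_eq_zero_iff kk 2] at h
    exact (Nat.not_even_iff_odd.2 hL) (even_iff_two_dvd.2 h)
  have : NeZero ((L : ℕ) : kk) := ⟨hcast⟩
  exact HasEnoughRootsOfUnity.exists_primitiveRoot kk L

end TAUaux

open TAUaux in
theorem tau : S_TAU := by
  intro hEX hAUT hSYM hHK hGOOD hTW hSTEP hDEL hVV hUN hINJ κ M l hM hl hlM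
  have hM0 : 0 < M := hM.pos
  have hl2 : l ≠ 2 := by
    rintro rfl
    exact (Nat.not_even_iff_odd.2 hM) (even_iff_two_dvd.2 hlM)
  obtain ⟨L, hL⟩ : ∃ L : ℕ, L = 3 * M := ⟨_, rfl⟩
  rw [← hL]
  have hL0 : 0 < L := by omega
  have hLodd : Odd L := by rw [hL]; exact Odd.mul (by decide) hM
  have hlL : l ∣ L := by rw [hL]; exact hlM.mul_left 3
  have step := hSTEP hDEL hVV hINJ hHK hUN
  obtain ⟨ρ, hρ1, hρ2⟩ := hEX hAUT hSYM hINJ hHK L l hL0 hl hl2 hlL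
  obtain ⟨ζ, hζ⟩ := exists_prim L hLodd
  have hζ0 : ζ ≠ 0 := hζ.ne_zero hL0.ne'
  obtain ⟨T, hT⟩ := hTW ζ hζ0
  -- the exponent
  obtain ⟨m₀, hm₀⟩ : ∃ m₀ : ℕ, m₀ = ∏ q ∈ M.primeFactors.erase l, q := ⟨_, rfl⟩
  have hinv1 : ρ⁻¹ (dB 1 L) = dB 1 L := by
    rw [AlgEquiv.aut_inv]
    rw [AlgEquiv.symm_apply_eq]
    exact hρ1.symm
  obtain ⟨U, hU⟩ : ∃ U : OB ≃ₐ[kk] OB, U = ρ * T ^ m₀ * ρ⁻¹ := ⟨_, rfl⟩
  have hTL : ∀ m : ℕ, (T ^ m) (dB 1 L) = dB 1 L := by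
    intro m
    rw [T_dB hT m 1 L hL0.ne', ← pow_mul, mul_comm m L, pow_mul, hζ.pow_eq_one, one_pow, mul_one]
  have hUL : U (dB 1 L) = dB 1 L := by
    rw [hU]
    show ρ ((T ^ m₀) (ρ⁻¹ (dB 1 L))) = dB 1 L
    rw [hinv1, hTL, hρ1]
  choose J hJ using fun γ : ZMod (2 ^ κ) => hGOOD L κ hL0 γ U hUL
  have : NeZero (2 ^ κ) := ⟨by positivity⟩
  obtain ⟨J₀, hJ₀⟩ : ∃ J₀ : ℕ, J₀ = ∑ γ : ZMod (2 ^ κ), J γ := ⟨_, rfl⟩
  have hJle : ∀ γ, J γ ≤ J₀ := fun γ => by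
    rw [hJ₀]
    exact Finset.single_le_sum (f := J) (fun _ _ => Nat.zero_le _) (Finset.mem_univ γ)
  obtain ⟨m, hm⟩ : ∃ m : ℕ, m = m₀ * 2 ^ J₀ := ⟨_, rfl⟩
  have hUpow : U ^ (2 ^ J₀) = ρ * T ^ m * ρ⁻¹ := by
    rw [hU, conj_pow, ← pow_mul, hm]
  have hτ : ∀ x, (U ^ (2 ^ J₀)) x = ρ ((T ^ m) (ρ⁻¹ x)) := by
    intro x
    rw [hUpow]
    rfl
  -- the images of the neighbours under the inverse
  have hinv0 : Comp 0 ρ⁻¹ 1 L 1 L := comp_zero.2 hinv1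
  have hnb : ∀ q : ℕ, q.Prime → q ≠ 2 → q ∣ L → ∃ (d' : kk) (m' : ℕ), Nb q 1 L d' m' ∧
      ρ⁻¹ (dB 1 (L * q)) = dB d' m' := by
    intro q hq hq2 hqL
    obtain ⟨d', m', h1, h2⟩ := step 0 ρ⁻¹ q hq hq2 1 1 L L one_ne_zero one_ne_zero hL0 hL0 hqL hqL
      hinv0 1 (L * q) (Or.inl ⟨(one_pow q).symm, rfl⟩)
    exact ⟨d', m', h1, comp_zero.1 h2⟩
  refine ⟨U ^ (2 ^ J₀), ?_, ?_, ?_⟩
  · intro γ
    exact hJ γ J₀ (hJle γ)
  · obtain ⟨d', m', h1, h2⟩ := hnb l hl hl2 hlL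
    have h3 : d' ^ l = 1 ∧ m' * l = L := by
      rcases h1 with ⟨h1, h1'⟩ | h1
      · exfalso
        apply hρ2
        rw [h1, h1', one_pow] at h2
        rw [AlgEquiv.aut_inv, AlgEquiv.symm_apply_eq] at h2
        exact h2.symm
      · exact h1
    obtain ⟨h4, h5⟩ := h3
    have hd0 : d' ≠ 0 := by
      rintro rfl
      rw [zero_pow hl.pos.ne'] at h4
      exact zero_ne_one h4
    have hm0 : 0 < m' := by
      rcases Nat.eq_zero_or_pos m' with h | h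
      · rw [h, zero_mul] at h5; omega
      · exact h
    rw [hτ, h2]
    intro h6
    have h7 : (T ^ m) (dB d' m') = dB d' m' := by
      have h8 : ρ ((T ^ m) (dB d' m')) = ρ (dB d' m') := by
        rw [h6, ← h2]
        rw [AlgEquiv.aut_inv, AlgEquiv.apply_symm_apply]
      exact ρ.injective h8
    rw [T_dB hT m d' m' hm0.ne'] at h7
    have h9 := (dB_inj hINJ (mul_ne_zero hd0 (pow_ne_zero _ (pow_ne_zero _ hζ0))) hd0 hm0 hm0 h7).1
    have h10 : (ζ ^ m) ^ m' = 1 := by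
      have : d' * (ζ ^ m) ^ m' = d' * 1 := by rw [h9, mul_one]
      exact mul_left_cancel₀ hd0 this
    rw [← pow_mul] at h10
    have h11 : L ∣ m * m' := hζ.dvd_of_pow_eq_one _ h10
    rw [← h5, mul_comm m' l] at h11
    have h12 : l ∣ m := Nat.dvd_of_mul_dvd_mul_right hm0 h11
    rw [hm] at h12
    rcases hl.dvd_mul.1 h12 with h13 | h13
    · rw [hm₀] at h13
      obtain ⟨q, hq, hlq⟩ := (hl.prime.dvd_finsetProd_iff _).1 h13
      rw [Finset.mem_erase] at hq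
      exact hq.1 ((Nat.prime_dvd_prime_iff_eq hl (Nat.prime_of_mem_primeFactors hq.2)).1 hlq).symm
    · exact hl2 ((Nat.prime_dvd_prime_iff_eq hl Nat.prime_two).1 (hl.dvd_of_dvd_pow h13))
  · intro q hq hqM hql
    have hq2 : q ≠ 2 := by
      rintro rfl
      exact (Nat.not_even_iff_odd.2 hM) (even_iff_two_dvd.2 hqM)
    have hqL : q ∣ L := by rw [hL]; exact hqM.mul_left 3
    obtain ⟨d', m', h1, h2⟩ := hnb q hq hq2 hqL
    rw [hτ, h2]
    have hm' : 0 < m' := by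
      rcases h1 with ⟨-, h⟩ | ⟨-, h⟩
      · rw [h]; exact Nat.mul_pos hL0 hq.pos
      · rcases Nat.eq_zero_or_pos m' with h' | h'
        · rw [h', zero_mul] at h; omega
        · exact h'
    have h3 : L ∣ m * m' := by
      rcases h1 with ⟨-, h⟩ | ⟨-, h⟩
      · rw [h]
        exact (dvd_mul_right L q).mul_left m
      · rw [← h, mul_comm m' q]
        refine mul_dvd_mul ?_ dvd_rfl
        rw [hm, hm₀]
        refine Dvd.dvd.mul_right (Finset.dvd_prod_of_mem _ ?_) _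
        rw [Finset.mem_erase]
        exact ⟨hql, Nat.mem_primeFactors.2 ⟨hq, hqM, hM0.ne'⟩⟩
    have h4 : (ζ ^ m) ^ m' = 1 := by
      rw [← pow_mul]
      exact (hζ.pow_eq_one_iff_dvd _).2 h3
    rw [T_dB hT m d' m' hm'.ne', h4, mul_one, ← h2]
    rw [AlgEquiv.aut_inv, AlgEquiv.apply_symm_apply]

end Pool.Agent.R836.RD
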