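import Pool.Agent.R836.RD.Defs

set_option autoImplicit false

/-! TW: the automorphism `w → ζ w` of the Laurent series extends to the algebraic closure. -/

namespace Pool.Agent.R836.RD

open PowerSeries Pool.Agent.TH693.QQ Pool.Agent.H397R2.PP Pool.Agent.H307R2.OP Pool.Agent.Y627.PT
open Pool.Agent.TH693.PP (E P)

namespace TWp

theorem tw_coeff (ζ : kk) (f : Om) (n : ℤ) : (tw ζ f).coeff n = ζ ^ n * f.coeff n := rfl

theorem tw_add (ζ : kk) (f g : Om) : tw ζ (f + g) = tw ζ f + tw ζ g := by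
  ext n
  rw [HahnSeries.coeff_add, tw_coeff, tw_coeff, tw_coeff, HahnSeries.coeff_add, mul_add]

theorem mem_supp (ζ : kk) (hζ : ζ ≠ 0) (f : Om) (n : ℤ) :
    n ∈ (tw ζ f).support ↔ n ∈ f.support := by
  rw [HahnSeries.mem_support, HahnSeries.mem_support, tw_coeff, mul_ne_zero_iff]
  exact ⟨fun h => h.2, fun h => ⟨zpow_ne_zero _ hζ, h⟩⟩

theorem tw_mul (ζ : kk) (hζ : ζ ≠ 0) (f g : Om) : tw ζ (f * g) = tw ζ f * tw ζ g := by
  ext n
  rw [tw_coeff, HahnSeries.coeff_mul, HahnSeries.coeff_mul, Finset.mul_sum]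
  refine Finset.sum_congr ?_ (fun ij hij => ?_)
  · ext ij
    simp only [Finset.mem_antidiagonal, mem_supp ζ hζ]
  · have h : ij.1 + ij.2 = n := by
      rw [Finset.mem_antidiagonal] at hij
      exact hij.2.2
    rw [tw_coeff, tw_coeff, ← h, zpow_add₀ hζ]
    ring

theorem tw_tw (ζ ξ : kk) (f : Om) : tw ζ (tw ξ f) = tw (ζ * ξ) f := by
  ext n
  rw [tw_coeff, tw_coeff, tw_coeff, mul_zpow, mul_assoc]

theorem tw_one (f : Om) : tw 1 f = f := by
  ext n
  rw [tw_coeff, one_zpow, one_mul]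

theorem tw_C (ζ c : kk) : tw ζ (HahnSeries.C c : Om) = HahnSeries.C c := by
  ext n
  rw [tw_coeff]
  by_cases h : n = 0
  · rw [h, zpow_zero, one_mul]
  · rw [HahnSeries.C_apply, HahnSeries.coeff_single_of_ne h, mul_zero]

/-- `tw ζ` as a ring automorphism -/
noncomputable def twE (ζ : kk) (hζ : ζ ≠ 0) : Om ≃+* Om where
  toFun := tw ζ
  invFun := tw ζ⁻¹
  left_inv f := by rw [tw_tw, inv_mul_cancel₀ hζ, tw_one]
  right_inv f := by rw [tw_tw, mul_inv_cancel₀ hζ, tw_one]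
  map_mul' := tw_mul ζ hζ
  map_add' := tw_add ζ

end TWp

open TWp in
theorem tw_ok : S_TW := by
  intro ζ hζ
  have e := IsAlgClosure.equivOfEquiv_algebraMap OB OB (twE ζ hζ)
  have hC : ∀ r : kk, IsAlgClosure.equivOfEquiv OB OB (twE ζ hζ) (algebraMap kk OB r) =
      algebraMap kk OB r := by
    intro r
    rw [IsScalarTower.algebraMap_apply kk Om OB, e]
    congr 1
    have h1 : algebraMap kk Om r = HahnSeries.C r := by
      rw [HahnSeries.algebraMap_apply', PowerSeries.algebraMap_apply, Algebra.algebraMap_self_apply,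
        HahnSeries.ofPowerSeries_C]
    rw [h1]
    exact tw_C ζ r
  exact ⟨AlgEquiv.ofRingEquiv (f := IsAlgClosure.equivOfEquiv OB OB (twE ζ hζ)) hC, fun f => e f⟩

end Pool.Agent.R836.RD
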