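import Pool.Agent.R836.RD.Defs

set_option autoImplicit false

/-! Units, power sums and cube roots in the group algebra `OB[Z / 2 ^ κ]`. -/

namespace Pool.Agent.R836.RD

open PowerSeries Pool.Agent.TH693.QQ

theorem two_OB : (2 : OB) = 0 := by
  have h : (2 : kk) = 0 := by
    have := CharP.cast_eq_zero kk 2
    exact_mod_cast this
  have h1 := congrArg (algebraMap kk OB) h
  rwa [map_zero, map_ofNat] at h1

instance charP_Az (κ : ℕ) : CharP (Az κ) 2 := by
  have h2 : (2 : Az κ) = 0 := by
    have h1 := congrArg (algebraMap OB (Az κ)) two_OB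
    rwa [map_zero, map_ofNat] at h1
  exact CharTwo.of_one_ne_zero_of_two_eq_zero one_ne_zero h2

theorem res_single' (κ : ℕ) (γ : ZMod (2 ^ κ)) (a : OB) :
    res κ (AddMonoidAlgebra.single γ a) = a := by
  unfold res
  simp

theorem un : S_UN := by
  intro κ x hx
  have h1 : x = ∑ γ : ZMod (2 ^ κ), AddMonoidAlgebra.single γ (x.coeff γ) := by
    ext δ
    simp only [AddMonoidAlgebra.coeff_sum, AddMonoidAlgebra.coeff_single, Finsupp.finsetSum_apply,
      Finsupp.single_apply]
    rw [Finset.sum_ite_eq' Finset.univ δ (fun γ => x.coeff γ), if_pos (Finset.mem_univ δ)]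
  have h2 : res κ x = ∑ γ : ZMod (2 ^ κ), x.coeff γ := by
    conv_lhs => rw [h1]
    rw [map_sum]
    exact Finset.sum_congr rfl fun γ _ => res_single' κ γ _
  have h3 : x ^ 2 ^ κ = AddMonoidAlgebra.single 0 ((res κ x) ^ 2 ^ κ) := by
    have : CharP OB 2 := CharTwo.of_one_ne_zero_of_two_eq_zero one_ne_zero two_OB
    rw [h2, sum_pow_char_pow 2]
    conv_lhs => rw [h1]
    rw [sum_pow_char_pow 2]
    have h4 : ∀ γ : ZMod (2 ^ κ), (AddMonoidAlgebra.single γ (x.coeff γ) : Az κ) ^ 2 ^ κ =
        AddMonoidAlgebra.single 0 (x.coeff γ ^ 2 ^ κ) := by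
      intro γ
      rw [AddMonoidAlgebra.single_pow]
      congr 1
      rw [nsmul_eq_mul, ZMod.natCast_self, zero_mul]
    rw [Finset.sum_congr rfl fun γ _ => h4 γ]
    exact (map_sum (AddMonoidAlgebra.singleZeroRingHom (R := OB) (M := ZMod (2 ^ κ))) _ _).symm
  have h5 : IsUnit (x ^ 2 ^ κ) := by
    rw [h3]
    have h6 : IsUnit ((res κ x) ^ 2 ^ κ) := (pow_ne_zero _ hx).isUnit
    exact h6.map (AddMonoidAlgebra.singleZeroRingHom (R := OB) (M := ZMod (2 ^ κ)))
  exact (isUnit_pow_iff (pow_ne_zero κ two_ne_zero)).1 h5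

theorem vv : S_VV := by
  intro hun κ m y y' hy hy' hs i0
  have hlin : ∀ h : Polynomial (Az κ), ∑ i, h.eval (y i) = ∑ i, h.eval (y' i) := by
    intro h
    induction h using Polynomial.induction_on' with
    | add p q hp hq => simp only [Polynomial.eval_add, Finset.sum_add_distrib, hp, hq]
    | monomial n a => simp only [Polynomial.eval_monomial, ← Finset.mul_sum, hs n]
  classical
  have h1 := hlin ((∏ j, (Polynomial.X - Polynomial.C (y' j))) *
    ∏ i ∈ Finset.univ.erase i0, (Polynomial.X - Polynomial.C (y i)))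
  have h2 : ∑ i, ((∏ j, (Polynomial.X - Polynomial.C (y' j))) *
    ∏ i ∈ Finset.univ.erase i0, (Polynomial.X - Polynomial.C (y i))).eval (y' i) = 0 := by
    refine Finset.sum_eq_zero fun i _ => ?_
    rw [Polynomial.eval_mul, Polynomial.eval_prod]
    rw [Finset.prod_eq_zero (Finset.mem_univ i) (by simp), zero_mul]
  rw [h2, Finset.sum_eq_single i0] at h1
  · rw [Polynomial.eval_mul, Polynomial.eval_prod, Polynomial.eval_prod] at h1
    simp only [Polynomial.eval_sub, Polynomial.eval_X, Polynomial.eval_C] at h1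
    have hu : IsUnit (∏ i ∈ Finset.univ.erase i0, (y i0 - y i)) := by
      rw [IsUnit.prod_iff]
      intro i hi
      apply hun
      rw [map_sub, sub_ne_zero]
      exact hy i0 i (Finset.ne_of_mem_erase hi).symm
    have h3 : ∏ j, (y i0 - y' j) = 0 := by
      rw [hu.mul_left_eq_zero] at h1
      exact h1
    by_contra hcon
    push Not at hcon
    by_cases hall : ∀ j, res κ (y i0) ≠ res κ (y' j)
    · have h4 : IsUnit (∏ j, (y i0 - y' j)) := by
        rw [IsUnit.prod_iff]
        intro j _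
        apply hun
        rw [map_sub, sub_ne_zero]
        exact hall j
      rw [h3] at h4
      exact not_isUnit_zero h4
    · push Not at hall
      obtain ⟨j0, hj0⟩ := hall
      rw [← Finset.mul_prod_erase Finset.univ _ (Finset.mem_univ j0)] at h3
      have h4 : IsUnit (∏ j ∈ Finset.univ.erase j0, (y i0 - y' j)) := by
        rw [IsUnit.prod_iff]
        intro j hj
        apply hun
        rw [map_sub, sub_ne_zero, hj0]
        exact hy' j0 j (Finset.ne_of_mem_erase hj).symm
      rw [h4.mul_left_eq_zero] at h3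
      exact hcon j0 (sub_eq_zero.1 h3)
  · intro i _ hi
    rw [Polynomial.eval_mul, Polynomial.eval_prod, Polynomial.eval_prod]
    rw [Finset.prod_eq_zero (i := i) (s := Finset.univ.erase i0)
      (Finset.mem_erase.2 ⟨hi, Finset.mem_univ i⟩) (by simp), mul_zero]
  · intro h
    exact absurd (Finset.mem_univ i0) h

theorem cub : S_CUB := by
  intro hun κ x y hy hxy
  obtain ⟨yu, hyu⟩ := hun κ y hy
  have h3 : (3 : ℕ) ≠ 0 := by norm_num
  have : NeZero ((3 : ℕ) : kk) := ⟨by
    have h2 : (2 : kk) = 0 := by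
      have := CharP.cast_eq_zero kk 2
      exact_mod_cast this
    have e : ((3 : ℕ) : kk) = 2 + 1 := by norm_num
    rw [e, h2, zero_add]
    exact one_ne_zero⟩
  obtain ⟨ω, hω⟩ := HasEnoughRootsOfUnity.exists_primitiveRoot kk 3
  have hs : 1 + ω + ω ^ 2 = 0 := by
    have := hω.geom_sum_eq_zero (by norm_num)
    simpa [Finset.sum_range_succ] using this
  set f : kk →+* Az κ := (AddMonoidAlgebra.singleZeroRingHom (R := OB) (M := ZMod (2 ^ κ))).comp
    (io'.comp HahnSeries.C) with hf
  have hfω : ∀ c : kk, f c = AddMonoidAlgebra.single 0 (io' (HahnSeries.C c)) := fun c => rfl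
  have hres : ∀ c : kk, res κ (f c) = io' (HahnSeries.C c) := fun c => by
    rw [hfω, res_single']
  have hinj : ∀ c d : kk, c ≠ d → res κ (f c) ≠ res κ (f d) := by
    intro c d hcd h
    rw [hres, hres] at h
    exact hcd (HahnSeries.C_injective (io'.injective h))
  set u : Az κ := x * ↑yu⁻¹ with hu
  have hux : x = u * y := by
    rw [hu, ← hyu, mul_assoc, Units.inv_mul, mul_one]
  have hu3 : u ^ 3 = 1 := by
    rw [hu, mul_pow, hxy, ← hyu, ← mul_pow, Units.mul_inv, one_pow]
  have hfac : (u - f 1) * ((u - f ω) * (u - f (ω ^ 2))) = 0 := by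
    have hs' : 1 + f ω + f ω ^ 2 = 0 := by
      have := congrArg f hs
      rwa [map_add, map_add, map_one, map_pow, map_zero] at this
    have h6 : f ω ^ 3 = 1 := by rw [← map_pow, hω.pow_eq_one, map_one]
    rw [map_one, map_pow]
    linear_combination hu3 + (-(u - 1) * u) * hs' + (u - 1) * h6
  have hω1 : ω ≠ 1 := hω.ne_one (by norm_num)
  have hω0 : ω ≠ 0 := hω.ne_zero (by norm_num)
  have hω2 : ω ^ 2 ≠ 1 := fun h => by
    have := hω.pow_eq_one_iff_dvd 2 |>.1 h
    omega
  have hωω : ω ^ 2 ≠ ω := fun h => by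
    apply hω1
    have h7 : ω * ω = ω * 1 := by rw [mul_one, ← sq, h]
    exact mul_left_cancel₀ hω0 h7
  have hunit : ∀ c d : kk, res κ u = res κ (f c) → c ≠ d → IsUnit (u - f d) := by
    intro c d h1 h2
    apply hun
    rw [map_sub, sub_ne_zero, h1]
    exact hinj c d h2
  have hr := congrArg (res κ) hfac
  rw [map_mul, map_mul, map_sub, map_sub, map_sub, map_zero] at hr
  have hfin : ∃ c : kk, c ^ 3 = 1 ∧ u = f c := by
    rcases mul_eq_zero.1 hr with h | h
    · have h1 := sub_eq_zero.1 h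
      have hu1 := (hunit _ _ h1 hω1.symm).mul (hunit _ _ h1 hω2.symm)
      rw [hu1.mul_left_eq_zero] at hfac
      exact ⟨1, one_pow 3, sub_eq_zero.1 hfac⟩
    · rcases mul_eq_zero.1 h with h | h
      · have h1 := sub_eq_zero.1 h
        have hu1 := hunit _ _ h1 hω1
        have hu2 := hunit _ _ h1 hωω.symm
        rw [hu1.mul_right_eq_zero, hu2.mul_left_eq_zero] at hfac
        exact ⟨ω, hω.pow_eq_one, sub_eq_zero.1 hfac⟩
      · have h1 := sub_eq_zero.1 h
        have hu1 := hunit _ _ h1 hω2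
        have hu2 := hunit _ _ h1 hωω
        rw [hu1.mul_right_eq_zero, hu2.mul_right_eq_zero] at hfac
        exact ⟨ω ^ 2, by rw [← pow_mul, mul_comm, pow_mul, hω.pow_eq_one, one_pow],
          sub_eq_zero.1 hfac⟩
  obtain ⟨c, hc, huc⟩ := hfin
  exact ⟨c, hc, by rw [hux, huc, hfω]⟩

end Pool.Agent.R836.RD
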