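import Pool.Agent.R836.RD.AUT
import Pool.Agent.R836.RD.SYM
import Pool.Agent.R836.RD.UN0
import Pool.Agent.R836.RD.DEL
import Pool.Agent.R836.RD.RING
import Pool.Agent.R836.RD.HK
import Pool.Agent.R836.RD.INJ
import Pool.Agent.R836.RD.STEP
import Pool.Agent.R836.RD.EX0
import Pool.Agent.R836.RD.GOOD
import Pool.Agent.R836.RD.TW
import Pool.Agent.R836.RD.SWAP
import Pool.Agent.R836.RD.TAU
import Pool.Agent.R836.RD.COMB
import Pool.Agent.R836.RD.DOWN
import Pool.Agent.R836.RD.PATH
import Pool.Agent.R836.RD.EE
import Pool.Agent.R836.RD.EIM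
import Pool.Agent.R836.RD.REL
import Pool.Agent.R836.RD.GAB
import Pool.Agent.R836.RD.FINA
import Pool.Agent.R836.RD.FINB
import Pool.Agent.R836.RD.FINP
import Pool.Agent.R836.RD.PART
import Pool.Agent.R836.RD.Pat

set_option autoImplicit false

/-! Assembly of the pieces. -/

namespace Pool.Agent.R836.RD

open PowerSeries Pool.Agent.TH693.QQ
open Pool.Agent.TH693.PP (E P)

theorem c_step : C_STEP := step del vv inj hk un

theorem c_tau : C_TAU := tau ex0 aut sym hk good tw_ok step del vv un inj

theorem c_comb : C_COMB := comb c_tau c_step del inj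

theorem c_down : C_DOWN := down c_step del inj

theorem c_swap : C_SWAP := swap c_comb c_down tw_ok del

theorem c_path : C_PATH := path c_step

theorem c_eim : C_EIM := eim ee c_path c_step cub un del inj

theorem full_Pa : Full Pa := full_of (fina c_swap c_eim ring del inj ee rel gab)

theorem full_Pb : Full Pb := full_of (finb c_swap c_eim ring del inj ee rel gab)

theorem full_P (t : ℕ) (ht : Odd t) : Full (P ^ t) :=
  full_of (finp c_swap c_eim ring del inj rel t ht)

end Pool.Agent.R836.RD
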