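import Pool.Agent.R836.RD.Defs2
import Pool.Agent.R836.RD.PART

/-! PARTG: regular partitions modulo 2. -/

set_option autoImplicit false

namespace Pool.Agent.R836.RD

open PowerSeries Pool.Agent.TH693.PP

namespace PARTG

section top

open scoped PowerSeries.WithPiTopology

local instance : TopologicalSpace (ZMod 2) := ⊥
local instance : DiscreteTopology (ZMod 2) := ⟨rfl⟩

theorem reg (m : ℕ) (hm : m ≠ 0) : (PowerSeries.mk fun n =>
    ((Nat.Partition.restricted n (fun i => ¬ m ∣ i)).card : ZMod 2)) * E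
      = PowerSeries.expand m hm E := by
  have h1 := PART.hasProd_restr (fun i => ¬ m ∣ i)
  have h2 := PART.hasProd_mult m hm
  refine h1.unique ?_
  convert h2 using 1
  funext i
  by_cases h : m ∣ i + 1
  · rw [if_neg (not_not.2 h), if_pos h]
  · rw [if_pos h, if_neg h]

end top

theorem expm (a m₀ : ℕ) (h : m₀ ≠ 0) (hm : 2 ^ a * m₀ ≠ 0) :
    PowerSeries.expand (2 ^ a * m₀) hm E = (PowerSeries.expand m₀ h E) ^ 2 ^ a := by
  have h2 : (2 : ℕ) ^ a ≠ 0 := by positivity
  rw [Pool.Agent.H397R2.PP.pow_eq_expand' (2 ^ a) a h2 rfl]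
  ext n
  rw [PowerSeries.coeff_expand, PowerSeries.coeff_expand]
  by_cases h3 : 2 ^ a ∣ n
  · rw [if_pos h3, PowerSeries.coeff_expand]
    by_cases h4 : m₀ ∣ n / 2 ^ a
    · have h5 : 2 ^ a * m₀ ∣ n := by
        obtain ⟨t, ht⟩ := h4
        refine ⟨t, ?_⟩
        rw [mul_assoc, ← ht, Nat.mul_div_cancel' h3]
      rw [if_pos h4, if_pos h5, Nat.div_div_eq_div_mul]
    · rw [if_neg h4, if_neg]
      rintro ⟨t, rfl⟩
      apply h4
      refine ⟨t, ?_⟩
      rw [mul_assoc, Nat.mul_div_cancel_left _ (by positivity)]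
  · rw [if_neg h3, if_neg]
    exact fun h5 => h3 ((dvd_mul_right _ _).trans h5)

theorem gen (a m₀ : ℕ) (h : m₀ ≠ 0) : (PowerSeries.mk fun n =>
    ((Nat.Partition.restricted n (fun i => ¬ (2 ^ a * m₀) ∣ i)).card : ZMod 2)) = Pg a m₀ h := by
  have hm : 2 ^ a * m₀ ≠ 0 := mul_ne_zero (by positivity) h
  have h1 := reg (2 ^ a * m₀) hm
  rw [expm a m₀ h hm] at h1
  unfold Pg
  change _ = (PowerSeries.expand m₀ h E) ^ 2 ^ a * P
  rw [← h1, mul_assoc, mul_comm E, P_mul_E, mul_one]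

end PARTG

theorem partg : S_PARTG := by
  intro a m₀ h n
  have h1 := congrArg (coeff n) (PARTG.gen a m₀ h)
  rw [PowerSeries.coeff_mk] at h1
  exact h1

end Pool.Agent.R836.RD
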