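import Pool.Agent.R836.RD.Main
import Pool.Agent.R836.RD.EIMG
import Pool.Agent.R836.RD.FING
import Pool.Agent.R836.RD.GABG
import Pool.Agent.R836.RD.PARTG

set_option autoImplicit false

/-! The general case: regular partitions. -/

namespace Pool.Agent.R836.RD

open PowerSeries Pool.Agent.TH693.QQ Pool.Agent.Y627.PT
open Pool.Agent.TH693.PP (E P)

theorem c_eimg : C_EIMG := eimg ee c_path c_step cub un del inj

theorem full_Pg (a m₀ : ℕ) (h : m₀ ≠ 0) (ha : 1 ≤ a) (hm : Odd m₀) (h2 : 2 ^ a < m₀) :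
    Full (Pg a m₀ h) :=
  full_of (fing c_swap c_eimg ring del inj rel gabg a m₀ h ha hm h2)

theorem sec_Pg (a m₀ : ℕ) (h : m₀ ≠ 0) : Sec (Pg a m₀ h) (1 - 2 ^ a * m₀) := by
  have h1 := sec_mul (sec_pow (sec_ex sec_E h) (2 ^ a)) sec_P
  have e : ((2 ^ a : ℕ) : ℤ) * ((m₀ : ℕ) * -1) + 1 = 1 - 2 ^ a * m₀ := by
    push_cast
    ring
  rw [e] at h1
  exact h1

open FINBaux in
/-- `f_21 / f_1` in the class 3 modulo 4 -/
theorem full_21 (A r : ℕ) (hA : 0 < A) (hr : r % 4 = 3) :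
    ∃ n : ℕ, n ≡ r [MOD A] ∧ coeff n (Pg 0 21 (by norm_num)) ≠ 0 := by
  obtain ⟨κ, M, hM, hAM⟩ := Nat.exists_eq_two_pow_mul_odd hA.ne'
  obtain ⟨x, hx, hx2⟩ := sq_lift (-105 * (M : ℤ) ^ 2) (6 * (r : ℤ) + 5)
    (by
      have h1 : Odd (M : ℤ) := by exact_mod_cast hM
      exact (by decide : Odd (-105 : ℤ)).mul h1.pow)
    (by
      obtain ⟨k, hk⟩ := hM
      obtain ⟨v, hv⟩ : ∃ v : ℕ, r = 4 * v + 3 := ⟨r / 4, by omega⟩
      rcases Nat.even_or_odd' k with ⟨u, hu | hu⟩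
      · refine ⟨-(210 * (u : ℤ) ^ 2 + 105 * u + 3 * v + 16), ?_⟩
        rw [hk, hu, hv]
        push_cast
        ring
      · refine ⟨-(210 * (u : ℤ) ^ 2 + 315 * u + 3 * v + 121), ?_⟩
        rw [hk, hu, hv]
        push_cast
        ring) κ
  have hm' : Odd (M * x.natAbs) := hM.mul (by rw [Int.natAbs_odd]; exact hx)
  obtain ⟨n, hn, hn0⟩ := fing_gen c_swap c_eimg ring del inj rel gabg 0 21 (by norm_num)
    (by decide) (by norm_num) κ M r (M * x.natAbs) hm' (Dvd.intro _ rfl) (by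
      apply Int.ModEq.symm
      rw [Int.modEq_iff_dvd]
      obtain ⟨q, hq⟩ := hx2
      refine ⟨4 * q, ?_⟩
      have h1 : ((x.natAbs : ℕ) : ℤ) ^ 2 = x ^ 2 := by rw [Int.natCast_natAbs, sq_abs]
      push_cast
      rw [mul_pow, sq_abs]
      linear_combination 4 * hq)
  refine ⟨n, ?_, hn0⟩
  rw [hAM]
  exact hn

end Pool.Agent.R836.RD
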