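import Pool.Agent.R836.RD.Defs

/-!
# The pieces UN, VV and CUB
-/

set_option autoImplicit false

namespace Pool.Agent.R836.RD

open PowerSeries Pool.Agent.TH693.QQ

/-! ### UN -/

namespace UNaux

theorem charP_OB : CharP OB 2 := by
  have : CharP kk 2 := charP_of_injective_algebraMap (algebraMap (ZMod 2) kk).injective 2
  have : CharP Om 2 := charP_of_injective_algebraMap (algebraMap kk Om).injective 2
  exact charP_of_injective_algebraMap (algebraMap Om OB).injective 2

theorem res_single (κ : ℕ) (g : ZMod (2 ^ κ)) (r : OB) :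
    res κ (AddMonoidAlgebra.single g r) = r := by
  simp [res]

theorem charP_Az (κ : ℕ) : CharP (Az κ) 2 :=
  have := charP_OB
  charP_of_injective_algebraMap (R := OB) (A := Az κ) (algebraMap OB (Az κ)).injective 2

theorem pow_eq (κ : ℕ) (x : Az κ) :
    x ^ (2 ^ κ) = AddMonoidAlgebra.single 0 ((res κ x) ^ (2 ^ κ)) := by
  have := charP_OB
  have := charP_Az κ
  have : ExpChar (Az κ) 2 := ExpChar.prime Nat.prime_two
  have : ExpChar OB 2 := ExpChar.prime Nat.prime_two
  have key : (iterateFrobenius (Az κ) 2 κ) =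
      (AddMonoidAlgebra.singleZeroRingHom.comp (iterateFrobenius OB 2 κ)).comp (res κ) := by
    apply AddMonoidAlgebra.ringHom_ext
    · intro r
      simp only [iterateFrobenius_def, RingHom.comp_apply, res_single,
        AddMonoidAlgebra.singleZeroRingHom_apply, AddMonoidAlgebra.single_pow, smul_zero]
      rfl
    · intro g
      simp only [iterateFrobenius_def, RingHom.comp_apply, res_single,
        AddMonoidAlgebra.singleZeroRingHom_apply, AddMonoidAlgebra.single_pow, one_pow]
      congr 1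
      rw [nsmul_eq_mul]
      simp
  have := RingHom.congr_fun key x
  simpa [iterateFrobenius_def] using this

/-- the field `kk` in `Az κ` -/
noncomputable def em (κ : ℕ) : kk →+* Az κ :=
  (AddMonoidAlgebra.singleZeroRingHom.comp io').comp HahnSeries.C

theorem em_apply (κ : ℕ) (c : kk) : em κ c = AddMonoidAlgebra.single 0 (io' (HahnSeries.C c)) := rfl

theorem res_em (κ : ℕ) (c : kk) : res κ (em κ c) = io' (HahnSeries.C c) := by
  rw [em_apply, res_single]

theorem exists_omega : ∃ ω : kk, ω ^ 2 + ω + 1 = 0 := by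
  have h : (Polynomial.X ^ 2 + Polynomial.X + 1 : Polynomial kk).degree = 2 := by
    compute_degree!
  obtain ⟨ω, hω⟩ := IsAlgClosed.exists_root (Polynomial.X ^ 2 + Polynomial.X + 1 : Polynomial kk)
    (by rw [h]; norm_num)
  exact ⟨ω, by simpa using hω⟩

end UNaux

open UNaux

theorem un : S_UN := by
  intro κ x hx
  have h1 : IsUnit (x ^ (2 ^ κ)) := by
    rw [pow_eq]
    have h2 : IsUnit ((res κ x) ^ (2 ^ κ)) := (pow_ne_zero _ hx).isUnit
    exact h2.map AddMonoidAlgebra.singleZeroRingHom
  exact (isUnit_pow_iff (pow_ne_zero κ two_ne_zero)).1 h1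

theorem vv : S_VV := by
  classical
  intro hUN κ m y y' hy hy' hs i₀
  have hL : ∀ h : Polynomial (Az κ), ∑ i, h.eval (y i) = ∑ i, h.eval (y' i) := by
    intro h
    simp only [Polynomial.eval_eq_sum_range]
    rw [Finset.sum_comm, Finset.sum_comm (s := Finset.univ) (t := Finset.range (h.natDegree + 1))]
    refine Finset.sum_congr rfl fun n _ => ?_
    rw [← Finset.mul_sum, ← Finset.mul_sum, hs n]
  set h : Polynomial (Az κ) := (∏ j, (Polynomial.X - Polynomial.C (y' j))) *
    ∏ i ∈ Finset.univ.erase i₀, (Polynomial.X - Polynomial.C (y i)) with hh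
  have e1 : ∀ x : Az κ, h.eval x = (∏ j, (x - y' j)) * ∏ i ∈ Finset.univ.erase i₀, (x - y i) := by
    intro x
    rw [hh, Polynomial.eval_mul, Polynomial.eval_prod, Polynomial.eval_prod]
    simp
  have e2 : ∑ i, h.eval (y' i) = 0 := by
    refine Finset.sum_eq_zero fun i _ => ?_
    rw [e1, Finset.prod_eq_zero (Finset.mem_univ i) (sub_self _), zero_mul]
  have e3 : ∑ i, h.eval (y i) = h.eval (y i₀) := by
    refine Finset.sum_eq_single i₀ (fun i _ hi => ?_) (fun h => absurd (Finset.mem_univ _) h)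
    rw [e1, Finset.prod_eq_zero (s := Finset.univ.erase i₀) (i := i)
      (Finset.mem_erase.2 ⟨hi, Finset.mem_univ i⟩) (sub_self _), mul_zero]
  have e4 : (∏ j, (y i₀ - y' j)) * ∏ i ∈ Finset.univ.erase i₀, (y i₀ - y i) = 0 := by
    rw [← e1, ← e3, hL, e2]
  have u1 : IsUnit (∏ i ∈ Finset.univ.erase i₀, (y i₀ - y i)) := by
    apply hUN
    rw [map_prod]
    refine Finset.prod_ne_zero_iff.2 fun i hi => ?_
    rw [map_sub]
    exact sub_ne_zero.2 (hy i₀ i (Finset.mem_erase.1 hi).1.symm)
  have e5 : ∏ j, (y i₀ - y' j) = 0 := by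
    obtain ⟨u, hu⟩ := u1
    rw [← hu] at e4
    exact (Units.mul_left_eq_zero u).1 e4
  by_cases hex : ∃ j, res κ (y i₀) = res κ (y' j)
  · obtain ⟨j₀, hj₀⟩ := hex
    refine ⟨j₀, ?_⟩
    have u2 : IsUnit (∏ j ∈ Finset.univ.erase j₀, (y i₀ - y' j)) := by
      apply hUN
      rw [map_prod]
      refine Finset.prod_ne_zero_iff.2 fun j hj => ?_
      rw [map_sub, hj₀]
      exact sub_ne_zero.2 (hy' j₀ j (Finset.mem_erase.1 hj).1.symm)
    rw [← Finset.mul_prod_erase _ _ (Finset.mem_univ j₀)] at e5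
    obtain ⟨u, hu⟩ := u2
    rw [← hu] at e5
    exact sub_eq_zero.1 ((Units.mul_left_eq_zero u).1 e5)
  · exfalso
    push Not at hex
    have u2 : IsUnit (∏ j, (y i₀ - y' j)) := by
      apply hUN
      rw [map_prod]
      refine Finset.prod_ne_zero_iff.2 fun j _ => ?_
      rw [map_sub]
      exact sub_ne_zero.2 (hex j)
    rw [e5] at u2
    have : res κ 0 ≠ 0 := (u2.map (res κ)).ne_zero
    exact this (map_zero _)

theorem cub : S_CUB := by
  intro hUN κ x y hy hxy
  obtain ⟨ω, hω⟩ := exists_omega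
  have h3 : ω ^ 3 = 1 := by linear_combination (ω - 1) * hω
  have hchar : CharP kk 2 := charP_of_injective_algebraMap (algebraMap (ZMod 2) kk).injective 2
  have h2 : (2 : kk) = 0 := by exact_mod_cast CharP.cast_eq_zero kk 2
  have h1 : ω ≠ 1 := by
    rintro rfl
    have : (1 : kk) = 0 := by linear_combination hω - h2
    exact one_ne_zero this
  have h12 : ω ^ 2 ≠ 1 := by
    intro h
    apply h1
    linear_combination h3 - ω * h
  have hw2 : ω ^ 2 ≠ ω := by
    intro h
    have h0 : ω ≠ 0 := by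
      rintro rfl
      simp at h3
    apply h1
    have : ω * (ω - 1) = 0 := by linear_combination h
    rcases mul_eq_zero.1 this with h | h
    · exact absurd h h0
    · exact sub_eq_zero.1 h
  set e := em κ with he
  have E0 : e ω ^ 2 + e ω + 1 = 0 := by
    rw [← map_pow, ← map_add, ← map_one e, ← map_add, hω, map_zero]
  have key : (x - y) * ((x - e ω * y) * (x - e (ω ^ 2) * y)) = 0 := by
    rw [map_pow]
    have E3 : e ω ^ 3 = 1 := by linear_combination (e ω - 1) * E0
    linear_combination hxy + (x ^ 2 * y * (-1) + x * y ^ 2 * e ω) * E0 - y ^ 3 * (E3)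
  have inj : Function.Injective fun c : kk => io' (HahnSeries.C c) := by
    intro a b hab
    exact HahnSeries.C_injective (io'.injective hab)
  have unit_of : ∀ a b : kk, a ≠ b → res κ (x - e a * y) = 0 → IsUnit (x - e b * y) := by
    intro a b hab h0
    apply hUN
    rw [map_sub, map_mul, he, res_em] at h0 ⊢
    intro h
    have h5 : (io' (HahnSeries.C a) - io' (HahnSeries.C b)) * res κ y = 0 := by
      linear_combination h - h0
    rcases mul_eq_zero.1 h5 with h6 | h6
    · exact hab (inj (sub_eq_zero.1 h6))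
    · exact hy h6
  have key2 : (x - e 1 * y) * ((x - e ω * y) * (x - e (ω ^ 2) * y)) = 0 := by
    rw [map_one, one_mul]; exact key
  have hr : res κ (x - e 1 * y) * (res κ (x - e ω * y) * res κ (x - e (ω ^ 2) * y)) = 0 := by
    rw [← map_mul, ← map_mul, key2, map_zero]
  rcases mul_eq_zero.1 hr with h | h
  · obtain ⟨u, hu⟩ := (unit_of 1 ω h1.symm h).mul (unit_of 1 (ω ^ 2) h12.symm h)
    rw [← hu] at key2
    refine ⟨1, one_pow _, ?_⟩
    exact sub_eq_zero.1 ((Units.mul_left_eq_zero u).1 key2)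
  · rcases mul_eq_zero.1 h with h | h
    · obtain ⟨u, hu⟩ := (unit_of ω 1 h1 h).mul (unit_of ω (ω ^ 2) hw2.symm h)
      have key3 : (x - e ω * y) * ((x - e 1 * y) * (x - e (ω ^ 2) * y)) = 0 := by
        rw [← key2]; ring
      rw [← hu] at key3
      refine ⟨ω, h3, ?_⟩
      exact sub_eq_zero.1 ((Units.mul_left_eq_zero u).1 key3)
    · obtain ⟨u, hu⟩ := (unit_of (ω ^ 2) 1 h12 h).mul (unit_of (ω ^ 2) ω hw2 h)
      have key3 : (x - e (ω ^ 2) * y) * ((x - e 1 * y) * (x - e ω * y)) = 0 := by
        rw [← key2]; ring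
      rw [← hu] at key3
      refine ⟨ω ^ 2, by rw [← pow_mul, mul_comm, pow_mul, h3, one_pow], ?_⟩
      exact sub_eq_zero.1 ((Units.mul_left_eq_zero u).1 key3)

end Pool.Agent.R836.RD
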